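import Pool.Agent.Lib.MP_ae5b4e_an_BX.Ext

/-!
# MP_ae5b4e_an, project BX: the box lemma
-/

noncomputable section

namespace Pool.Agent.MP_ae5b4e_an_BX

open Complex Set Filter Topology Metric

/-- **BOX LEMMA.** `b₀` depends only on `g` and `K`; `a₁, a₂, D` are arbitrary. -/
theorem exists_box {M K : Set (ℂ × ℂ)} (hM : IsOpen M) (hK : IsCompact K) (hKM : K ⊆ M)
    {g : ℂ × ℂ → ℂ × ℂ} (hg : AnalyticOnNhd ℂ g M) :
    ∃ b₀ ρ : ℝ, 0 < b₀ ∧ 0 < ρ ∧ cthickening ρ K ⊆ M ∧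
      ∀ a₁ a₂ b₁ b₂ τ : ℝ, a₁ < a₂ → b₁ < b₂ → b₂ - b₁ ≤ b₀ → 0 < τ →
      ∀ D : Set ℂ, IsOpen D → ∀ z : ℂ × ℂ → ℂ × ℂ,
      AnalyticOnNhd ℂ z (Rec (a₁ - τ) (a₂ + τ) (b₁ - τ) (b₂ + τ) ×ˢ D) →
      (∀ p ∈ Rec (a₁ - τ) (a₂ + τ) (b₁ - τ) (b₂ + τ) ×ˢ D, z p ∈ K) →
      (∀ p ∈ Rec (a₁ - τ) (a₂ + τ) (b₁ - τ) (b₂ + τ) ×ˢ D,
        HasDerivAt (fun θ => z (θ, p.2)) (g (z p)) p.1) →
      ∀ δ : ℝ, 0 < δ → ∃ η ε₀ : ℝ, 0 < η ∧ 0 < ε₀ ∧ ∀ ε : ℝ, 0 < ε → ε < ε₀ →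
        ∀ g' : ℂ × ℂ → ℂ × ℂ, AnalyticOnNhd ℂ g' M → (∀ w ∈ cthickening ρ K, ‖g' w - g w‖ ≤ η) →
          ∃ Z : ℂ × ℂ → ℂ × ℂ, Exa g' ε (Rec a₁ a₂ b₁ b₂) D Z ∧
            ∀ p ∈ Rec a₁ a₂ b₁ b₂ ×ˢ D, ‖Z p - z p‖ ≤ δ := by
  obtain ⟨ρ, hρ, hρM⟩ := hK.exists_cthickening_subset_open hM hKM
  have hKc : IsCompact (cthickening ρ K) := hK.cthickening
  obtain ⟨G, hG0, hG⟩ : ∃ G : ℝ, 0 ≤ G ∧ ∀ w ∈ cthickening ρ K, ‖g w‖ ≤ G := by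
    obtain ⟨G, hG⟩ := hKc.exists_bound_of_continuousOn (f := g) (hg.continuousOn.mono hρM)
    exact ⟨max G 0, le_max_right _ _, fun w hw => (hG w hw).trans (le_max_left _ _)⟩
  obtain ⟨C₀, hC₀, H⟩ := solve_vec
  have hC₀' : 0 < C₀ := by linarith
  obtain ⟨Λ, hΛd⟩ : ∃ Λ : ℝ, Λ = 4 * (G + 1) / ρ := ⟨_, rfl⟩
  have hΛ : 0 < Λ := by
    rw [hΛd]
    positivity
  have hbK : ∀ w ∈ K, ball w ρ ⊆ cthickening ρ K := fun w hw =>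
    (ball_subset_closedBall).trans (closedBall_subset_cthickening hw ρ)
  have hKsub : K ⊆ cthickening ρ K := self_subset_cthickening K
  have hLall : ∀ g' : ℂ × ℂ → ℂ × ℂ, AnalyticOnNhd ℂ g' M →
      (∀ w ∈ cthickening ρ K, ‖g' w‖ ≤ G + 1) → ∀ w ∈ K, ∀ x ∈ ball w (ρ / 4),
      ∀ y ∈ ball w (ρ / 4), ‖g' y - g' x‖ ≤ Λ * ‖y - x‖ := by
    intro g' hg' hb w hw x hx y hy
    rw [hΛd]
    exact lip_vec hρ (hg'.mono ((hbK w hw).trans hρM)) (fun q hq => hb q (hbK w hw hq)) hx hy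
  have hLg := hLall g hg fun w hw => (hG w hw).trans (by linarith)
  obtain ⟨b₀, hb₀d⟩ : ∃ b₀ : ℝ, b₀ = 1 / (8 * Λ * C₀) := ⟨_, rfl⟩
  have hb₀ : 0 < b₀ := by
    rw [hb₀d]
    positivity
  have hb₀e : Λ * C₀ * b₀ = 1 / 8 := by
    rw [hb₀d]
    field_simp
  refine ⟨b₀, ρ, hb₀, hρ, hρM, ?_⟩
  intro a₁ a₂ b₁ b₂ τ ha hb hbb hτ D hD z hz hzK hzd δ hδ
  obtain ⟨E, hEd⟩ : ∃ E : ℝ, E = Real.exp (Λ * (a₂ - a₁ + 1)) := ⟨_, rfl⟩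
  have hE1 : 1 ≤ E := by
    rw [hEd]
    refine Real.one_le_exp ?_
    have : 0 < a₂ - a₁ + 1 := by linarith
    positivity
  obtain ⟨m, hmd⟩ : ∃ m : ℝ, m = min δ (ρ / 8) := ⟨_, rfl⟩
  have hm : 0 < m := by
    rw [hmd]
    exact lt_min hδ (by positivity)
  have hmδ : m ≤ δ := by
    rw [hmd]
    exact min_le_left _ _
  have hmρ : m ≤ ρ / 8 := by
    rw [hmd]
    exact min_le_right _ _
  obtain ⟨κ₀, hκ₀d⟩ : ∃ κ₀ : ℝ, κ₀ = Λ * m / (2 * E) := ⟨_, rfl⟩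
  have hκ₀ : 0 < κ₀ := by
    rw [hκ₀d]
    positivity
  have hκ₀e : 2 * (κ₀ / Λ) * E = m := by
    rw [hκ₀d]
    field_simp
  -- the step
  obtain ⟨s, hs, hsτ, hsb⟩ : ∃ s : ℝ, 0 < s ∧ s ≤ τ / 2 ∧ s ≤ b₀ / 2 :=
    ⟨min (τ / 2) (b₀ / 2), lt_min (by positivity) (by positivity), min_le_left _ _, min_le_right _ _⟩
  obtain ⟨η, hη, hη1, hηκ⟩ : ∃ η : ℝ, 0 < η ∧ η ≤ 1 ∧ η ≤ κ₀ / 2 :=
    ⟨min 1 (κ₀ / 2), lt_min one_pos (by positivity), min_le_left _ _, min_le_right _ _⟩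
  obtain ⟨ε₀, hε₀, e1, e2, e3, e4, e5⟩ : ∃ ε₀ : ℝ, 0 < ε₀ ∧ ε₀ ≤ τ / 4 ∧
      ε₀ ≤ ρ / (8 * (G + 1)) ∧ ε₀ ≤ 1 / (4 * Λ * C₀) ∧ ε₀ ≤ 1 ∧ ε₀ ≤ κ₀ / (2 * Λ * (G + 1)) := by
    refine ⟨min (τ / 4) (min (ρ / (8 * (G + 1))) (min (1 / (4 * Λ * C₀)) (min 1
      (κ₀ / (2 * Λ * (G + 1)))))), by positivity, min_le_left _ _, ?_, ?_, ?_, ?_⟩
    · exact (min_le_right _ _).trans (min_le_left _ _)
    · exact (min_le_right _ _).trans ((min_le_right _ _).trans (min_le_left _ _))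
    · exact (min_le_right _ _).trans ((min_le_right _ _).trans ((min_le_right _ _).trans
        (min_le_left _ _)))
    · exact (min_le_right _ _).trans ((min_le_right _ _).trans ((min_le_right _ _).trans
        (min_le_right _ _)))
  refine ⟨η, ε₀, hη, hε₀, ?_⟩
  intro ε hε hεε g' hg' hgg
  have hετ : ε ≤ τ / 4 := hεε.le.trans e1
  have hε1 : ε ≤ 1 := hεε.le.trans e4
  have hεG : G * ε < ρ / 4 := by
    have h1 : ε ≤ ρ / (8 * (G + 1)) := hεε.le.trans e2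
    have h2 : (G + 1) * ε ≤ ρ / 8 := by
      calc (G + 1) * ε ≤ (G + 1) * (ρ / (8 * (G + 1))) := mul_le_mul_of_nonneg_left h1 (by linarith)
        _ = ρ / 8 := by field_simp
    nlinarith
  have hεC : Λ * C₀ * ε ≤ 1 / 4 := by
    have h1 : ε ≤ 1 / (4 * Λ * C₀) := hεε.le.trans e3
    calc Λ * C₀ * ε ≤ Λ * C₀ * (1 / (4 * Λ * C₀)) := mul_le_mul_of_nonneg_left h1 (by positivity)
      _ = 1 / 4 := by field_simp
  obtain ⟨κ, hκd⟩ : ∃ κ : ℝ, κ = Λ * G * ε + η := ⟨_, rfl⟩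
  have hκ : 0 < κ := by
    rw [hκd]
    positivity
  have hκκ : κ ≤ κ₀ := by
    have h1 : ε ≤ κ₀ / (2 * Λ * (G + 1)) := hεε.le.trans e5
    have h2 : Λ * (G + 1) * ε ≤ κ₀ / 2 := by
      calc Λ * (G + 1) * ε ≤ Λ * (G + 1) * (κ₀ / (2 * Λ * (G + 1))) :=
            mul_le_mul_of_nonneg_left h1 (by positivity)
        _ = κ₀ / 2 := by field_simp
    have h3 : Λ * G * ε ≤ Λ * (G + 1) * ε := by
      have : 0 ≤ Λ * ε := by positivity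
      nlinarith
    rw [hκd]
    linarith
  have hκE : 2 * (κ / Λ) * E ≤ m := by
    rw [← hκ₀e]
    have h1 : κ / Λ ≤ κ₀ / Λ := div_le_div_of_nonneg_right hκκ hΛ.le
    have h2 : 2 * (κ / Λ) ≤ 2 * (κ₀ / Λ) := by linarith
    exact mul_le_mul_of_nonneg_right h2 (by linarith)
  have hκΛ0 : 0 < κ / Λ := by positivity
  have hκm : κ / Λ ≤ m / 2 := by
    have : 2 * (κ / Λ) * 1 ≤ 2 * (κ / Λ) * E := mul_le_mul_of_nonneg_left hE1 (by positivity)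
    linarith
  have hLg' := hLall g' hg' fun w hw => by
    have h1 := hgg w hw
    have h2 := hG w hw
    have h3 : g' w = (g' w - g w) + g w := by abel
    rw [h3]
    refine (norm_add_le _ _).trans ?_
    linarith
  have hbM : ∀ w ∈ K, ball w (ρ / 4) ⊆ M := fun w hw =>
    ((ball_subset_ball (by linarith)).trans (hbK w hw)).trans hρM
  -- the residual
  have hres : ∀ p : ℂ × ℂ, a₁ - τ < p.1.re → p.1.re + ε < a₂ + τ → b₁ - τ < p.1.im →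
      p.1.im < b₂ + τ → p.2 ∈ D →
      ‖z p + (ε : ℂ) • g' (z p) - z (p.1 + ε, p.2)‖ ≤ ε * κ := by
    intro p h1 h2 h3 h4 h5
    have hmem : ∀ t : ℝ, 0 ≤ t → t ≤ ε →
        ((p.1 + t, p.2) : ℂ × ℂ) ∈ Rec (a₁ - τ) (a₂ + τ) (b₁ - τ) (b₂ + τ) ×ˢ D := by
      intro t ht0 ht1
      refine ⟨⟨?_, ?_, ?_, ?_⟩, h5⟩
      · simp
        linarith
      · simp
        linarith
      · simpa using h3
      · simpa using h4
    rw [hκd]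
    exact residual (K := K) (g := g) (g' := g') (r := ρ / 4) hLg hΛ.le
      (fun w hw => hG w (hKsub hw)) hG0 (fun w hw => hgg w (hKsub hw)) (by positivity) hε hεG
      (fun t ht0 ht1 => hzK _ (hmem t ht0 ht1)) (fun t ht0 ht1 => hzd _ (hmem t ht0 ht1))
  -- the short box
  have hβ : b₁ / ε < b₂ / ε := div_lt_div_of_pos_right hb hε
  obtain ⟨A, hAd⟩ : ∃ A : ℝ, A = C₀ * (b₂ / ε - b₁ / ε + 2 * (s / ε) + 1) := ⟨_, rfl⟩
  have hsm : ε * Λ * A ≤ 1 / 2 := by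
    have h1 : ε * Λ * A = Λ * C₀ * (b₂ - b₁ + 2 * s) + Λ * C₀ * ε := by
      rw [hAd]
      field_simp
      try ring
    have h2 : Λ * C₀ * (b₂ - b₁ + 2 * s) ≤ Λ * C₀ * (2 * b₀) :=
      mul_le_mul_of_nonneg_left (by linarith) (by positivity)
    rw [h1]
    nlinarith
  have hAR : 2 * (A * (ε * κ)) ≤ κ / Λ := by
    have h1 : 2 * (A * (ε * κ)) = 2 * (ε * Λ * A) * (κ / Λ) := by
      field_simp
    rw [h1]
    have h2 : 2 * (ε * Λ * A) ≤ 1 := by linarith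
    calc 2 * (ε * Λ * A) * (κ / Λ) ≤ 1 * (κ / Λ) := mul_le_mul_of_nonneg_right h2 hκΛ0.le
      _ = κ / Λ := one_mul _
  have hεC' : (ε : ℂ) ≠ 0 := by
    exact_mod_cast hε.ne'
  obtain ⟨W₀, hW₀d⟩ : ∃ W₀ : ℂ × ℂ → ℂ × ℂ, W₀ = fun p => z (a₁ + ε * p.1, p.2) := ⟨_, rfl⟩
  have reS : ∀ x : ℂ, ((a₁ : ℂ) + ε * x).re = a₁ + ε * x.re := fun x => by simp
  have imS : ∀ x : ℂ, ((a₁ : ℂ) + ε * x).im = ε * x.im := fun x => by simp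
  have hmemS : ∀ p ∈ Rec (-(1 / 2)) (5 / 2) (b₁ / ε - s / ε) (b₂ / ε + s / ε) ×ˢ D,
      ((a₁ + ε * p.1, p.2) : ℂ × ℂ) ∈ Rec (a₁ - τ) (a₂ + τ) (b₁ - τ) (b₂ + τ) ×ˢ D := by
    rintro p ⟨⟨h1, h2, h3, h4⟩, h5⟩
    have h3' : b₁ - s < ε * p.1.im := by
      rw [← sub_div, div_lt_iff₀ hε] at h3
      linarith
    have h4' : ε * p.1.im < b₂ + s := by
      rw [← add_div, lt_div_iff₀ hε] at h4
      linarith
    have h1' : ε * (-(1 / 2)) < ε * p.1.re := mul_lt_mul_of_pos_left h1 hε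
    have h2' : ε * p.1.re < ε * (5 / 2) := mul_lt_mul_of_pos_left h2 hε
    refine ⟨⟨?_, ?_, ?_, ?_⟩, h5⟩
    · show a₁ - τ < ((a₁ : ℂ) + ε * p.1).re
      rw [reS]
      linarith
    · show ((a₁ : ℂ) + ε * p.1).re < a₂ + τ
      rw [reS]
      linarith
    · show b₁ - τ < ((a₁ : ℂ) + ε * p.1).im
      rw [imS]
      linarith
    · show ((a₁ : ℂ) + ε * p.1).im < b₂ + τ
      rw [imS]
      linarith
  obtain ⟨W, hW1, hW2, hW3⟩ := solve_exact (M := M) (K := K) (g := g') hg' (ρ := ρ / 4) (Λ := Λ)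
    hbM hLg' hΛ.le hC₀ H hD (β₁ := b₁ / ε) (β₂ := b₂ / ε) (ε := ε) (σ := s / ε) (R := ε * κ)
    (A := A) hβ hε (by positivity) (by positivity) hAd.ge hsm (by linarith) (W₀ := W₀)
    (by
      intro p hp
      rw [hW₀d]
      have h1 : AnalyticAt ℂ (fun q : ℂ × ℂ => ((a₁ + ε * q.1, q.2) : ℂ × ℂ)) p :=
        (analyticAt_const.add (analyticAt_const.mul analyticAt_fst)).prod analyticAt_snd
      exact AnalyticAt.comp (g := z) (f := fun q : ℂ × ℂ => ((a₁ + ε * q.1, q.2) : ℂ × ℂ))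
        (hz _ (hmemS p hp)) h1)
    (by
      intro p hp
      rw [hW₀d]
      exact hzK _ (hmemS p hp))
    (by
      rintro p ⟨⟨h1, h2, h3, h4⟩, h5⟩
      rw [hW₀d]
      simp only
      have e6 : (a₁ : ℂ) + ε * (p.1 + 1) = a₁ + ε * p.1 + ε := by ring
      rw [e6]
      have hm1 := hmemS p ⟨⟨h1, by linarith, h3, h4⟩, h5⟩
      have h2' : ε * p.1.re < ε * (3 / 2) := mul_lt_mul_of_pos_left h2 hε
      refine hres (a₁ + ε * p.1, p.2) hm1.1.1 ?_ hm1.1.2.2.1 hm1.1.2.2.2 h5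
      show ((a₁ : ℂ) + ε * p.1).re + ε < a₂ + τ
      rw [reS]
      linarith)
  obtain ⟨Z, hZd⟩ : ∃ Z : ℂ × ℂ → ℂ × ℂ, Z = fun p => W ((p.1 - a₁) / ε, p.2) := ⟨_, rfl⟩
  have hmemU : ∀ (t : ℝ), ∀ p ∈ Rec (a₁ - ε / 2) (a₁ + t * ε) b₁ b₂ ×ˢ D,
      (((p.1 - a₁) / ε, p.2) : ℂ × ℂ) ∈ Rec (-(1 / 2)) t (b₁ / ε) (b₂ / ε) ×ˢ D := by
    rintro t p ⟨⟨h1, h2, h3, h4⟩, h5⟩
    have r1 : ((p.1 - a₁) / (ε : ℂ)).re = (p.1.re - a₁) / ε := by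
      rw [div_ofReal_re]
      simp
    have r2 : ((p.1 - a₁) / (ε : ℂ)).im = p.1.im / ε := by
      rw [div_ofReal_im]
      simp
    refine ⟨⟨?_, ?_, ?_, ?_⟩, h5⟩
    · show -(1 / 2) < ((p.1 - a₁) / (ε : ℂ)).re
      rw [r1, lt_div_iff₀ hε]
      linarith
    · show ((p.1 - a₁) / (ε : ℂ)).re < t
      rw [r1, div_lt_iff₀ hε]
      linarith
    · show b₁ / ε < ((p.1 - a₁) / (ε : ℂ)).im
      rw [r2]
      exact div_lt_div_of_pos_right h3 hε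
    · show ((p.1 - a₁) / (ε : ℂ)).im < b₂ / ε
      rw [r2]
      exact div_lt_div_of_pos_right h4 hε
  have hLg0 : Lg g' D ε b₁ b₂ z (a₁ - ε / 2) (a₁ + 5 / 2 * ε) (κ / Λ) Z := by
    refine ⟨?_, ?_, ?_⟩
    · intro p hp
      rw [hZd]
      have h1 : AnalyticAt ℂ (fun q : ℂ × ℂ => (((q.1 - a₁) / ε, q.2) : ℂ × ℂ)) p :=
        ((analyticAt_fst.sub analyticAt_const).div analyticAt_const hεC').prod analyticAt_snd
      exact AnalyticAt.comp (g := W) (f := fun q : ℂ × ℂ => (((q.1 - a₁) / ε, q.2) : ℂ × ℂ))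
        (hW1 _ (hmemU _ p hp)) h1
    · intro p hp
      have e6 : a₁ + 5 / 2 * ε - ε = a₁ + 3 / 2 * ε := by ring
      rw [e6] at hp
      rw [hZd]
      simp only
      have e7 : (p.1 + ε - a₁) / (ε : ℂ) = (p.1 - a₁) / ε + 1 := by
        field_simp
        ring
      rw [e7]
      exact hW2 _ (hmemU _ p hp)
    · intro p hp
      have h1 := hW3 _ (hmemU _ p hp)
      rw [hW₀d] at h1
      simp only at h1
      have e6 : (a₁ : ℂ) + ε * ((p.1 - a₁) / ε) = p.1 := by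
        field_simp
        ring
      rw [e6] at h1
      rw [hZd]
      exact h1.trans hAR
  -- the long box
  obtain ⟨n, hn⟩ : ∃ n : ℕ, n = ⌈(a₂ - a₁) / ε⌉₊ := ⟨_, rfl⟩
  have hn1 : a₂ - a₁ ≤ n * ε := by
    have := Nat.le_ceil ((a₂ - a₁) / ε)
    rw [← hn, div_le_iff₀ hε] at this
    exact this
  have hn2 : n * ε ≤ a₂ - a₁ + ε := by
    have h0 : 0 ≤ (a₂ - a₁) / ε := by
      have : 0 < a₂ - a₁ := by linarith
      positivity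
    have := (Nat.ceil_lt_add_one h0).le
    rw [← hn] at this
    calc (n : ℝ) * ε ≤ ((a₂ - a₁) / ε + 1) * ε := mul_le_mul_of_nonneg_right this hε.le
      _ = a₂ - a₁ + ε := by field_simp
  have hpow : (1 + ε * Λ) ^ n ≤ E := by
    have h1 : 1 + ε * Λ ≤ Real.exp (ε * Λ) := by
      have := Real.add_one_le_exp (ε * Λ)
      linarith
    have h2 : (1 + ε * Λ) ^ n ≤ Real.exp (ε * Λ) ^ n := pow_le_pow_left₀ (by positivity) h1 n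
    refine h2.trans ?_
    rw [← Real.exp_nat_mul, hEd]
    refine Real.exp_le_exp.2 ?_
    have h3 : (n : ℝ) * ε ≤ a₂ - a₁ + 1 := by linarith
    calc (n : ℝ) * (ε * Λ) = Λ * (n * ε) := by ring
      _ ≤ Λ * (a₂ - a₁ + 1) := mul_le_mul_of_nonneg_left h3 hΛ.le
  have hpow2 : 2 * (κ / Λ) * (1 + ε * Λ) ^ n ≤ m :=
    (mul_le_mul_of_nonneg_left hpow (by positivity)).trans hκE
  obtain ⟨Z', hZ'⟩ := extend_n (M := M) (K := K) (g := g') hg' (r := ρ / 4) (Λ := Λ) (κ := κ)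
    (ε := ε) (by positivity) hbM hLg' hΛ hκ.le hε hD (A₁ := a₁ - ε / 2) (c := a₁ + 5 / 2 * ε)
    (C := a₂ + τ) (b₁ := b₁) (b₂ := b₂) (by linarith) (z := z) (Z := Z)
    (by
      rintro p ⟨⟨h1, h2, h3, h4⟩, h5⟩
      exact hzK p ⟨⟨by linarith, h2, by linarith, by linarith⟩, h5⟩)
    (by
      rintro p ⟨⟨h1, h2, h3, h4⟩, h5⟩
      exact hres p (by linarith) (by linarith) (by linarith) (by linarith) h5)
    hLg0 n (by linarith) (by linarith)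
  refine ⟨Z', ⟨?_, ?_⟩, ?_⟩
  · exact hZ'.an.mono (prod_mono_left (Rec_mono (by linarith) (by linarith) le_rfl le_rfl))
  · rintro p ⟨⟨h1, h2, h3, h4⟩, h5⟩ hp
    have h6 : (p.1 + ε).re < a₂ := hp.2.1
    have h7 : (p.1 + ε).re = p.1.re + ε := by simp
    rw [h7] at h6
    exact hZ'.eq p ⟨⟨by linarith, by linarith, h3, h4⟩, h5⟩
  · rintro p ⟨⟨h1, h2, h3, h4⟩, h5⟩
    refine (hZ'.near p ⟨⟨by linarith, by linarith, h3, h4⟩, h5⟩).trans ?_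
    linarith

end Pool.Agent.MP_ae5b4e_an_BX
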