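import Pool.Agent.Lib.MP_ae5b4e_an_BX.Defs

/-!
# MP_ae5b4e_an, project BX: exact coordinates (quantitative inverse function theorem)
-/

noncomputable section

namespace Pool.Agent.MP_ae5b4e_an_BX

open Complex Set Filter Topology Metric

/-- a uniform lower bound for the derivatives -/
private theorem inv_low {z : ℂ × ℂ → ℂ × ℂ} {W K : Set (ℂ × ℂ)}
    (hz : AnalyticOnNhd ℂ z W) (hK : IsCompact K) (hKW : K ⊆ W)
    (hd : ∀ p ∈ K, Function.Injective (fderiv ℂ z p)) :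
    ∃ m : ℝ, 0 < m ∧ ∀ p ∈ K, ∀ v : ℂ × ℂ, m * ‖v‖ ≤ ‖fderiv ℂ z p v‖ := by
  rcases K.eq_empty_or_nonempty with h0 | hne
  · exact ⟨1, one_pos, fun p hp => by rw [h0] at hp; exact hp.elim⟩
  have hS : IsCompact (sphere (0 : ℂ × ℂ) 1) := isCompact_sphere _ _
  have hSne : (sphere (0 : ℂ × ℂ) 1).Nonempty := ⟨(1, 0), by simp [Prod.norm_def]⟩
  have hc : ContinuousOn (fun q : (ℂ × ℂ) × (ℂ × ℂ) => ‖fderiv ℂ z q.1 q.2‖)
      (K ×ˢ sphere (0 : ℂ × ℂ) 1) := by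
    refine ContinuousOn.norm (ContinuousOn.clm_apply ?_ continuousOn_snd)
    exact (hz.fderiv.continuousOn.mono hKW).comp continuousOn_fst fun q hq => hq.1
  obtain ⟨q, hq, hmin⟩ := (hK.prod hS).exists_isMinOn (hne.prod hSne) hc
  refine ⟨‖fderiv ℂ z q.1 q.2‖, ?_, fun p hp v => ?_⟩
  · rw [norm_pos_iff]
    intro h1
    have h2 : q.2 = 0 := hd q.1 hq.1 (by rw [h1, map_zero])
    have h3 : ‖q.2‖ = 1 := by simpa using hq.2
    rw [h2] at h3
    simp at h3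
  · rcases eq_or_ne v 0 with rfl | hv
    · simp
    have hv' : 0 < ‖v‖ := norm_pos_iff.2 hv
    have h1 : ((‖v‖⁻¹ : ℝ) : ℂ) • v ∈ sphere (0 : ℂ × ℂ) 1 := by
      rw [mem_sphere_zero_iff_norm, norm_smul, norm_real, norm_inv, norm_norm,
        inv_mul_cancel₀ hv'.ne']
    have h2 := hmin (show (p, ((‖v‖⁻¹ : ℝ) : ℂ) • v) ∈ K ×ˢ sphere (0 : ℂ × ℂ) 1 from ⟨hp, h1⟩)
    simp only [mem_setOf_eq, map_smul, norm_smul, norm_real, norm_inv, norm_norm] at h2
    rw [inv_mul_eq_div, le_div_iff₀ hv'] at h2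
    exact h2

/-- Cauchy estimate for the derivative -/
private theorem inv_cauchy {f : ℂ × ℂ → ℂ × ℂ} {q : ℂ × ℂ} {R δ : ℝ} (hR : 0 < R) (hδ : 0 ≤ δ)
    (hf : AnalyticOnNhd ℂ f (closedBall q R)) (hb : ∀ p ∈ closedBall q R, ‖f p‖ ≤ δ) :
    ‖fderiv ℂ f q‖ ≤ δ / R := by
  refine ContinuousLinearMap.opNorm_le_bound _ (by positivity) fun v => ?_
  rcases eq_or_ne v 0 with rfl | hv
  · simp
  have hv' : 0 < ‖v‖ := norm_pos_iff.2 hv
  have hmem : ∀ t ∈ closedBall (0:ℂ) (R / ‖v‖), q + t • v ∈ closedBall q R := by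
    intro t ht
    rw [mem_closedBall_zero_iff, le_div_iff₀ hv'] at ht
    rw [mem_closedBall, dist_eq_norm, add_sub_cancel_left, norm_smul]
    exact ht
  have hline : ∀ t : ℂ, HasDerivAt (fun t : ℂ => q + t • v) v t := fun t => by
    simpa using ((hasDerivAt_id t).smul_const v).const_add q
  have hd : ∀ t ∈ closedBall (0:ℂ) (R / ‖v‖), HasDerivAt (fun t : ℂ => f (q + t • v))
      (fderiv ℂ f (q + t • v) v) t := fun t ht =>
    (hf _ (hmem t ht)).differentiableAt.hasFDerivAt.comp_hasDerivAt t (hline t)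
  have hdc : DiffContOnCl ℂ (fun t : ℂ => f (q + t • v)) (ball 0 (R / ‖v‖)) := by
    refine ⟨fun t ht => (hd t (ball_subset_closedBall ht)).differentiableAt.differentiableWithinAt,
      ?_⟩
    rw [closure_ball _ (by positivity)]
    exact fun t ht => (hd t ht).continuousAt.continuousWithinAt
  have h1 := norm_deriv_le_of_forall_mem_sphere_norm_le (by positivity : 0 < R / ‖v‖) hdc
    (fun t ht => hb _ (hmem t (sphere_subset_closedBall ht)))
  rw [(hd 0 (mem_closedBall_self (by positivity))).deriv, zero_smul, add_zero] at h1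
  calc ‖fderiv ℂ f q v‖ ≤ δ / (R / ‖v‖) := h1
    _ = δ / R * ‖v‖ := by field_simp

/-- Local inverses of all maps close to a map with invertible derivative; the radius `r` may be
prescribed (small), `ρ` and `δ₀` depend on it, not on the point of the compact set. -/
theorem loc_inv {z : ℂ × ℂ → ℂ × ℂ} {W K : Set (ℂ × ℂ)} (hW : IsOpen W)
    (hz : AnalyticOnNhd ℂ z W) (hK : IsCompact K) (hKW : K ⊆ W)
    (hd : ∀ p ∈ K, Function.Injective (fderiv ℂ z p)) :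
    ∃ r₀ : ℝ, 0 < r₀ ∧ (∀ p ∈ K, closedBall p r₀ ⊆ W) ∧ ∀ r : ℝ, 0 < r → r ≤ r₀ →
      ∃ ρ δ₀ : ℝ, 0 < ρ ∧ 0 < δ₀ ∧ ∀ Z : ℂ × ℂ → ℂ × ℂ, AnalyticOnNhd ℂ Z W →
        (∀ p ∈ W, ‖Z p - z p‖ ≤ δ₀) → ∀ p ∈ K, ∃ S : ℂ × ℂ → ℂ × ℂ,
          AnalyticOnNhd ℂ S (ball (z p) ρ) ∧ ∀ w ∈ ball (z p) ρ, ‖S w - p‖ < r ∧ Z (S w) = w ∧
            ∀ q : ℂ × ℂ, ‖q - p‖ < r → Z q = w → q = S w := by
  obtain ⟨m, hm, hlow⟩ := inv_low hz hK hKW hd
  -- the radius
  obtain ⟨δ, hδ, hδW⟩ := hK.exists_cthickening_subset_open hW hKW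
  have hKδ : IsCompact (cthickening δ K) := hK.cthickening
  have huc := hKδ.uniformContinuousOn_of_continuous (hz.fderiv.continuousOn.mono hδW)
  obtain ⟨r1, hr1, h1⟩ := Metric.uniformContinuousOn_iff.1 huc (m / 4) (by positivity)
  set r₀ : ℝ := min (δ / 2) (r1 / 2) with hr₀
  have hr₀0 : 0 < r₀ := lt_min (by positivity) (by positivity)
  have hr₀δ : r₀ ≤ δ / 2 := min_le_left _ _
  have hr₀1 : r₀ ≤ r1 / 2 := min_le_right _ _
  have hsub : ∀ p ∈ K, closedBall p δ ⊆ cthickening δ K := fun p hp =>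
    closedBall_subset_cthickening hp δ
  have hself : ∀ p ∈ K, p ∈ cthickening δ K := fun p hp => self_subset_cthickening K hp
  refine ⟨r₀, hr₀0, fun p hp => (closedBall_subset_closedBall (by linarith)).trans
    ((hsub p hp).trans hδW), fun r hr hrr => ⟨m * r / 8, m * r / 8, by positivity, by positivity,
      fun Z hZ hZz p hp => ?_⟩⟩
  -- the derivative at `p` as an equivalence
  have hker : LinearMap.ker (fderiv ℂ z p : ℂ × ℂ →ₗ[ℂ] ℂ × ℂ) = ⊥ :=
    LinearMap.ker_eq_bot.2 (hd p hp)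
  set e' : (ℂ × ℂ) ≃ₗ[ℂ] (ℂ × ℂ) :=
    LinearEquiv.ofInjectiveEndo (fderiv ℂ z p : ℂ × ℂ →ₗ[ℂ] ℂ × ℂ) (hd p hp) with he'
  set e : (ℂ × ℂ) ≃L[ℂ] (ℂ × ℂ) := e'.toContinuousLinearEquiv with he
  have hecoe : (e : ℂ × ℂ →L[ℂ] ℂ × ℂ) = fderiv ℂ z p := by
    ext v <;> rfl
  -- the norm of the inverse
  have hN : ‖(e.symm : ℂ × ℂ →L[ℂ] ℂ × ℂ)‖ ≤ 1 / m := by
    refine ContinuousLinearMap.opNorm_le_bound _ (by positivity) fun v => ?_
    have h2 := hlow p hp (e.symm v)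
    have h3 : fderiv ℂ z p (e.symm v) = v := by
      rw [← hecoe]
      exact e.apply_symm_apply v
    rw [h3] at h2
    rw [one_div, inv_mul_eq_div, le_div_iff₀ hm, mul_comm]
    exact h2
  have hNpos : 0 < ‖(e.symm : ℂ × ℂ →L[ℂ] ℂ × ℂ)‖ := by
    rw [norm_pos_iff]
    intro h0
    have h2 : e.symm (e (1, 0)) = (1, 0) := e.symm_apply_apply _
    have h3 : (e.symm : ℂ × ℂ →L[ℂ] ℂ × ℂ) (e (1, 0)) = 0 := by rw [h0]; rfl
    have h4 : ((1:ℂ), (0:ℂ)) = 0 := h2.symm.trans h3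
    have := congrArg Prod.fst h4
    simp at this
  have hNi : m ≤ ‖(e.symm : ℂ × ℂ →L[ℂ] ℂ × ℂ)‖⁻¹ := by
    rw [← one_div, le_div_iff₀ hNpos]
    calc m * ‖(e.symm : ℂ × ℂ →L[ℂ] ℂ × ℂ)‖ ≤ m * (1 / m) := by gcongr
      _ = 1 := by field_simp
  -- the derivatives of `Z`
  have hDer : ∀ q ∈ closedBall p r, ‖fderiv ℂ Z q - (e : ℂ × ℂ →L[ℂ] ℂ × ℂ)‖ ≤ m / 2 := by
    intro q hq
    have hqδ : closedBall q r₀ ⊆ cthickening δ K := by
      refine Subset.trans (fun x hx => ?_) (hsub p hp)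
      rw [mem_closedBall] at hx hq ⊢
      linarith [dist_triangle x q p]
    have hqW : closedBall q r₀ ⊆ W := hqδ.trans hδW
    have hq0 : q ∈ closedBall q r₀ := mem_closedBall_self hr₀0.le
    have h2 : ‖fderiv ℂ (fun x => Z x - z x) q‖ ≤ m * r / 8 / r₀ :=
      inv_cauchy hr₀0 (by positivity) (fun x hx => (hZ x (hqW hx)).sub (hz x (hqW hx)))
        fun x hx => hZz x (hqW hx)
    rw [fderiv_fun_sub (hZ q (hqW hq0)).differentiableAt (hz q (hqW hq0)).differentiableAt] at h2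
    have h3 : m * r / 8 / r₀ ≤ m / 8 := by
      rw [div_le_iff₀ hr₀0]
      nlinarith
    have h4 : ‖fderiv ℂ z q - fderiv ℂ z p‖ ≤ m / 4 := by
      rw [← dist_eq_norm]
      refine (h1 q (hqδ hq0) p (hself p hp) ?_).le
      rw [mem_closedBall] at hq
      linarith
    rw [hecoe]
    calc ‖fderiv ℂ Z q - fderiv ℂ z p‖
        = ‖(fderiv ℂ Z q - fderiv ℂ z q) + (fderiv ℂ z q - fderiv ℂ z p)‖ := by congr 1; abel
      _ ≤ ‖fderiv ℂ Z q - fderiv ℂ z q‖ + ‖fderiv ℂ z q - fderiv ℂ z p‖ := norm_add_le _ _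
      _ ≤ m / 2 := by linarith
  have hpW : closedBall p r ⊆ W := (closedBall_subset_closedBall (by linarith)).trans
    ((hsub p hp).trans hδW)
  have hZd : ∀ q ∈ closedBall p r, DifferentiableAt ℂ Z q := fun q hq =>
    (hZ q (hpW hq)).differentiableAt
  have happ : ApproximatesLinearOn Z (e : ℂ × ℂ →L[ℂ] ℂ × ℂ) (ball p r) (m / 2).toNNReal := by
    intro x hx y hy
    rw [Real.coe_toNNReal _ (by positivity)]
    exact Convex.norm_image_sub_le_of_norm_fderiv_le' (𝕜 := ℂ) (s := ball p r)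
      (fun q hq => hZd q (ball_subset_closedBall hq))
      (fun q hq => hDer q (ball_subset_closedBall hq)) (convex_ball p r) hy hx
  have hcN : Subsingleton (ℂ × ℂ) ∨
      (m / 2).toNNReal < ‖(e.symm : ℂ × ℂ →L[ℂ] ℂ × ℂ)‖₊⁻¹ := by
    right
    rw [← NNReal.coe_lt_coe, Real.coe_toNNReal _ (by positivity)]
    push_cast
    linarith
  set T := happ.toOpenPartialHomeomorph Z (ball p r) hcN isOpen_ball with hT
  have hTcoe : ∀ q, T q = Z q := fun q => rfl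
  have hTs : T.source = ball p r := rfl
  have htar : ball (z p) (m * r / 8) ⊆ T.target := by
    have h2 : closedBall p (r / 2) ⊆ ball p r := closedBall_subset_ball (by linarith)
    refine Subset.trans (fun w hw => ?_) (happ.closedBall_subset_target hcN isOpen_ball
      (by positivity : (0:ℝ) ≤ r / 2) h2)
    rw [mem_closedBall]
    rw [mem_ball] at hw
    have h3 : dist (z p) (Z p) ≤ m * r / 8 := by
      rw [dist_comm, dist_eq_norm]
      exact hZz p (hKW hp)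
    have h4 : m / 2 ≤ ((‖(e.symm : ℂ × ℂ →L[ℂ] ℂ × ℂ)‖₊⁻¹ : NNReal) : ℝ) -
        ((m / 2).toNNReal : ℝ) := by
      rw [Real.coe_toNNReal _ (by positivity)]
      push_cast
      linarith
    calc dist w (Z p) ≤ dist w (z p) + dist (z p) (Z p) := dist_triangle _ _ _
      _ ≤ m / 2 * (r / 2) := by linarith
      _ ≤ _ := by gcongr
  refine ⟨T.symm, fun w hw => ?_, fun w hw => ?_⟩
  · -- analyticity
    have hw' := htar hw
    have hq : T.symm w ∈ ball p r := T.map_target hw'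
    have hqc := ball_subset_closedBall hq
    have hinj : Function.Injective (fderiv ℂ Z (T.symm w)) := by
      refine (injective_iff_map_eq_zero _).2 fun v hv => ?_
      have h2 : ‖(fderiv ℂ Z (T.symm w) - (e : ℂ × ℂ →L[ℂ] ℂ × ℂ)) v‖ ≤ m / 2 * ‖v‖ :=
        ContinuousLinearMap.le_of_opNorm_le _ (hDer _ hqc) v
      rw [_root_.sub_apply, hv, zero_sub, norm_neg, hecoe] at h2
      have h3 := hlow p hp v
      have h4 : ‖v‖ ≤ 0 := by nlinarith [norm_nonneg v]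
      exact norm_le_zero_iff.1 h4
    set e2 : (ℂ × ℂ) ≃L[ℂ] (ℂ × ℂ) := (LinearEquiv.ofInjectiveEndo
      (fderiv ℂ Z (T.symm w) : ℂ × ℂ →ₗ[ℂ] ℂ × ℂ) hinj).toContinuousLinearEquiv with he2
    have he2coe : (e2 : ℂ × ℂ →L[ℂ] ℂ × ℂ) = fderiv ℂ Z (T.symm w) := by
      ext v <;> rfl
    exact T.analyticAt_symm hw' (hZ _ (hpW hqc)) he2coe.symm
  · have hw' := htar hw
    have hq : T.symm w ∈ ball p r := T.map_target hw'
    refine ⟨by rwa [mem_ball, dist_eq_norm] at hq, T.right_inv hw', fun q hq' hqw => ?_⟩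
    have hq2 : q ∈ T.source := by
      rw [hTs, mem_ball, dist_eq_norm]
      exact hq'
    rw [← hqw]
    exact (T.left_inv hq2).symm

end Pool.Agent.MP_ae5b4e_an_BX
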