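import Mathlib

/-!
# MP_ae5b4e_an, project BX (box lemma): definitions

Exact families of a map `w ↦ w + ε g w` close to the identity, over a rectangle.
-/

noncomputable section

namespace Pool.Agent.MP_ae5b4e_an_BX

open Complex Set Filter Topology Metric

/-- the open rectangle -/
def Rec (a₁ a₂ b₁ b₂ : ℝ) : Set ℂ := {θ | a₁ < θ.re ∧ θ.re < a₂ ∧ b₁ < θ.im ∧ θ.im < b₂}

/-- `Z` conjugates the translation by `ε` in the first variable to the map `w ↦ w + ε g w` -/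
structure Exa (g : ℂ × ℂ → ℂ × ℂ) (ε : ℝ) (R D : Set ℂ) (Z : ℂ × ℂ → ℂ × ℂ) : Prop where
  an : AnalyticOnNhd ℂ Z (R ×ˢ D)
  eq : ∀ p ∈ R ×ˢ D, p.1 + ε ∈ R → Z (p.1 + ε, p.2) = Z p + (ε : ℂ) • g (Z p)

theorem isOpen_Rec (a₁ a₂ b₁ b₂ : ℝ) : IsOpen (Rec a₁ a₂ b₁ b₂) :=
  (isOpen_lt continuous_const continuous_re).inter <|
    (isOpen_lt continuous_re continuous_const).inter <|
      (isOpen_lt continuous_const continuous_im).inter (isOpen_lt continuous_im continuous_const)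

theorem convex_Rec (a₁ a₂ b₁ b₂ : ℝ) : Convex ℝ (Rec a₁ a₂ b₁ b₂) :=
  (convex_halfSpace_re_gt a₁).inter <|
    (convex_halfSpace_re_lt a₂).inter <|
      (convex_halfSpace_im_gt b₁).inter (convex_halfSpace_im_lt b₂)

theorem Rec_mono {a₁ a₂ b₁ b₂ a₁' a₂' b₁' b₂' : ℝ} (h1 : a₁' ≤ a₁) (h2 : a₂ ≤ a₂') (h3 : b₁' ≤ b₁)
    (h4 : b₂ ≤ b₂') : Rec a₁ a₂ b₁ b₂ ⊆ Rec a₁' a₂' b₁' b₂' := by
  rintro θ ⟨e1, e2, e3, e4⟩
  exact ⟨h1.trans_lt e1, e2.trans_le h2, h3.trans_lt e3, e4.trans_le h4⟩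

end Pool.Agent.MP_ae5b4e_an_BX
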