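import Pool.Agent.Lib.MP_ae5b4e_an_BX.Rel

/-!
# MP_ae5b4e_an, project BX: the difference equation on a cell is solvable with a bound
-/

noncomputable section

namespace Pool.Agent.MP_ae5b4e_an_BX

open Complex Set Filter Topology Metric MeasureTheory

variable {f : ℂ × ℂ → ℂ} {β₁ β₂ M : ℝ} {D : Set ℂ}

/-- the solution on the first cell -/
def uA (f : ℂ × ℂ → ℂ) (β₁ β₂ : ℝ) (p : ℂ × ℂ) : ℂ :=
  vI f β₁ β₂ 0 p + ∫ c in (0:ℝ)..1, ((1 - c : ℝ) : ℂ) * hT f β₁ β₂ p c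

/-- the solution near the line `Re = 1` -/
def uB (f : ℂ × ℂ → ℂ) (β₁ β₂ : ℝ) (p : ℂ × ℂ) : ℂ :=
  vI f β₁ β₂ (1 / 2) p + (∫ c in (0:ℝ)..(1 / 2), ((-c : ℝ) : ℂ) * hT f β₁ β₂ p c) +
    ∫ c in (1 / 2 : ℝ)..1, ((1 - c : ℝ) : ℂ) * hT f β₁ β₂ p c

/-- the solution -/
def uS (f : ℂ × ℂ → ℂ) (β₁ β₂ : ℝ) (p : ℂ × ℂ) : ℂ :=
  if p.1.re < 1 then uA f β₁ β₂ p
  else if p.1.re = 1 then uB f β₁ β₂ p
  else uA f β₁ β₂ (p.1 - 1, p.2) + f (p.1 - 1, p.2)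

theorem uB_per (f : ℂ × ℂ → ℂ) (β₁ β₂ : ℝ) (x γ : ℂ) :
    uB f β₁ β₂ (x + 1, γ) = uB f β₁ β₂ (x, γ) := by
  unfold uB
  simp only [vI_per, hT_per]

section
variable (hf : AnalyticOnNhd ℂ f (Rc β₁ β₂ ×ˢ D))
include hf

theorem split {p : ℂ × ℂ} (hp : p.2 ∈ D) (h1 : β₁ < p.1.im) (h2 : p.1.im < β₂) :
    (∫ c in (0:ℝ)..1, ((1 - c : ℝ) : ℂ) * hT f β₁ β₂ p c) =
      (∫ c in (0:ℝ)..(1 / 2), hT f β₁ β₂ p c) +
      (∫ c in (0:ℝ)..(1 / 2), ((-c : ℝ) : ℂ) * hT f β₁ β₂ p c) +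
      ∫ c in (1 / 2 : ℝ)..1, ((1 - c : ℝ) : ℂ) * hT f β₁ β₂ p c := by
  have hc := hT_ii hf hp (by linarith) h1 h2
  have hi : ∀ (w : ℝ → ℂ), Continuous w → ∀ a b : ℝ, a ∈ Icc (0:ℝ) 1 → b ∈ Icc (0:ℝ) 1 →
      IntervalIntegrable (fun c => w c * hT f β₁ β₂ p c) volume a b := by
    intro w hw a b ha hb
    refine ContinuousOn.intervalIntegrable ?_
    exact (hw.continuousOn.mul hc).mono (uIcc_subset_Icc ha hb)
  have h0 : (0:ℝ) ∈ Icc (0:ℝ) 1 := ⟨le_rfl, zero_le_one⟩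
  have h3 : (1/2:ℝ) ∈ Icc (0:ℝ) 1 := ⟨by norm_num, by norm_num⟩
  have h4 : (1:ℝ) ∈ Icc (0:ℝ) 1 := ⟨zero_le_one, le_rfl⟩
  have i1 := hi (fun c => ((1 - c : ℝ) : ℂ)) (by fun_prop) 0 (1 / 2) h0 h3
  have i2 := hi (fun c => ((1 - c : ℝ) : ℂ)) (by fun_prop) (1 / 2) 1 h3 h4
  have i3 := hi (fun c => ((-c : ℝ) : ℂ)) (by fun_prop) 0 (1 / 2) h0 h3
  have i4 : IntervalIntegrable (hT f β₁ β₂ p) volume 0 (1 / 2) := by
    have := hi (fun _ => 1) (by fun_prop) 0 (1 / 2) h0 h3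
    simpa using this
  rw [← intervalIntegral.integral_add_adjacent_intervals i1 i2,
    ← intervalIntegral.integral_add i4 i3]
  congr 1
  refine intervalIntegral.integral_congr fun c _ => ?_
  push_cast
  ring

theorem uA_eq_uB {p : ℂ × ℂ} (hp : p.2 ∈ D) (h1 : β₁ < p.1.im) (h2 : p.1.im < β₂)
    (h3 : 1 / 2 < p.1.re) (h4 : p.1.re < 1) : uA f β₁ β₂ p = uB f β₁ β₂ p := by
  have e1 := vI_none hf hp (a := 0) (b := 1 / 2) le_rfl (by norm_num) (by norm_num) h1 h2 h3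
    (by linarith)
  have e2 := split hf hp h1 h2
  unfold uA uB
  rw [e2, e1]
  ring

theorem uA_add {p : ℂ × ℂ} (hp : p.2 ∈ D) (h1 : β₁ < p.1.im) (h2 : p.1.im < β₂)
    (h3 : 0 < p.1.re) (h4 : p.1.re < 1 / 2) : uA f β₁ β₂ p + f p = uB f β₁ β₂ p := by
  have e1 := vI_one hf hp (a := 0) (b := 1 / 2) le_rfl (by norm_num) (by norm_num) h1 h2 h3 h4
    (by linarith) (by linarith)
  have e2 := split hf hp h1 h2
  unfold uA uB
  rw [e2, e1]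
  ring

theorem uA_an (hD : IsOpen D) : AnalyticOnNhd ℂ (uA f β₁ β₂) (Rec 0 1 β₁ β₂ ×ˢ D) := by
  rintro p ⟨⟨h1, h2, h3, h4⟩, hp⟩
  have hβ : β₁ ≤ β₂ := by linarith
  have hU : IsOpen (Rec 0 1 β₁ β₂ ×ˢ D) := (isOpen_Rec _ _ _ _).prod hD
  have hmem : p ∈ Rec 0 1 β₁ β₂ ×ˢ D := ⟨⟨h1, h2, h3, h4⟩, hp⟩
  have e1 := vI_an hf (c := 0) ⟨le_rfl, zero_le_one⟩ hβ hU (fun q hq => hq.2) ?_ p hmem
  · have e2 := hT_int_an hf (a := 0) (b := 1) le_rfl zero_le_one le_rfl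
      (fun c => ((1 - c : ℝ) : ℂ)) (by fun_prop) hU hβ (fun q hq => hq.2)
      (fun q hq => ⟨hq.1.2.2.1, hq.1.2.2.2⟩) p hmem
    exact e1.add e2
  · intro q hq
    apply sin_ne
    right
    constructor <;> linarith [hq.1.1, hq.1.2.1]

theorem uB_an (hD : IsOpen D) : AnalyticOnNhd ℂ (uB f β₁ β₂) (Rec (1 / 2) (3 / 2) β₁ β₂ ×ˢ D) := by
  rintro p ⟨⟨h1, h2, h3, h4⟩, hp⟩
  have hβ : β₁ ≤ β₂ := by linarith
  have hU : IsOpen (Rec (1 / 2) (3 / 2) β₁ β₂ ×ˢ D) := (isOpen_Rec _ _ _ _).prod hD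
  have hmem : p ∈ Rec (1 / 2) (3 / 2) β₁ β₂ ×ˢ D := ⟨⟨h1, h2, h3, h4⟩, hp⟩
  have e1 := vI_an hf (c := 1 / 2) ⟨by norm_num, by norm_num⟩ hβ hU (fun q hq => hq.2) ?_ p hmem
  · have e2 := hT_int_an hf (a := 0) (b := 1 / 2) le_rfl (by norm_num) (by norm_num)
      (fun c => ((-c : ℝ) : ℂ)) (by fun_prop) hU hβ (fun q hq => hq.2)
      (fun q hq => ⟨hq.1.2.2.1, hq.1.2.2.2⟩) p hmem
    have e3 := hT_int_an hf (a := 1 / 2) (b := 1) (by norm_num) (by norm_num) le_rfl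
      (fun c => ((1 - c : ℝ) : ℂ)) (by fun_prop) hU hβ (fun q hq => hq.2)
      (fun q hq => ⟨hq.1.2.2.1, hq.1.2.2.2⟩) p hmem
    exact (e1.add e2).add e3
  · intro q hq
    apply sin_ne
    right
    constructor <;> linarith [hq.1.1, hq.1.2.1]

theorem uS_an (hD : IsOpen D) : AnalyticOnNhd ℂ (uS f β₁ β₂) (Rec 0 2 β₁ β₂ ×ˢ D) := by
  rintro p ⟨⟨h1, h2, h3, h4⟩, hp⟩
  have hre : Continuous fun q : ℂ × ℂ => q.1.re := continuous_re.comp continuous_fst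
  rcases lt_trichotomy p.1.re 1 with h | h | h
  · refine (uA_an hf hD p ⟨⟨h1, h, h3, h4⟩, hp⟩).congr ?_
    filter_upwards [(isOpen_lt hre continuous_const).mem_nhds h] with q hq
    have hq' : q.1.re < 1 := hq
    unfold uS
    rw [if_pos hq']
  · refine (uB_an hf hD p ⟨⟨by linarith, by linarith, h3, h4⟩, hp⟩).congr ?_
    have hU : IsOpen (Rec (1 / 2) (3 / 2) β₁ β₂ ×ˢ D) := (isOpen_Rec _ _ _ _).prod hD
    filter_upwards [hU.mem_nhds (show p ∈ Rec (1 / 2) (3 / 2) β₁ β₂ ×ˢ D from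
      ⟨⟨by linarith, by linarith, h3, h4⟩, hp⟩)] with q hq
    obtain ⟨⟨q1, q2, q3, q4⟩, q5⟩ := hq
    unfold uS
    rcases lt_trichotomy q.1.re 1 with hq | hq | hq
    · rw [if_pos hq, uA_eq_uB hf q5 q3 q4 q1 hq]
    · rw [if_neg (by linarith), if_pos hq]
    · rw [if_neg (by linarith), if_neg (by linarith)]
      have e1 : ((q.1 - 1, q.2) : ℂ × ℂ).1.re = q.1.re - 1 := by simp
      have e2 : ((q.1 - 1, q.2) : ℂ × ℂ).1.im = q.1.im := by simp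
      have e3 := uB_per f β₁ β₂ (q.1 - 1) q.2
      rw [sub_add_cancel] at e3
      rw [uA_add hf (p := (q.1 - 1, q.2)) q5 (by rw [e2]; exact q3) (by rw [e2]; exact q4)
        (by rw [e1]; linarith) (by rw [e1]; linarith), ← e3]
  · have hm : ((p.1 - 1, p.2) : ℂ × ℂ) ∈ Rec 0 1 β₁ β₂ ×ˢ D := by
      refine ⟨⟨?_, ?_, ?_, ?_⟩, hp⟩
      · simp
        linarith
      · simp
        linarith
      · simpa using h3
      · simpa using h4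
    have hm2 : ((p.1 - 1, p.2) : ℂ × ℂ) ∈ Rc β₁ β₂ ×ˢ D :=
      ⟨⟨hm.1.1.le, hm.1.2.1.le, hm.1.2.2.1.le, hm.1.2.2.2.le⟩, hm.2⟩
    have e0 : AnalyticAt ℂ (fun q : ℂ × ℂ => ((q.1 - 1, q.2) : ℂ × ℂ)) p :=
      (analyticAt_fst.sub analyticAt_const).prod analyticAt_snd
    have e1 : AnalyticAt ℂ (fun q : ℂ × ℂ => uA f β₁ β₂ (q.1 - 1, q.2)) p :=
      AnalyticAt.comp (g := uA f β₁ β₂) (f := fun q : ℂ × ℂ => ((q.1 - 1, q.2) : ℂ × ℂ))
        (uA_an hf hD _ hm) e0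
    have e2 : AnalyticAt ℂ (fun q : ℂ × ℂ => f (q.1 - 1, q.2)) p :=
      AnalyticAt.comp (g := f) (f := fun q : ℂ × ℂ => ((q.1 - 1, q.2) : ℂ × ℂ)) (hf _ hm2) e0
    refine (e1.add e2).congr ?_
    filter_upwards [(isOpen_lt continuous_const hre).mem_nhds h] with q hq
    have hq' : 1 < q.1.re := hq
    unfold uS
    rw [if_neg (by linarith), if_neg (by linarith)]
    rfl

/-- the bound on the first cell -/
theorem uA_le {C : ℝ} (hC0 : 0 ≤ C) (hC : ∀ w : ℂ, w.im ≠ 0 → Real.sin (Real.pi * w.re) ≠ 0 →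
      ‖Ek w‖ ≤ 2 + C * ((Real.sqrt |w.im|)⁻¹ * (Real.sqrt |Real.sin (Real.pi * w.re)|)⁻¹))
    (hM0 : 0 ≤ M) (hM : ∀ p ∈ Rc β₁ β₂ ×ˢ D, ‖f p‖ ≤ M) {p : ℂ × ℂ}
    (hp : p ∈ Rec 0 1 β₁ β₂ ×ˢ D) :
    ‖uA f β₁ β₂ p‖ ≤ M * (2 * (β₂ - β₁) + C * (4 * Real.sqrt (β₂ - β₁)) * Jc) + M := by
  obtain ⟨⟨h1, h2, h3, h4⟩, hpD⟩ := hp
  have hβ : β₁ ≤ β₂ := by linarith
  have hc := hT_ii hf hpD hβ h3 h4
  have hG : ContinuousOn (fun c => ∫ t in (0:ℝ)..c, hT f β₁ β₂ p t) (Icc 0 1) := by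
    have h3 := intervalIntegral.continuousOn_primitive_interval (μ := volume) (a := 0) (b := 1)
      (f := hT f β₁ β₂ p) (by
        rw [uIcc_of_le zero_le_one]
        exact hc.integrableOn_Icc)
    rwa [uIcc_of_le zero_le_one] at h3
  have iG : IntervalIntegrable (fun c => ∫ t in (0:ℝ)..c, hT f β₁ β₂ p t) volume 0 1 := by
    refine ContinuousOn.intervalIntegrable ?_
    rwa [uIcc_of_le zero_le_one]
  have e1 : uA f β₁ β₂ p = ∫ c in (0:ℝ)..1,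
      (vI f β₁ β₂ 0 p + ∫ t in (0:ℝ)..c, hT f β₁ β₂ p t) := by
    rw [intervalIntegral.integral_add intervalIntegrable_const iG,
      intervalIntegral.integral_const, ibp hf hpD h3 h4]
    simp [uA]
  obtain ⟨hs1, hs2⟩ := sin_int_shift p.1.re
  obtain ⟨bd, hbd⟩ : ∃ bd : ℝ → ℝ, bd = fun c => M * (2 * (β₂ - β₁) +
      C * (4 * Real.sqrt (β₂ - β₁)) * (Real.sqrt |Real.sin (Real.pi * (c - p.1.re))|)⁻¹) + M :=
    ⟨_, rfl⟩
  have ibd : IntervalIntegrable bd volume 0 1 := by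
    rw [hbd]
    exact ((intervalIntegrable_const.add (hs1.const_mul _)).const_mul M).add
      intervalIntegrable_const
  have hae : ∀ᵐ c : ℝ, c ≠ p.1.re ∧ c ≠ 1 := by
    have e2 : ({p.1.re} : Set ℝ)ᶜ ∈ ae (volume : Measure ℝ) :=
      compl_mem_ae_iff.2 (measure_singleton _)
    have e3 : ({1} : Set ℝ)ᶜ ∈ ae (volume : Measure ℝ) :=
      compl_mem_ae_iff.2 (measure_singleton _)
    filter_upwards [e2, e3] with y hy hy'
    exact ⟨hy, hy'⟩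
  have hfp : ‖f p‖ ≤ M := hM p ⟨⟨h1.le, h2.le, h3.le, h4.le⟩, hpD⟩
  rw [e1]
  refine (intervalIntegral.norm_integral_le_of_norm_le zero_le_one ?_ ibd).trans ?_
  · filter_upwards [hae] with c hcc hcI
    have hc01 : c ∈ Icc (0:ℝ) 1 := ⟨hcI.1.le, hcI.2⟩
    have hc1 : c < 1 := lt_of_le_of_ne hcI.2 hcc.2
    have hsin : Real.sin (Real.pi * (c - p.1.re)) ≠ 0 := by
      apply sin_ne
      rcases lt_or_gt_of_ne hcc.1 with h | h
      · right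
        constructor <;> linarith [hcI.1]
      · left
        constructor <;> linarith
    have hv := vI_le (f := f) hC0 hC hM0 hM hpD h3 h4 hc01 hsin
    rw [hbd]
    rcases lt_or_gt_of_ne hcc.1 with h | h
    · have e2 := vI_none hf hpD (a := 0) (b := c) le_rfl hc01.1 hc01.2 h3 h4 h (by linarith)
      rw [← e2]
      exact hv.trans (le_add_of_nonneg_right hM0)
    · have e2 := vI_one hf hpD (a := 0) (b := c) le_rfl hc01.1 hc01.2 h3 h4 h1 h (by linarith)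
        (by linarith)
      have e3 : vI f β₁ β₂ 0 p + (∫ t in (0:ℝ)..c, hT f β₁ β₂ p t) = vI f β₁ β₂ c p - f p := by
        rw [e2]
        ring
      rw [e3]
      refine (norm_sub_le _ _).trans ?_
      exact add_le_add hv hfp
  · rw [hbd, intervalIntegral.integral_add
      ((intervalIntegrable_const.add (hs1.const_mul _)).const_mul M) intervalIntegrable_const,
      intervalIntegral.integral_const_mul,
      intervalIntegral.integral_add intervalIntegrable_const (hs1.const_mul _),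
      intervalIntegral.integral_const, intervalIntegral.integral_const,
      intervalIntegral.integral_const_mul, hs2]
    simp

end

/-- **The difference equation on a cell.** -/
theorem solve_cell : ∃ C₀ : ℝ, 1 ≤ C₀ ∧ ∀ (f : ℂ × ℂ → ℂ) (β₁ β₂ M : ℝ) (D : Set ℂ), β₁ < β₂ →
    IsOpen D → AnalyticOnNhd ℂ f (Rc β₁ β₂ ×ˢ D) → 0 ≤ M →
    (∀ p ∈ Rc β₁ β₂ ×ˢ D, ‖f p‖ ≤ M) →
    ∃ u : ℂ × ℂ → ℂ, AnalyticOnNhd ℂ u (Rec 0 2 β₁ β₂ ×ˢ D) ∧
      (∀ p ∈ Rec 0 1 β₁ β₂ ×ˢ D, u (p.1 + 1, p.2) = u p + f p) ∧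
      ∀ p ∈ Rec 0 2 β₁ β₂ ×ˢ D, ‖u p‖ ≤ C₀ * ((β₂ - β₁) + 1) * M := by
  obtain ⟨C, hC0, hC⟩ := exists_Ek_bd
  have hJ := Jc_nonneg
  refine ⟨4 + 4 * C * Jc, by nlinarith [mul_nonneg hC0.le hJ], ?_⟩
  intro f β₁ β₂ M D hβ hD hf hM0 hM
  have hH : 0 < β₂ - β₁ := by linarith
  have hsq : Real.sqrt (β₂ - β₁) ≤ (β₂ - β₁) + 1 := by
    rw [Real.sqrt_le_left (by linarith)]
    nlinarith
  have hA : ∀ p ∈ Rec 0 1 β₁ β₂ ×ˢ D,
      ‖uA f β₁ β₂ p‖ ≤ (3 + 4 * C * Jc) * ((β₂ - β₁) + 1) * M := by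
    intro p hp
    refine (uA_le hf hC0.le hC hM0 hM hp).trans ?_
    have e1 : C * (4 * Real.sqrt (β₂ - β₁)) * Jc ≤ 4 * C * Jc * ((β₂ - β₁) + 1) := by
      have e2 : 0 ≤ 4 * C * Jc := by positivity
      have := mul_le_mul_of_nonneg_left hsq e2
      linarith
    have e3 : 2 * (β₂ - β₁) + C * (4 * Real.sqrt (β₂ - β₁)) * Jc + 1 ≤
        (3 + 4 * C * Jc) * ((β₂ - β₁) + 1) := by nlinarith
    have e4 := mul_le_mul_of_nonneg_left e3 hM0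
    linarith
  have han := uS_an hf hD
  refine ⟨uS f β₁ β₂, han, ?_, ?_⟩
  · rintro p ⟨⟨h1, h2, h3, h4⟩, hp⟩
    have e1 : ((p.1 + 1, p.2) : ℂ × ℂ).1.re = p.1.re + 1 := by simp
    unfold uS
    rw [if_pos h2, e1, if_neg (by linarith), if_neg (by linarith), add_sub_cancel_right]
  · -- the bound off the line `Re = 1`
    have hoff : ∀ p ∈ Rec 0 2 β₁ β₂ ×ˢ D, p.1.re ≠ 1 →
        ‖uS f β₁ β₂ p‖ ≤ (4 + 4 * C * Jc) * ((β₂ - β₁) + 1) * M := by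
      rintro p ⟨⟨h1, h2, h3, h4⟩, hp⟩ hne
      have hHM : 0 ≤ (β₂ - β₁) * M := by positivity
      rcases lt_or_gt_of_ne hne with h | h
      · unfold uS
        rw [if_pos h]
        refine (hA p ⟨⟨h1, h, h3, h4⟩, hp⟩).trans ?_
        nlinarith
      · have hm : ((p.1 - 1, p.2) : ℂ × ℂ) ∈ Rec 0 1 β₁ β₂ ×ˢ D := by
          refine ⟨⟨?_, ?_, ?_, ?_⟩, hp⟩
          · simp
            linarith
          · simp
            linarith
          · simpa using h3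
          · simpa using h4
        unfold uS
        rw [if_neg (by linarith), if_neg (by linarith)]
        refine (norm_add_le _ _).trans ?_
        have e1 := hA _ hm
        have e2 := hM (p.1 - 1, p.2) ⟨⟨hm.1.1.le, hm.1.2.1.le, hm.1.2.2.1.le, hm.1.2.2.2.le⟩, hm.2⟩
        nlinarith
    intro p hp
    by_cases hne : p.1.re = 1
    · -- limit along `p.1 + t`
      have hc : ContinuousAt (uS f β₁ β₂) p := (han p hp).continuousAt
      have h5 : Tendsto (fun t : ℝ => ((p.1 + t, p.2) : ℂ × ℂ)) (𝓝[>] 0) (𝓝 p) := by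
        have h6 : Continuous (fun t : ℝ => ((p.1 + t, p.2) : ℂ × ℂ)) := by fun_prop
        have h7 := h6.tendsto 0
        simp only [ofReal_zero, add_zero] at h7
        exact h7.mono_left nhdsWithin_le_nhds
      have h8 : Tendsto (fun t : ℝ => ‖uS f β₁ β₂ (p.1 + t, p.2)‖) (𝓝[>] 0)
          (𝓝 ‖uS f β₁ β₂ p‖) := (hc.tendsto.comp h5).norm
      refine le_of_tendsto h8 ?_
      have h9 : ∀ᶠ t : ℝ in 𝓝[>] (0:ℝ), t < 1 := nhdsWithin_le_nhds (gt_mem_nhds one_pos)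
      filter_upwards [h9, self_mem_nhdsWithin] with t ht1 ht0
      have ht0' : 0 < t := ht0
      obtain ⟨⟨q1, q2, q3, q4⟩, q5⟩ := hp
      apply hoff
      · refine ⟨⟨?_, ?_, ?_, ?_⟩, q5⟩
        · simp
          linarith
        · simp
          linarith
        · simpa using q3
        · simpa using q4
      · simp
        linarith
    · exact hoff p hp hne

end Pool.Agent.MP_ae5b4e_an_BX
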