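import Pool.Agent.Lib.MP_ae5b4e_an_BX.Cell

/-!
# MP_ae5b4e_an, project BX: the difference equation on a wider box, vector valued
-/

noncomputable section

namespace Pool.Agent.MP_ae5b4e_an_BX

open Complex Set Filter Topology Metric

/-- the scalar equation with margins on the left and on the right -/
theorem solve_wide : ∃ C₀ : ℝ, 1 ≤ C₀ ∧ ∀ (f : ℂ × ℂ → ℂ) (β₁ β₂ β₁' β₂' M : ℝ) (D : Set ℂ),
    β₁ < β₂ → β₁' < β₁ → β₂ < β₂' → IsOpen D →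
    AnalyticOnNhd ℂ f (Rec (-(1 / 2)) (3 / 2) β₁' β₂' ×ˢ D) → 0 ≤ M →
    (∀ p ∈ Rec (-(1 / 2)) (3 / 2) β₁' β₂' ×ˢ D, ‖f p‖ ≤ M) →
    ∃ u : ℂ × ℂ → ℂ, AnalyticOnNhd ℂ u (Rec (-(1 / 2)) (5 / 2) β₁ β₂ ×ˢ D) ∧
      (∀ p ∈ Rec (-(1 / 2)) (3 / 2) β₁ β₂ ×ˢ D, u (p.1 + 1, p.2) = u p + f p) ∧
      ∀ p ∈ Rec (-(1 / 2)) (5 / 2) β₁ β₂ ×ˢ D, ‖u p‖ ≤ C₀ * ((β₂ - β₁) + 1) * M := by
  obtain ⟨C₀, hC₀, H⟩ := solve_cell
  refine ⟨C₀ + 1, by linarith, ?_⟩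
  intro f β₁ β₂ β₁' β₂' M D hβ hβ1 hβ2 hD hf hM0 hM
  have hsub : Rc β₁ β₂ ⊆ Rec (-(1 / 2)) (3 / 2) β₁' β₂' := by
    rintro σ ⟨h1, h2, h3, h4⟩
    exact ⟨by linarith, by linarith, by linarith, by linarith⟩
  obtain ⟨u, hu, heq, hbd⟩ := H f β₁ β₂ M D hβ hD (hf.mono (prod_mono_left hsub)) hM0
    fun p hp => hM p ⟨hsub hp.1, hp.2⟩
  have hre : Continuous fun q : ℂ × ℂ => q.1.re := continuous_re.comp continuous_fst
  have eR : ∀ p : ℂ × ℂ, ((p.1 + 1, p.2) : ℂ × ℂ).1.re = p.1.re + 1 := fun p => by simp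
  have eI : ∀ p : ℂ × ℂ, ((p.1 + 1, p.2) : ℂ × ℂ).1.im = p.1.im := fun p => by simp
  have eR' : ∀ p : ℂ × ℂ, ((p.1 - 1, p.2) : ℂ × ℂ).1.re = p.1.re - 1 := fun p => by simp
  have eI' : ∀ p : ℂ × ℂ, ((p.1 - 1, p.2) : ℂ × ℂ).1.im = p.1.im := fun p => by simp
  -- the extended function
  obtain ⟨v, hv⟩ : ∃ v : ℂ × ℂ → ℂ, v = fun p => if p.1.re ≤ 0 then u (p.1 + 1, p.2) - f p
      else if p.1.re < 2 then u p else u (p.1 - 1, p.2) + f (p.1 - 1, p.2) := ⟨_, rfl⟩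
  have v0 : ∀ p : ℂ × ℂ, p.1.re ≤ 0 → v p = u (p.1 + 1, p.2) - f p := by
    intro p hp
    rw [hv]
    simp only
    rw [if_pos hp]
  have v1 : ∀ p : ℂ × ℂ, 0 < p.1.re → p.1.re < 2 → v p = u p := by
    intro p hp hp2
    rw [hv]
    simp only
    rw [if_neg (not_le.2 hp), if_pos hp2]
  have v2 : ∀ p : ℂ × ℂ, 2 ≤ p.1.re → v p = u (p.1 - 1, p.2) + f (p.1 - 1, p.2) := by
    intro p hp
    rw [hv]
    simp only
    rw [if_neg (by linarith), if_neg (not_lt.2 hp)]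
  have v0' : ∀ p ∈ Rec (-(1 / 2)) 1 β₁ β₂ ×ˢ D, v p = u (p.1 + 1, p.2) - f p := by
    rintro p ⟨⟨h1, h2, h3, h4⟩, h5⟩
    rcases le_or_gt p.1.re 0 with h | h
    · exact v0 p h
    · rw [v1 p h (by linarith), heq p ⟨⟨h, h2, h3, h4⟩, h5⟩]
      ring
  have v2' : ∀ p ∈ Rec 1 (5 / 2) β₁ β₂ ×ˢ D, v p = u (p.1 - 1, p.2) + f (p.1 - 1, p.2) := by
    rintro p ⟨⟨h1, h2, h3, h4⟩, h5⟩
    rcases lt_or_ge p.1.re 2 with h | h
    · have := heq (p.1 - 1, p.2) ⟨⟨by rw [eR']; linarith, by rw [eR']; linarith,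
        by rw [eI']; exact h3, by rw [eI']; exact h4⟩, h5⟩
      simp only [sub_add_cancel] at this
      rw [v1 p (by linarith) h, ← this]
    · exact v2 p h
  have hsh : ∀ p : ℂ × ℂ, AnalyticAt ℂ (fun q : ℂ × ℂ => ((q.1 + 1, q.2) : ℂ × ℂ)) p := fun p =>
    (analyticAt_fst.add analyticAt_const).prod analyticAt_snd
  have hsh' : ∀ p : ℂ × ℂ, AnalyticAt ℂ (fun q : ℂ × ℂ => ((q.1 - 1, q.2) : ℂ × ℂ)) p := fun p =>
    (analyticAt_fst.sub analyticAt_const).prod analyticAt_snd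
  have hO : ∀ a b : ℝ, IsOpen (Rec a b β₁ β₂ ×ˢ D) := fun a b => (isOpen_Rec _ _ _ _).prod hD
  refine ⟨v, ?_, ?_, ?_⟩
  · rintro p ⟨⟨h1, h2, h3, h4⟩, h5⟩
    rcases lt_or_ge p.1.re 1 with h | h
    · have hm : p ∈ Rec (-(1 / 2)) 1 β₁ β₂ ×ˢ D := ⟨⟨h1, h, h3, h4⟩, h5⟩
      have e1 : AnalyticAt ℂ (fun q : ℂ × ℂ => u (q.1 + 1, q.2)) p :=
        AnalyticAt.comp (g := u) (f := fun q : ℂ × ℂ => ((q.1 + 1, q.2) : ℂ × ℂ))
          (hu _ ⟨⟨by rw [eR]; linarith, by rw [eR]; linarith, by rw [eI]; exact h3,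
            by rw [eI]; exact h4⟩, h5⟩) (hsh p)
      have e2 : AnalyticAt ℂ f p := hf p ⟨⟨h1, by linarith, by linarith, by linarith⟩, h5⟩
      refine (e1.sub e2).congr ?_
      filter_upwards [(hO _ _).mem_nhds hm] with q hq
      exact (v0' q hq).symm
    · rcases lt_or_ge p.1.re 2 with h' | h'
      · refine (hu p ⟨⟨by linarith, h', h3, h4⟩, h5⟩).congr ?_
        have hm : p ∈ Rec 0 2 β₁ β₂ ×ˢ D := ⟨⟨by linarith, h', h3, h4⟩, h5⟩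
        filter_upwards [(hO _ _).mem_nhds hm] with q hq
        exact (v1 q hq.1.1 hq.1.2.1).symm
      · have hm : p ∈ Rec 1 (5 / 2) β₁ β₂ ×ˢ D := ⟨⟨by linarith, h2, h3, h4⟩, h5⟩
        have e1 : AnalyticAt ℂ (fun q : ℂ × ℂ => u (q.1 - 1, q.2)) p :=
          AnalyticAt.comp (g := u) (f := fun q : ℂ × ℂ => ((q.1 - 1, q.2) : ℂ × ℂ))
            (hu _ ⟨⟨by rw [eR']; linarith, by rw [eR']; linarith, by rw [eI']; exact h3,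
              by rw [eI']; exact h4⟩, h5⟩) (hsh' p)
        have e2 : AnalyticAt ℂ (fun q : ℂ × ℂ => f (q.1 - 1, q.2)) p :=
          AnalyticAt.comp (g := f) (f := fun q : ℂ × ℂ => ((q.1 - 1, q.2) : ℂ × ℂ))
            (hf _ ⟨⟨by rw [eR']; linarith, by rw [eR']; linarith, by rw [eI']; linarith,
              by rw [eI']; linarith⟩, h5⟩) (hsh' p)
        refine (e1.add e2).congr ?_
        filter_upwards [(hO _ _).mem_nhds hm] with q hq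
        exact (v2' q hq).symm
  · rintro p ⟨⟨h1, h2, h3, h4⟩, h5⟩
    rcases lt_or_ge p.1.re 1 with h | h
    · rw [v0' p ⟨⟨h1, h, h3, h4⟩, h5⟩, v1 (p.1 + 1, p.2) (by rw [eR]; linarith)
        (by rw [eR]; linarith)]
      ring
    · rw [v2' (p.1 + 1, p.2) ⟨⟨?_, by rw [eR]; linarith, by rw [eI]; exact h3,
        by rw [eI]; exact h4⟩, h5⟩]
      · simp only [add_sub_cancel_right]
        rw [v1 p (by linarith) (by linarith)]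
      · rw [eR]
        linarith
  · rintro p ⟨⟨h1, h2, h3, h4⟩, h5⟩
    have hHM : 0 ≤ (β₂ - β₁) * M := mul_nonneg (by linarith) hM0
    rcases le_or_gt p.1.re 0 with h | h
    · rw [v0 p h]
      refine (norm_sub_le _ _).trans ?_
      have e1 := hbd (p.1 + 1, p.2) ⟨⟨by rw [eR]; linarith, by rw [eR]; linarith,
        by rw [eI]; exact h3, by rw [eI]; exact h4⟩, h5⟩
      have e2 := hM p ⟨⟨h1, by linarith, by linarith, by linarith⟩, h5⟩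
      nlinarith
    · rcases lt_or_ge p.1.re 2 with h' | h'
      · rw [v1 p h h']
        have e1 := hbd p ⟨⟨h, h', h3, h4⟩, h5⟩
        nlinarith
      · rw [v2 p h']
        refine (norm_add_le _ _).trans ?_
        have e1 := hbd (p.1 - 1, p.2) ⟨⟨by rw [eR']; linarith, by rw [eR']; linarith,
          by rw [eI']; exact h3, by rw [eI']; exact h4⟩, h5⟩
        have e2 := hM (p.1 - 1, p.2) ⟨⟨by rw [eR']; linarith, by rw [eR']; linarith,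
          by rw [eI']; linarith, by rw [eI']; linarith⟩, h5⟩
        nlinarith

/-- the vector valued equation -/
theorem solve_vec : ∃ C₀ : ℝ, 1 ≤ C₀ ∧ ∀ (f : ℂ × ℂ → ℂ × ℂ) (β₁ β₂ β₁' β₂' M : ℝ) (D : Set ℂ),
    β₁ < β₂ → β₁' < β₁ → β₂ < β₂' → IsOpen D →
    AnalyticOnNhd ℂ f (Rec (-(1 / 2)) (3 / 2) β₁' β₂' ×ˢ D) → 0 ≤ M →
    (∀ p ∈ Rec (-(1 / 2)) (3 / 2) β₁' β₂' ×ˢ D, ‖f p‖ ≤ M) →
    ∃ u : ℂ × ℂ → ℂ × ℂ, AnalyticOnNhd ℂ u (Rec (-(1 / 2)) (5 / 2) β₁ β₂ ×ˢ D) ∧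
      (∀ p ∈ Rec (-(1 / 2)) (3 / 2) β₁ β₂ ×ˢ D, u (p.1 + 1, p.2) = u p + f p) ∧
      ∀ p ∈ Rec (-(1 / 2)) (5 / 2) β₁ β₂ ×ˢ D, ‖u p‖ ≤ C₀ * ((β₂ - β₁) + 1) * M := by
  obtain ⟨C₀, hC₀, H⟩ := solve_wide
  refine ⟨C₀, hC₀, ?_⟩
  intro f β₁ β₂ β₁' β₂' M D hβ hβ1 hβ2 hD hf hM0 hM
  obtain ⟨u1, a1, b1, c1⟩ := H (fun p => (f p).1) β₁ β₂ β₁' β₂' M D hβ hβ1 hβ2 hD
    (fun p hp => AnalyticAt.comp (g := Prod.fst) analyticAt_fst (hf p hp)) hM0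
    (fun p hp => (norm_fst_le (f p)).trans (hM p hp))
  obtain ⟨u2, a2, b2, c2⟩ := H (fun p => (f p).2) β₁ β₂ β₁' β₂' M D hβ hβ1 hβ2 hD
    (fun p hp => AnalyticAt.comp (g := Prod.snd) analyticAt_snd (hf p hp)) hM0
    (fun p hp => (norm_snd_le (f p)).trans (hM p hp))
  refine ⟨fun p => (u1 p, u2 p), fun p hp => (a1 p hp).prod (a2 p hp), ?_, ?_⟩
  · intro p hp
    ext
    · exact b1 p hp
    · exact b2 p hp
  · intro p hp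
    rw [Prod.norm_def]
    exact max_le (c1 p hp) (c2 p hp)

end Pool.Agent.MP_ae5b4e_an_BX
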