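import Pool.Agent.Lib.MP_ae5b4e_an_BX.Lim
import Pool.Agent.Lib.MP_ae5b4e_an_M.Mont

/-!
# MP_ae5b4e_an, project BX: residual of the flow, extension of the exact solution
-/

noncomputable section

namespace Pool.Agent.MP_ae5b4e_an_BX

open Complex Set Filter Topology Metric

/-- bounded analytic maps are Lipschitz on a smaller ball -/
theorem lip_vec {f : ℂ × ℂ → ℂ × ℂ} {p : ℂ × ℂ} {δ B : ℝ} (hδ : 0 < δ)
    (hf : AnalyticOnNhd ℂ f (ball p δ)) (hB : ∀ q ∈ ball p δ, ‖f q‖ ≤ B) {x y : ℂ × ℂ}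
    (hx : x ∈ ball p (δ / 4)) (hy : y ∈ ball p (δ / 4)) :
    ‖f y - f x‖ ≤ 4 * B / δ * ‖y - x‖ := by
  rw [Prod.norm_def (f y - f x)]
  refine max_le ?_ ?_
  · exact Pool.Agent.MP_ae5b4e_an_M.lip_of_bdd (f := fun q => (f q).1) hδ
      (fun q hq => AnalyticAt.comp (g := Prod.fst) analyticAt_fst (hf q hq))
      (fun q hq => (norm_fst_le _).trans (hB q hq)) hx hy
  · exact Pool.Agent.MP_ae5b4e_an_M.lip_of_bdd (f := fun q => (f q).2) hδ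
      (fun q hq => AnalyticAt.comp (g := Prod.snd) analyticAt_snd (hf q hq))
      (fun q hq => (norm_snd_le _).trans (hB q hq)) hx hy

/-- the residual of the flow -/
theorem residual {K : Set (ℂ × ℂ)} {g g' : ℂ × ℂ → ℂ × ℂ} {r Λ G η ε : ℝ}
    (hL : ∀ w ∈ K, ∀ x ∈ ball w r, ∀ y ∈ ball w r, ‖g y - g x‖ ≤ Λ * ‖y - x‖) (hΛ : 0 ≤ Λ)
    (hG : ∀ w ∈ K, ‖g w‖ ≤ G) (hG0 : 0 ≤ G) (hη : ∀ w ∈ K, ‖g' w - g w‖ ≤ η) (hr : 0 < r)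
    (hε : 0 < ε) (hεG : G * ε < r)
    {z : ℂ × ℂ → ℂ × ℂ} {p : ℂ × ℂ}
    (hz : ∀ t : ℝ, 0 ≤ t → t ≤ ε → z (p.1 + t, p.2) ∈ K)
    (hd : ∀ t : ℝ, 0 ≤ t → t ≤ ε →
      HasDerivAt (fun θ => z (θ, p.2)) (g (z (p.1 + t, p.2))) (p.1 + t)) :
    ‖z p + (ε : ℂ) • g' (z p) - z (p.1 + ε, p.2)‖ ≤ ε * (Λ * G * ε + η) := by
  have hK0 : z p ∈ K := by
    have := hz 0 le_rfl hε.le
    simpa using this
  have hD : ∀ t ∈ Icc (0 : ℝ) ε, HasDerivAt (fun s : ℝ => z (p.1 + s, p.2))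
      (g (z (p.1 + t, p.2))) t := by
    intro t ht
    have h1 : HasDerivAt (fun s : ℝ => p.1 + (s : ℂ)) 1 t := by
      simpa using (hasDerivAt_id (t : ℂ)).comp_ofReal.const_add p.1
    have h2 := HasDerivAt.scomp t (hd t ht.1 ht.2) h1
    rw [one_smul] at h2
    exact h2
  have h1 : ∀ t ∈ Icc (0 : ℝ) ε, ‖z (p.1 + t, p.2) - z p‖ ≤ G * ε := by
    intro t ht
    have := norm_image_sub_le_of_norm_deriv_le_segment' (f := fun s : ℝ => z (p.1 + s, p.2))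
      (f' := fun t => g (z (p.1 + t, p.2))) (C := G) (a := 0) (b := ε)
      (fun x hx => (hD x hx).hasDerivWithinAt) (fun x hx => hG _ (hz x hx.1 hx.2.le)) t ht
    simp only [ofReal_zero, add_zero, Prod.mk.eta, sub_zero] at this
    exact this.trans (mul_le_mul_of_nonneg_left ht.2 hG0)
  have h2 : ‖z (p.1 + ε, p.2) - z p - (ε : ℂ) • g (z p)‖ ≤ Λ * (G * ε) * ε := by
    have := norm_image_sub_le_of_norm_deriv_le_segment'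
      (f := fun s : ℝ => z (p.1 + s, p.2) - (s : ℂ) • g (z p))
      (f' := fun t => g (z (p.1 + t, p.2)) - g (z p)) (C := Λ * (G * ε)) (a := 0) (b := ε)
      (fun x hx => ?_) (fun x hx => ?_) ε ⟨hε.le, le_rfl⟩
    · simp only [ofReal_zero, add_zero, Prod.mk.eta, sub_zero, zero_smul] at this
      have e : z (p.1 + ε, p.2) - z p - (ε : ℂ) • g (z p) =
          z (p.1 + ε, p.2) - (ε : ℂ) • g (z p) - z p := by abel
      rw [e]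
      exact this
    · have h3 : HasDerivAt (fun s : ℝ => (s : ℂ) • g (z p)) (g (z p)) x := by
        have := ((hasDerivAt_id (x : ℂ)).comp_ofReal).smul_const (g (z p))
        simpa using this
      exact ((hD x hx).sub h3).hasDerivWithinAt
    · have h4 : z (p.1 + x, p.2) ∈ ball (z p) r := by
        rw [mem_ball, dist_eq_norm]
        exact (h1 x ⟨hx.1, hx.2.le⟩).trans_lt hεG
      refine (hL _ hK0 _ (mem_ball_self hr) _ h4).trans ?_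
      exact mul_le_mul_of_nonneg_left (h1 x ⟨hx.1, hx.2.le⟩) hΛ
  have h3 : ‖(ε : ℂ) • (g' (z p) - g (z p))‖ ≤ ε * η := by
    rw [norm_smul, norm_real, Real.norm_of_nonneg hε.le]
    exact mul_le_mul_of_nonneg_left (hη _ hK0) hε.le
  have e : z p + (ε : ℂ) • g' (z p) - z (p.1 + ε, p.2) =
      (ε : ℂ) • (g' (z p) - g (z p)) - (z (p.1 + ε, p.2) - z p - (ε : ℂ) • g (z p)) := by
    rw [smul_sub]
    abel
  rw [e]
  refine (norm_sub_le _ _).trans ((add_le_add h3 h2).trans (le_of_eq ?_))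
  ring

/-- exact solution on a rectangle, with the equation wherever it makes sense -/
structure Lg (g : ℂ × ℂ → ℂ × ℂ) (D : Set ℂ) (ε b₁ b₂ : ℝ) (z : ℂ × ℂ → ℂ × ℂ) (A₁ c e : ℝ)
    (Z : ℂ × ℂ → ℂ × ℂ) : Prop where
  an : AnalyticOnNhd ℂ Z (Rec A₁ c b₁ b₂ ×ˢ D)
  eq : ∀ p ∈ Rec A₁ (c - ε) b₁ b₂ ×ˢ D, Z (p.1 + ε, p.2) = Z p + (ε : ℂ) • g (Z p)
  near : ∀ p ∈ Rec A₁ c b₁ b₂ ×ˢ D, ‖Z p - z p‖ ≤ e

/-- one extension step to the right -/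
theorem extend_step {M K : Set (ℂ × ℂ)} {g : ℂ × ℂ → ℂ × ℂ} (hg : AnalyticOnNhd ℂ g M)
    {r Λ κ ε : ℝ} (hr : 0 < r) (hrM : ∀ w ∈ K, ball w r ⊆ M)
    (hL : ∀ w ∈ K, ∀ x ∈ ball w r, ∀ y ∈ ball w r, ‖g y - g x‖ ≤ Λ * ‖y - x‖) (hΛ : 0 ≤ Λ)
    (hκ : 0 ≤ κ)
    (hε : 0 < ε) {D : Set ℂ} (hD : IsOpen D) {A₁ c b₁ b₂ e : ℝ} (hc : A₁ + ε < c) (he : e < r)
    (he0 : 0 ≤ e) {z Z : ℂ × ℂ → ℂ × ℂ}
    (hz : ∀ p ∈ Rec A₁ c b₁ b₂ ×ˢ D, z p ∈ K)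
    (hres : ∀ p ∈ Rec A₁ c b₁ b₂ ×ˢ D, ‖z p + (ε : ℂ) • g (z p) - z (p.1 + ε, p.2)‖ ≤ ε * κ)
    (hZ : Lg g D ε b₁ b₂ z A₁ c e Z) :
    ∃ Z', Lg g D ε b₁ b₂ z A₁ (c + ε) ((1 + ε * Λ) * e + ε * κ) Z' := by
  have hO : ∀ a b : ℝ, IsOpen (Rec a b b₁ b₂ ×ˢ D) := fun a b => (isOpen_Rec _ _ _ _).prod hD
  have eR : ∀ p : ℂ × ℂ, ((p.1 + ε, p.2) : ℂ × ℂ).1.re = p.1.re + ε := fun p => by simp
  have eI : ∀ p : ℂ × ℂ, ((p.1 + ε, p.2) : ℂ × ℂ).1.im = p.1.im := fun p => by simp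
  have eR' : ∀ p : ℂ × ℂ, ((p.1 - ε, p.2) : ℂ × ℂ).1.re = p.1.re - ε := fun p => by simp
  have eI' : ∀ p : ℂ × ℂ, ((p.1 - ε, p.2) : ℂ × ℂ).1.im = p.1.im := fun p => by simp
  obtain ⟨F, hF⟩ : ∃ F : ℂ × ℂ → ℂ × ℂ, F = fun p =>
      Z (p.1 - ε, p.2) + (ε : ℂ) • g (Z (p.1 - ε, p.2)) := ⟨_, rfl⟩
  obtain ⟨Z', hZ'⟩ : ∃ Z' : ℂ × ℂ → ℂ × ℂ, Z' = fun p => if p.1.re < c then Z p else F p := ⟨_, rfl⟩
  have z1 : ∀ p : ℂ × ℂ, p.1.re < c → Z' p = Z p := by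
    intro p hp
    rw [hZ']
    simp only
    rw [if_pos hp]
  have z2 : ∀ p ∈ Rec (A₁ + ε) (c + ε) b₁ b₂ ×ˢ D, Z' p = F p := by
    rintro p ⟨⟨h1, h2, h3, h4⟩, h5⟩
    rcases lt_or_ge p.1.re c with h | h
    · have := hZ.eq (p.1 - ε, p.2) ⟨⟨by rw [eR']; linarith, by rw [eR']; linarith,
        by rw [eI']; exact h3, by rw [eI']; exact h4⟩, h5⟩
      simp only [sub_add_cancel] at this
      rw [z1 p h, hF]
      exact this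
    · rw [hZ']
      simp only
      rw [if_neg (not_lt.2 h)]
  have hball : ∀ p ∈ Rec A₁ c b₁ b₂ ×ˢ D, Z p ∈ ball (z p) r := by
    intro p hp
    rw [mem_ball, dist_eq_norm]
    exact (hZ.near p hp).trans_lt he
  have hmemF : ∀ p ∈ Rec (A₁ + ε) (c + ε) b₁ b₂ ×ˢ D,
      ((p.1 - ε, p.2) : ℂ × ℂ) ∈ Rec A₁ c b₁ b₂ ×ˢ D := by
    rintro p ⟨⟨h1, h2, h3, h4⟩, h5⟩
    exact ⟨⟨by rw [eR']; linarith, by rw [eR']; linarith, by rw [eI']; exact h3,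
      by rw [eI']; exact h4⟩, h5⟩
  have hFan : AnalyticOnNhd ℂ F (Rec (A₁ + ε) (c + ε) b₁ b₂ ×ˢ D) := by
    intro p hp
    have hm := hmemF p hp
    have hsh : AnalyticAt ℂ (fun q : ℂ × ℂ => ((q.1 - ε, q.2) : ℂ × ℂ)) p :=
      (analyticAt_fst.sub analyticAt_const).prod analyticAt_snd
    have h1 : AnalyticAt ℂ (fun q : ℂ × ℂ => Z (q.1 - ε, q.2)) p :=
      AnalyticAt.comp (g := Z) (f := fun q : ℂ × ℂ => ((q.1 - ε, q.2) : ℂ × ℂ)) (hZ.an _ hm) hsh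
    have h2 : AnalyticAt ℂ g (Z (p.1 - ε, p.2)) := hg _ (hrM _ (hz _ hm) (hball _ hm))
    have h3 : AnalyticAt ℂ (fun q : ℂ × ℂ => g (Z (q.1 - ε, q.2))) p :=
      AnalyticAt.comp (g := g) (f := fun q : ℂ × ℂ => Z (q.1 - ε, q.2)) h2 h1
    rw [hF]
    exact h1.add ((analyticAt_const : AnalyticAt ℂ (fun _ : ℂ × ℂ => (ε : ℂ)) p).smul h3)
  have hee : e ≤ (1 + ε * Λ) * e + ε * κ := by
    have h1 : 0 ≤ ε * Λ * e := by positivity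
    have h2 : 0 ≤ ε * κ := by positivity
    nlinarith
  refine ⟨Z', ?_, ?_, ?_⟩
  · rintro p ⟨⟨h1, h2, h3, h4⟩, h5⟩
    rcases lt_or_ge p.1.re c with h | h
    · have hm : p ∈ Rec A₁ c b₁ b₂ ×ˢ D := ⟨⟨h1, h, h3, h4⟩, h5⟩
      refine (hZ.an p hm).congr ?_
      filter_upwards [(hO A₁ c).mem_nhds hm] with q hq
      exact (z1 q hq.1.2.1).symm
    · have hm : p ∈ Rec (A₁ + ε) (c + ε) b₁ b₂ ×ˢ D := ⟨⟨by linarith, h2, h3, h4⟩, h5⟩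
      refine (hFan p hm).congr ?_
      filter_upwards [(hO (A₁ + ε) (c + ε)).mem_nhds hm] with q hq
      exact (z2 q hq).symm
  · rintro p ⟨⟨h1, h2, h3, h4⟩, h5⟩
    have hm : ((p.1 + ε, p.2) : ℂ × ℂ) ∈ Rec (A₁ + ε) (c + ε) b₁ b₂ ×ˢ D :=
      ⟨⟨by rw [eR]; linarith, by rw [eR]; linarith, by rw [eI]; exact h3,
        by rw [eI]; exact h4⟩, h5⟩
    rw [z2 _ hm, z1 p (by linarith), hF]
    simp only [add_sub_cancel_right]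
  · rintro p ⟨⟨h1, h2, h3, h4⟩, h5⟩
    rcases lt_or_ge p.1.re c with h | h
    · rw [z1 p h]
      exact (hZ.near p ⟨⟨h1, h, h3, h4⟩, h5⟩).trans hee
    · have hm : p ∈ Rec (A₁ + ε) (c + ε) b₁ b₂ ×ˢ D := ⟨⟨by linarith, h2, h3, h4⟩, h5⟩
      have hm' := hmemF p hm
      rw [z2 p hm, hF]
      simp only
      have r1 := hres _ hm'
      simp only [sub_add_cancel, Prod.mk.eta] at r1
      have r2 := hZ.near _ hm'
      have r3 := hL _ (hz _ hm') _ (mem_ball_self hr) _ (hball _ hm')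
      have e1 : Z (p.1 - ε, p.2) + (ε : ℂ) • g (Z (p.1 - ε, p.2)) - z p =
          (Z (p.1 - ε, p.2) - z (p.1 - ε, p.2)) +
          (ε : ℂ) • (g (Z (p.1 - ε, p.2)) - g (z (p.1 - ε, p.2))) +
          (z (p.1 - ε, p.2) + (ε : ℂ) • g (z (p.1 - ε, p.2)) - z p) := by
        rw [smul_sub]
        abel
      rw [e1]
      have r4 : ‖(ε : ℂ) • (g (Z (p.1 - ε, p.2)) - g (z (p.1 - ε, p.2)))‖ ≤ ε * (Λ * e) := by
        rw [norm_smul, norm_real, Real.norm_of_nonneg hε.le]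
        exact mul_le_mul_of_nonneg_left (r3.trans (mul_le_mul_of_nonneg_left r2 hΛ)) hε.le
      refine (norm_add₃_le).trans ?_
      have : e + ε * (Λ * e) + ε * κ = (1 + ε * Λ) * e + ε * κ := by ring
      linarith

/-- `n` extension steps -/
theorem extend_n {M K : Set (ℂ × ℂ)} {g : ℂ × ℂ → ℂ × ℂ} (hg : AnalyticOnNhd ℂ g M)
    {r Λ κ ε : ℝ} (hr : 0 < r) (hrM : ∀ w ∈ K, ball w r ⊆ M)
    (hL : ∀ w ∈ K, ∀ x ∈ ball w r, ∀ y ∈ ball w r, ‖g y - g x‖ ≤ Λ * ‖y - x‖) (hΛ : 0 < Λ)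
    (hκ : 0 ≤ κ)
    (hε : 0 < ε) {D : Set ℂ} (hD : IsOpen D) {A₁ c C b₁ b₂ : ℝ} (hc : A₁ + ε < c)
    {z Z : ℂ × ℂ → ℂ × ℂ}
    (hz : ∀ p ∈ Rec A₁ C b₁ b₂ ×ˢ D, z p ∈ K)
    (hres : ∀ p ∈ Rec A₁ (C - ε) b₁ b₂ ×ˢ D,
      ‖z p + (ε : ℂ) • g (z p) - z (p.1 + ε, p.2)‖ ≤ ε * κ)
    (hZ : Lg g D ε b₁ b₂ z A₁ c (κ / Λ) Z) :
    ∀ n : ℕ, c + n * ε ≤ C → 2 * (κ / Λ) * (1 + ε * Λ) ^ n < r →
      ∃ Z', Lg g D ε b₁ b₂ z A₁ (c + n * ε) (2 * (κ / Λ) * (1 + ε * Λ) ^ n - κ / Λ) Z' := by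
  have hκΛ : 0 ≤ κ / Λ := by positivity
  have hq : 1 ≤ 1 + ε * Λ := by
    have : 0 < ε * Λ := by positivity
    linarith
  intro n
  induction n with
  | zero =>
    intro _ _
    refine ⟨Z, ?_⟩
    have e1 : 2 * (κ / Λ) * (1 + ε * Λ) ^ 0 - κ / Λ = κ / Λ := by
      rw [pow_zero]
      ring
    have e2 : c + ((0 : ℕ) : ℝ) * ε = c := by simp
    rw [e1, e2]
    exact hZ
  | succ n ih =>
    intro h1 h2
    push_cast at h1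
    have h3 : c + n * ε ≤ C := by linarith
    have hp : (1 + ε * Λ) ^ n ≤ (1 + ε * Λ) ^ (n + 1) := pow_le_pow_right₀ hq (Nat.le_succ n)
    have h4 : 2 * (κ / Λ) * (1 + ε * Λ) ^ n < r :=
      lt_of_le_of_lt (mul_le_mul_of_nonneg_left hp (by positivity)) h2
    obtain ⟨Z₁, hZ₁⟩ := ih h3 h4
    have hp1 : 1 ≤ (1 + ε * Λ) ^ n := one_le_pow₀ hq
    have he0 : 0 ≤ 2 * (κ / Λ) * (1 + ε * Λ) ^ n - κ / Λ := by
      have : κ / Λ * 1 ≤ κ / Λ * (1 + ε * Λ) ^ n := mul_le_mul_of_nonneg_left hp1 hκΛ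
      nlinarith
    have hn0 : (0 : ℝ) ≤ n * ε := by positivity
    have hz' : ∀ p ∈ Rec A₁ (c + n * ε) b₁ b₂ ×ˢ D, z p ∈ K := fun p hp =>
      hz p ⟨Rec_mono le_rfl h3 le_rfl le_rfl hp.1, hp.2⟩
    have hres' : ∀ p ∈ Rec A₁ (c + n * ε) b₁ b₂ ×ˢ D,
        ‖z p + (ε : ℂ) • g (z p) - z (p.1 + ε, p.2)‖ ≤ ε * κ := fun p hp =>
      hres p ⟨Rec_mono le_rfl (by linarith) le_rfl le_rfl hp.1, hp.2⟩
    obtain ⟨Z₂, hZ₂⟩ := extend_step hg hr hrM hL hΛ.le hκ hε hD (by linarith) (by linarith) he0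
      hz' hres' hZ₁
    refine ⟨Z₂, ?_⟩
    have e1 : (1 + ε * Λ) * (2 * (κ / Λ) * (1 + ε * Λ) ^ n - κ / Λ) + ε * κ =
        2 * (κ / Λ) * (1 + ε * Λ) ^ (n + 1) - κ / Λ := by
      rw [pow_succ]
      field_simp
      ring
    have e2 : c + ((n + 1 : ℕ) : ℝ) * ε = c + n * ε + ε := by
      push_cast
      ring
    rw [e1] at hZ₂
    rw [e2]
    exact hZ₂

end Pool.Agent.MP_ae5b4e_an_BX
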