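import Pool.Agent.Lib.MP_ae5b4e_an_BX.Cell2

/-!
# MP_ae5b4e_an, project BX: the iteration on the cell
-/

noncomputable section

namespace Pool.Agent.MP_ae5b4e_an_BX

open Complex Set Filter Topology Metric

/-- uniform limits of analytic functions with values in `ℂ` -/
theorem an_lim1 {U : Set (ℂ × ℂ)} (hU : IsOpen U) {w : ℕ → ℂ × ℂ → ℂ} {v : ℂ × ℂ → ℂ}
    (hw : ∀ n, AnalyticOnNhd ℂ (w n) U) (h : TendstoUniformlyOn w v atTop U) :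
    AnalyticOnNhd ℂ v U := by
  have hl := h.tendstoLocallyUniformlyOn
  apply Pool.Agent.SCV.osgood U hU
  · exact h.continuousOn (Frequently.of_forall fun n => (hw n).continuousOn)
  · intro p hp
    have hop : IsOpen ((fun x : ℂ => ((x, p.2) : ℂ × ℂ)) ⁻¹' U) := hU.preimage (by fun_prop)
    have hm : p.1 ∈ (fun x : ℂ => ((x, p.2) : ℂ × ℂ)) ⁻¹' U := by simpa using hp
    have h1 : TendstoUniformlyOn (fun n (x : ℂ) => w n (x, p.2)) (fun x => v (x, p.2)) atTop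
        ((fun x : ℂ => ((x, p.2) : ℂ × ℂ)) ⁻¹' U) := h.comp (fun x : ℂ => ((x, p.2) : ℂ × ℂ))
    have h2 := h1.tendstoLocallyUniformlyOn.differentiableOn (Eventually.of_forall fun n => ?_) hop
    · exact (h2 p.1 hm).differentiableAt (hop.mem_nhds hm)
    · intro x hx
      have h3 : AnalyticAt ℂ (fun x : ℂ => ((x, p.2) : ℂ × ℂ)) x := analyticAt_id.prod analyticAt_const
      have h4 : AnalyticAt ℂ (fun x : ℂ => w n (x, p.2)) x :=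
        AnalyticAt.comp (g := w n) (f := fun x : ℂ => ((x, p.2) : ℂ × ℂ)) (hw n _ hx) h3
      exact h4.differentiableAt.differentiableWithinAt
  · intro p hp
    have hop : IsOpen ((fun x : ℂ => ((p.1, x) : ℂ × ℂ)) ⁻¹' U) := hU.preimage (by fun_prop)
    have hm : p.2 ∈ (fun x : ℂ => ((p.1, x) : ℂ × ℂ)) ⁻¹' U := by simpa using hp
    have h1 : TendstoUniformlyOn (fun n (x : ℂ) => w n (p.1, x)) (fun x => v (p.1, x)) atTop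
        ((fun x : ℂ => ((p.1, x) : ℂ × ℂ)) ⁻¹' U) := h.comp (fun x : ℂ => ((p.1, x) : ℂ × ℂ))
    have h2 := h1.tendstoLocallyUniformlyOn.differentiableOn (Eventually.of_forall fun n => ?_) hop
    · exact (h2 p.2 hm).differentiableAt (hop.mem_nhds hm)
    · intro x hx
      have h3 : AnalyticAt ℂ (fun x : ℂ => ((p.1, x) : ℂ × ℂ)) x := analyticAt_const.prod analyticAt_id
      have h4 : AnalyticAt ℂ (fun x : ℂ => w n (p.1, x)) x :=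
        AnalyticAt.comp (g := w n) (f := fun x : ℂ => ((p.1, x) : ℂ × ℂ)) (hw n _ hx) h3
      exact h4.differentiableAt.differentiableWithinAt

theorem an_lim {U : Set (ℂ × ℂ)} (hU : IsOpen U) {w : ℕ → ℂ × ℂ → ℂ × ℂ} {v : ℂ × ℂ → ℂ × ℂ}
    (hw : ∀ n, AnalyticOnNhd ℂ (w n) U) (h : TendstoUniformlyOn w v atTop U) :
    AnalyticOnNhd ℂ v U := by
  have h1 : AnalyticOnNhd ℂ (fun p => (v p).1) U := by
    refine an_lim1 hU (w := fun n p => (w n p).1)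
      (fun n p hp => AnalyticAt.comp (g := Prod.fst) analyticAt_fst (hw n p hp)) ?_
    rw [Metric.tendstoUniformlyOn_iff] at h ⊢
    intro ε hε
    filter_upwards [h ε hε] with n hn p hp
    refine lt_of_le_of_lt ?_ (hn p hp)
    rw [Prod.dist_eq]
    exact le_max_left _ _
  have h2 : AnalyticOnNhd ℂ (fun p => (v p).2) U := by
    refine an_lim1 hU (w := fun n p => (w n p).2)
      (fun n p hp => AnalyticAt.comp (g := Prod.snd) analyticAt_snd (hw n p hp)) ?_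
    rw [Metric.tendstoUniformlyOn_iff] at h ⊢
    intro ε hε
    filter_upwards [h ε hε] with n hn p hp
    refine lt_of_le_of_lt ?_ (hn p hp)
    rw [Prod.dist_eq]
    exact le_max_right _ _
  exact fun p hp => (h1 p hp).prod (h2 p hp)

/-- the state of the iteration: `W` is an approximate solution on the box with the margin `σ` -/
structure St (g : ℂ × ℂ → ℂ × ℂ) (D : Set ℂ) (β₁ β₂ ε : ℝ) (W₀ : ℂ × ℂ → ℂ × ℂ) (σ e R : ℝ)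
    (W : ℂ × ℂ → ℂ × ℂ) : Prop where
  an : AnalyticOnNhd ℂ W (Rec (-(1 / 2)) (5 / 2) (β₁ - σ) (β₂ + σ) ×ˢ D)
  near : ∀ p ∈ Rec (-(1 / 2)) (5 / 2) (β₁ - σ) (β₂ + σ) ×ˢ D, ‖W p - W₀ p‖ ≤ e
  res : ∀ p ∈ Rec (-(1 / 2)) (3 / 2) (β₁ - σ) (β₂ + σ) ×ˢ D,
    ‖W p + (ε : ℂ) • g (W p) - W (p.1 + 1, p.2)‖ ≤ R

theorem mem_shift {a b β₁ β₂ : ℝ} {D : Set ℂ} {p : ℂ × ℂ} (hp : p ∈ Rec a b β₁ β₂ ×ˢ D) :
    ((p.1 + 1, p.2) : ℂ × ℂ) ∈ Rec (a + 1) (b + 1) β₁ β₂ ×ˢ D := by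
  obtain ⟨⟨h1, h2, h3, h4⟩, h5⟩ := hp
  refine ⟨⟨?_, ?_, ?_, ?_⟩, h5⟩
  · simp
    linarith
  · simp
    linarith
  · simpa using h3
  · simpa using h4

/-- one step -/
theorem step {M K : Set (ℂ × ℂ)} {g : ℂ × ℂ → ℂ × ℂ} (hg : AnalyticOnNhd ℂ g M) {ρ Λ : ℝ}
    (hρM : ∀ w ∈ K, ball w ρ ⊆ M)
    (hL : ∀ w ∈ K, ∀ x ∈ ball w ρ, ∀ y ∈ ball w ρ, ‖g y - g x‖ ≤ Λ * ‖y - x‖) (hΛ : 0 ≤ Λ)
    {C₀ : ℝ} (hC₀ : 1 ≤ C₀)
    (H : ∀ (f : ℂ × ℂ → ℂ × ℂ) (β₁ β₂ β₁' β₂' M : ℝ) (D : Set ℂ),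
    β₁ < β₂ → β₁' < β₁ → β₂ < β₂' → IsOpen D →
    AnalyticOnNhd ℂ f (Rec (-(1 / 2)) (3 / 2) β₁' β₂' ×ˢ D) → 0 ≤ M →
    (∀ p ∈ Rec (-(1 / 2)) (3 / 2) β₁' β₂' ×ˢ D, ‖f p‖ ≤ M) →
    ∃ u : ℂ × ℂ → ℂ × ℂ, AnalyticOnNhd ℂ u (Rec (-(1 / 2)) (5 / 2) β₁ β₂ ×ˢ D) ∧
      (∀ p ∈ Rec (-(1 / 2)) (3 / 2) β₁ β₂ ×ˢ D, u (p.1 + 1, p.2) = u p + f p) ∧
      ∀ p ∈ Rec (-(1 / 2)) (5 / 2) β₁ β₂ ×ˢ D, ‖u p‖ ≤ C₀ * ((β₂ - β₁) + 1) * M)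
    {D : Set ℂ} (hD : IsOpen D) {β₁ β₂ ε σ σ' e R A : ℝ} (hβ : β₁ < β₂) (hε : 0 < ε) (hσ' : 0 ≤ σ')
    (hσσ : σ' < σ) (hR : 0 ≤ R) (hA : C₀ * (β₂ - β₁ + 2 * σ + 1) ≤ A)
    (hsm : ε * Λ * A ≤ 1 / 2) (he : e + A * R < ρ) (he0 : 0 ≤ e) {W₀ W : ℂ × ℂ → ℂ × ℂ}
    (hW₀ : ∀ p ∈ Rec (-(1 / 2)) (5 / 2) (β₁ - σ) (β₂ + σ) ×ˢ D, W₀ p ∈ K)
    (hW : St g D β₁ β₂ ε W₀ σ e R W) :
    ∃ W' : ℂ × ℂ → ℂ × ℂ, St g D β₁ β₂ ε W₀ σ' (e + A * R) (R / 2) W' ∧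
      ∀ p ∈ Rec (-(1 / 2)) (5 / 2) (β₁ - σ') (β₂ + σ') ×ˢ D, ‖W' p - W p‖ ≤ A * R := by
  have hA0 : 0 ≤ A := by
    refine le_trans ?_ hA
    have : 0 ≤ β₂ - β₁ + 2 * σ + 1 := by linarith
    positivity
  have hAR : 0 ≤ A * R := mul_nonneg hA0 hR
  have hWM : ∀ p ∈ Rec (-(1 / 2)) (5 / 2) (β₁ - σ) (β₂ + σ) ×ˢ D, W p ∈ ball (W₀ p) ρ := by
    intro p hp
    rw [mem_ball, dist_eq_norm]
    exact (hW.near p hp).trans_lt (by linarith)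
  have hsub32 : Rec (-(1 / 2)) (3 / 2) (β₁ - σ) (β₂ + σ) ⊆
      Rec (-(1 / 2)) (5 / 2) (β₁ - σ) (β₂ + σ) := Rec_mono le_rfl (by norm_num) le_rfl le_rfl
  have hsubσ : Rec (-(1 / 2)) (5 / 2) (β₁ - σ') (β₂ + σ') ⊆
      Rec (-(1 / 2)) (5 / 2) (β₁ - σ) (β₂ + σ) :=
    Rec_mono le_rfl le_rfl (by linarith) (by linarith)
  -- the residual
  obtain ⟨f, hf⟩ : ∃ f : ℂ × ℂ → ℂ × ℂ, f = fun p => W p + (ε : ℂ) • g (W p) - W (p.1 + 1, p.2) :=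
    ⟨_, rfl⟩
  have hfan : AnalyticOnNhd ℂ f (Rec (-(1 / 2)) (3 / 2) (β₁ - σ) (β₂ + σ) ×ˢ D) := by
    intro p hp
    have hp5 : p ∈ Rec (-(1 / 2)) (5 / 2) (β₁ - σ) (β₂ + σ) ×ˢ D := ⟨hsub32 hp.1, hp.2⟩
    have h1 : AnalyticAt ℂ W p := hW.an p hp5
    have h2 : AnalyticAt ℂ g (W p) := hg _ (hρM _ (hW₀ p hp5) (hWM p hp5))
    have h3 : AnalyticAt ℂ (fun p => g (W p)) p := AnalyticAt.comp (g := g) (f := W) h2 h1
    have h4 : ((p.1 + 1, p.2) : ℂ × ℂ) ∈ Rec (-(1 / 2)) (5 / 2) (β₁ - σ) (β₂ + σ) ×ˢ D := by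
      have := mem_shift hp
      exact ⟨Rec_mono (by norm_num) (by norm_num) le_rfl le_rfl this.1, this.2⟩
    have h5 : AnalyticAt ℂ (fun q : ℂ × ℂ => ((q.1 + 1, q.2) : ℂ × ℂ)) p :=
      (analyticAt_fst.add analyticAt_const).prod analyticAt_snd
    have h6 : AnalyticAt ℂ (fun p : ℂ × ℂ => W (p.1 + 1, p.2)) p :=
      AnalyticAt.comp (g := W) (f := fun q : ℂ × ℂ => ((q.1 + 1, q.2) : ℂ × ℂ)) (hW.an _ h4) h5
    have h7 : AnalyticAt ℂ (fun p : ℂ × ℂ => (ε : ℂ) • g (W p)) p :=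
      (analyticAt_const : AnalyticAt ℂ (fun _ : ℂ × ℂ => (ε : ℂ)) p).smul h3
    rw [hf]
    exact (h1.add h7).sub h6
  obtain ⟨u, hu1, hu2, hu3⟩ := H f (β₁ - σ') (β₂ + σ') (β₁ - σ) (β₂ + σ) R D (by linarith)
    (by linarith) (by linarith) hD hfan hR (fun p hp => by rw [hf]; exact hW.res p hp)
  have hub : ∀ p ∈ Rec (-(1 / 2)) (5 / 2) (β₁ - σ') (β₂ + σ') ×ˢ D, ‖u p‖ ≤ A * R := by
    intro p hp
    refine (hu3 p hp).trans (mul_le_mul_of_nonneg_right ?_ hR)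
    refine le_trans ?_ hA
    refine mul_le_mul_of_nonneg_left ?_ (by linarith)
    linarith
  refine ⟨fun p => W p + u p, ⟨?_, ?_, ?_⟩, ?_⟩
  · intro p hp
    exact (hW.an p ⟨hsubσ hp.1, hp.2⟩).add (hu1 p hp)
  · intro p hp
    have e1 : W p + u p - W₀ p = (W p - W₀ p) + u p := by abel
    rw [e1]
    exact (norm_add_le _ _).trans (add_le_add (hW.near p ⟨hsubσ hp.1, hp.2⟩) (hub p hp))
  · intro p hp
    have hp5 : p ∈ Rec (-(1 / 2)) (5 / 2) (β₁ - σ') (β₂ + σ') ×ˢ D :=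
      ⟨Rec_mono le_rfl (by norm_num) le_rfl le_rfl hp.1, hp.2⟩
    have hpσ : p ∈ Rec (-(1 / 2)) (5 / 2) (β₁ - σ) (β₂ + σ) ×ˢ D := ⟨hsubσ hp5.1, hp.2⟩
    have h1 := hu2 p hp
    have h2 : f p = W p + (ε : ℂ) • g (W p) - W (p.1 + 1, p.2) := by rw [hf]
    rw [h1, h2]
    have h3 : W p + u p + (ε : ℂ) • g (W p + u p) - (W (p.1 + 1, p.2) + (u p +
        (W p + (ε : ℂ) • g (W p) - W (p.1 + 1, p.2)))) = (ε : ℂ) • (g (W p + u p) - g (W p)) := by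
      rw [smul_sub]
      abel
    rw [h3, norm_smul, norm_real, Real.norm_of_nonneg hε.le]
    have h4 : W p + u p ∈ ball (W₀ p) ρ := by
      rw [mem_ball, dist_eq_norm]
      have e1 : W p + u p - W₀ p = (W p - W₀ p) + u p := by abel
      rw [e1]
      exact (norm_add_le _ _).trans_lt
        ((add_le_add (hW.near p hpσ) (hub p hp5)).trans_lt he)
    have h5 := hL _ (hW₀ p hpσ) _ (hWM p hpσ) _ h4
    rw [add_sub_cancel_left] at h5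
    have h6 : ‖g (W p + u p) - g (W p)‖ ≤ Λ * (A * R) :=
      h5.trans (mul_le_mul_of_nonneg_left (hub p hp5) hΛ)
    calc ε * ‖g (W p + u p) - g (W p)‖ ≤ ε * (Λ * (A * R)) := mul_le_mul_of_nonneg_left h6 hε.le
      _ = (ε * Λ * A) * R := by ring
      _ ≤ 1 / 2 * R := mul_le_mul_of_nonneg_right hsm hR
      _ = R / 2 := by ring
  · intro p hp
    simp only [add_sub_cancel_left]
    exact hub p hp

end Pool.Agent.MP_ae5b4e_an_BX
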