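import Pool.Agent.Lib.MP_ae5b4e_an_BX.Defs

/-!
# MP_ae5b4e_an, project BX: the kernel `1 / (exp (2 π i w) - 1)`
-/

noncomputable section

namespace Pool.Agent.MP_ae5b4e_an_BX

open Complex Set Filter Topology Metric MeasureTheory

/-- the kernel -/
def Ek (w : ℂ) : ℂ := (exp (2 * Real.pi * I * w) - 1)⁻¹

theorem Ek_add_one (w : ℂ) : Ek (w + 1) = Ek w := by
  unfold Ek
  rw [mul_add, mul_one, exp_add, exp_two_pi_mul_I, mul_one]

theorem Ek_sub_one (w : ℂ) : Ek (w - 1) = Ek w := by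
  rw [← Ek_add_one (w - 1), sub_add_cancel]

/-- the denominator -/
theorem den_norm (w : ℂ) : ‖exp (2 * Real.pi * I * w) - 1‖ ^ 2 =
    (Real.exp (-(2 * Real.pi * w.im)) - 1) ^ 2 +
      4 * Real.exp (-(2 * Real.pi * w.im)) * Real.sin (Real.pi * w.re) ^ 2 := by
  have e1 : 2 * Real.pi * I * w =
      ((-(2 * Real.pi * w.im) : ℝ) : ℂ) + ((2 * (Real.pi * w.re) : ℝ) : ℂ) * I := by
    apply Complex.ext
    · simp
    · simp
      ring
  have hn : ‖exp (2 * Real.pi * I * w) - 1‖ ^ 2 =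
      (Real.exp (-(2 * Real.pi * w.im)) * Real.cos (2 * (Real.pi * w.re)) - 1) ^ 2 +
      (Real.exp (-(2 * Real.pi * w.im)) * Real.sin (2 * (Real.pi * w.re))) ^ 2 := by
    rw [← Complex.normSq_eq_norm_sq, Complex.normSq_apply, e1]
    have h1 : (exp (((-(2 * Real.pi * w.im) : ℝ) : ℂ) + ((2 * (Real.pi * w.re) : ℝ) : ℂ) * I) - 1).re
        = Real.exp (-(2 * Real.pi * w.im)) * Real.cos (2 * (Real.pi * w.re)) - 1 := by
      rw [sub_re, exp_re, one_re]
      simp
    have h2 : (exp (((-(2 * Real.pi * w.im) : ℝ) : ℂ) + ((2 * (Real.pi * w.re) : ℝ) : ℂ) * I) - 1).im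
        = Real.exp (-(2 * Real.pi * w.im)) * Real.sin (2 * (Real.pi * w.re)) := by
      rw [sub_im, exp_im, one_im]
      simp
    rw [h1, h2]
    ring
  rw [hn]
  have h3 := Real.cos_two_mul' (Real.pi * w.re)
  have h4 := Real.sin_sq_add_cos_sq (Real.pi * w.re)
  have h5 := Real.sin_sq_add_cos_sq (2 * (Real.pi * w.re))
  have h6 : Real.cos (2 * (Real.pi * w.re)) = 1 - 2 * Real.sin (Real.pi * w.re) ^ 2 := by
    rw [h3]
    linarith
  have h7 : Real.sin (2 * (Real.pi * w.re)) ^ 2 = 1 - Real.cos (2 * (Real.pi * w.re)) ^ 2 := by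
    linarith
  rw [mul_pow, h7, h6]
  ring

theorem den_ne_im {w : ℂ} (h : w.im ≠ 0) : exp (2 * Real.pi * I * w) - 1 ≠ 0 := by
  intro h0
  have h1 := den_norm w
  rw [h0, norm_zero] at h1
  have h2 : Real.exp (-(2 * Real.pi * w.im)) ≠ 1 := by
    intro h3
    rw [Real.exp_eq_one_iff] at h3
    have h4 : 2 * Real.pi * w.im = 0 := by linarith
    have h5 : (2 * Real.pi) ≠ 0 := by positivity
    exact h ((mul_eq_zero.1 h4).resolve_left h5)
  have h3 : 0 < (Real.exp (-(2 * Real.pi * w.im)) - 1) ^ 2 := by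
    have : Real.exp (-(2 * Real.pi * w.im)) - 1 ≠ 0 := sub_ne_zero.2 h2
    positivity
  have h4 : 0 ≤ 4 * Real.exp (-(2 * Real.pi * w.im)) * Real.sin (Real.pi * w.re) ^ 2 := by
    have := Real.exp_pos (-(2 * Real.pi * w.im))
    positivity
  nlinarith

theorem den_ne_sin {w : ℂ} (h : Real.sin (Real.pi * w.re) ≠ 0) :
    exp (2 * Real.pi * I * w) - 1 ≠ 0 := by
  intro h0
  have h1 := den_norm w
  rw [h0, norm_zero] at h1
  have h2 : 0 < 4 * Real.exp (-(2 * Real.pi * w.im)) * Real.sin (Real.pi * w.re) ^ 2 := by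
    have := Real.exp_pos (-(2 * Real.pi * w.im))
    positivity
  have h3 : 0 ≤ (Real.exp (-(2 * Real.pi * w.im)) - 1) ^ 2 := sq_nonneg _
  nlinarith

theorem sin_ne {s : ℝ} (h : (0 < s ∧ s < 1) ∨ (-1 < s ∧ s < 0)) : Real.sin (Real.pi * s) ≠ 0 := by
  have hpi := Real.pi_pos
  rcases h with ⟨h1, h2⟩ | ⟨h1, h2⟩
  · exact (Real.sin_pos_of_pos_of_lt_pi (by positivity) (by nlinarith)).ne'
  · have h3 : 0 < Real.sin (Real.pi * -s) :=
      Real.sin_pos_of_pos_of_lt_pi (by nlinarith) (by nlinarith)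
    rw [mul_neg, Real.sin_neg] at h3
    exact (show Real.sin (Real.pi * s) < 0 by linarith).ne

theorem Ek_an {w : ℂ} (h : exp (2 * Real.pi * I * w) - 1 ≠ 0) : AnalyticAt ℂ Ek w := by
  have h1 : AnalyticAt ℂ (fun w : ℂ => exp (2 * Real.pi * I * w) - 1) w := by fun_prop
  exact h1.inv h

/-- the bound of the kernel -/
theorem exists_Ek_bd : ∃ C : ℝ, 0 < C ∧ ∀ w : ℂ, w.im ≠ 0 → Real.sin (Real.pi * w.re) ≠ 0 →
    ‖Ek w‖ ≤ 2 + C * ((Real.sqrt |w.im|)⁻¹ * (Real.sqrt |Real.sin (Real.pi * w.re)|)⁻¹) := by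
  have hpi := Real.pi_pos
  have hpi3 := Real.pi_gt_three
  obtain ⟨q, hq⟩ : ∃ q : ℝ, q = Real.exp (-(2 * Real.pi)) := ⟨_, rfl⟩
  have hq0 : 0 < q := by
    rw [hq]
    exact Real.exp_pos _
  have hq1 : q ≤ 1 := by
    rw [hq]
    exact Real.exp_le_one_iff.2 (by linarith)
  obtain ⟨c, hc⟩ : ∃ c : ℝ, c = 4 * q ^ 2 := ⟨_, rfl⟩
  have hc0 : 0 < c := by
    rw [hc]
    positivity
  refine ⟨(Real.sqrt c)⁻¹, by positivity, fun w hw hs => ?_⟩
  have hpos : 0 ≤ (Real.sqrt c)⁻¹ *
      ((Real.sqrt |w.im|)⁻¹ * (Real.sqrt |Real.sin (Real.pi * w.re)|)⁻¹) := by positivity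
  have hd := den_norm w
  have hden : 0 < ‖exp (2 * Real.pi * I * w) - 1‖ := norm_pos_iff.2 (den_ne_im hw)
  set r : ℝ := Real.exp (-(2 * Real.pi * w.im)) with hr
  have hr0 : 0 < r := Real.exp_pos _
  set s : ℝ := Real.sin (Real.pi * w.re) with hsd
  unfold Ek
  rw [norm_inv]
  rcases le_or_gt 1 |w.im| with h1 | h1
  · -- far
    have h2 : (1:ℝ) / 2 ≤ |r - 1| := by
      rcases le_or_gt 0 w.im with h3 | h3
      · rw [abs_of_nonneg h3] at h1
        have h4 : r ≤ Real.exp (-1) := by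
          rw [hr]
          apply Real.exp_le_exp.2
          nlinarith
        have h5 : Real.exp (-1) ≤ 1 / 2 := by
          rw [Real.exp_neg]
          have := Real.add_one_le_exp (1:ℝ)
          rw [inv_le_comm₀ (Real.exp_pos _) (by norm_num)]
          norm_num
          linarith
        rw [abs_of_nonpos (by linarith)]
        linarith
      · rw [abs_of_neg h3] at h1
        have h4 : 1 + 1 ≤ r := by
          rw [hr]
          refine le_trans ?_ (Real.exp_le_exp.2 (show (1:ℝ) ≤ -(2 * Real.pi * w.im) by nlinarith))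
          have := Real.add_one_le_exp (1:ℝ)
          linarith
        rw [abs_of_nonneg (by linarith)]
        linarith
    have h3 : (1:ℝ) / 2 ≤ ‖exp (2 * Real.pi * I * w) - 1‖ := by
      have h4 : (1 / 2 : ℝ) ^ 2 ≤ ‖exp (2 * Real.pi * I * w) - 1‖ ^ 2 := by
        rw [hd]
        have h5 : (1 / 2 : ℝ) ^ 2 ≤ |r - 1| ^ 2 := pow_le_pow_left₀ (by norm_num) h2 2
        rw [sq_abs] at h5
        have : 0 ≤ 4 * r * s ^ 2 := by positivity
        linarith
      exact le_of_sq_le_sq h4 hden.le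
    have h4 : ‖exp (2 * Real.pi * I * w) - 1‖⁻¹ ≤ 2 := by
      rw [inv_le_comm₀ hden (by norm_num)]
      linarith
    linarith
  · -- near
    have hge : q ≤ r := by
      rw [hr, hq]
      apply Real.exp_le_exp.2
      have := (abs_lt.1 h1).2
      nlinarith
    have habs : |w.im| * q ≤ |r - 1| := by
      rcases le_or_gt 0 w.im with h3 | h3
      · rw [abs_of_nonneg h3]
        have h4 : r ≤ 1 := by
          rw [hr]
          exact Real.exp_le_one_iff.2 (by nlinarith)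
        rw [abs_of_nonpos (by linarith)]
        have h5 : 1 + 2 * Real.pi * w.im ≤ Real.exp (2 * Real.pi * w.im) := by
          have := Real.add_one_le_exp (2 * Real.pi * w.im)
          linarith
        have h6 : r * Real.exp (2 * Real.pi * w.im) = 1 := by
          rw [hr, ← Real.exp_add]
          simp
        have h7 : r * (1 + 2 * Real.pi * w.im) ≤ 1 := by
          have := mul_le_mul_of_nonneg_left h5 hr0.le
          rwa [h6] at this
        have h8 : w.im * q ≤ w.im * r := mul_le_mul_of_nonneg_left hge h3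
        have h9 : w.im * r ≤ r * (2 * Real.pi * w.im) := by
          have : 0 ≤ w.im * r := by positivity
          nlinarith
        linarith
      · rw [abs_of_neg h3]
        have h5 : 1 + (-(2 * Real.pi * w.im)) ≤ r := by
          rw [hr]
          have := Real.add_one_le_exp (-(2 * Real.pi * w.im))
          linarith
        rw [abs_of_nonneg (by nlinarith)]
        have h6 : -w.im * q ≤ -w.im := by nlinarith
        nlinarith
    have h2 : c * (|w.im| * |s|) ≤ ‖exp (2 * Real.pi * I * w) - 1‖ ^ 2 := by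
      rw [hd, hc]
      have e1 : (|w.im| * q) ^ 2 ≤ (r - 1) ^ 2 := by
        rw [← sq_abs (r - 1)]
        exact pow_le_pow_left₀ (by positivity) habs 2
      have e2 : 4 * q ^ 2 * |s| ^ 2 ≤ 4 * r * s ^ 2 := by
        rw [sq_abs]
        have e3 : q ^ 2 ≤ r := by nlinarith
        have : 0 ≤ s ^ 2 := sq_nonneg _
        nlinarith
      have e4 : 0 ≤ (|w.im| * q - 2 * (q * |s|)) ^ 2 := sq_nonneg _
      nlinarith
    have h3 : Real.sqrt c * (Real.sqrt |w.im| * Real.sqrt |s|) ≤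
        ‖exp (2 * Real.pi * I * w) - 1‖ := by
      rw [← Real.sqrt_mul (abs_nonneg _), ← Real.sqrt_mul hc0.le]
      exact Real.sqrt_le_iff.2 ⟨hden.le, h2⟩
    have hw0 : 0 < |w.im| := abs_pos.2 hw
    have hs0 : 0 < |s| := abs_pos.2 hs
    have h4 : 0 < Real.sqrt c * (Real.sqrt |w.im| * Real.sqrt |s|) := by positivity
    have h5 := inv_anti₀ h4 h3
    rw [mul_inv, mul_inv] at h5
    linarith

end Pool.Agent.MP_ae5b4e_an_BX
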