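import Pool.Agent.Lib.MP_ae5b4e_an_BX.Iter

/-!
# MP_ae5b4e_an, project BX: the exact solution on the cell
-/

noncomputable section

namespace Pool.Agent.MP_ae5b4e_an_BX

open Complex Set Filter Topology Metric

/-- the exact solution on the cell -/
theorem solve_exact {M K : Set (ℂ × ℂ)} {g : ℂ × ℂ → ℂ × ℂ} (hg : AnalyticOnNhd ℂ g M) {ρ Λ : ℝ}
    (hρM : ∀ w ∈ K, ball w ρ ⊆ M)
    (hL : ∀ w ∈ K, ∀ x ∈ ball w ρ, ∀ y ∈ ball w ρ, ‖g y - g x‖ ≤ Λ * ‖y - x‖) (hΛ : 0 ≤ Λ)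
    {C₀ : ℝ} (hC₀ : 1 ≤ C₀)
    (H : ∀ (f : ℂ × ℂ → ℂ × ℂ) (β₁ β₂ β₁' β₂' M : ℝ) (D : Set ℂ),
    β₁ < β₂ → β₁' < β₁ → β₂ < β₂' → IsOpen D →
    AnalyticOnNhd ℂ f (Rec (-(1 / 2)) (3 / 2) β₁' β₂' ×ˢ D) → 0 ≤ M →
    (∀ p ∈ Rec (-(1 / 2)) (3 / 2) β₁' β₂' ×ˢ D, ‖f p‖ ≤ M) →
    ∃ u : ℂ × ℂ → ℂ × ℂ, AnalyticOnNhd ℂ u (Rec (-(1 / 2)) (5 / 2) β₁ β₂ ×ˢ D) ∧
      (∀ p ∈ Rec (-(1 / 2)) (3 / 2) β₁ β₂ ×ˢ D, u (p.1 + 1, p.2) = u p + f p) ∧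
      ∀ p ∈ Rec (-(1 / 2)) (5 / 2) β₁ β₂ ×ˢ D, ‖u p‖ ≤ C₀ * ((β₂ - β₁) + 1) * M)
    {D : Set ℂ} (hD : IsOpen D) {β₁ β₂ ε σ R A : ℝ} (hβ : β₁ < β₂) (hε : 0 < ε) (hσ : 0 < σ)
    (hR : 0 ≤ R) (hA : C₀ * (β₂ - β₁ + 2 * σ + 1) ≤ A)
    (hsm : ε * Λ * A ≤ 1 / 2) (he : 2 * (A * R) < ρ) {W₀ : ℂ × ℂ → ℂ × ℂ}
    (hW₀an : AnalyticOnNhd ℂ W₀ (Rec (-(1 / 2)) (5 / 2) (β₁ - σ) (β₂ + σ) ×ˢ D))
    (hW₀ : ∀ p ∈ Rec (-(1 / 2)) (5 / 2) (β₁ - σ) (β₂ + σ) ×ˢ D, W₀ p ∈ K)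
    (hres : ∀ p ∈ Rec (-(1 / 2)) (3 / 2) (β₁ - σ) (β₂ + σ) ×ˢ D,
      ‖W₀ p + (ε : ℂ) • g (W₀ p) - W₀ (p.1 + 1, p.2)‖ ≤ R) :
    ∃ W : ℂ × ℂ → ℂ × ℂ, AnalyticOnNhd ℂ W (Rec (-(1 / 2)) (5 / 2) β₁ β₂ ×ˢ D) ∧
      (∀ p ∈ Rec (-(1 / 2)) (3 / 2) β₁ β₂ ×ˢ D, W (p.1 + 1, p.2) = W p + (ε : ℂ) • g (W p)) ∧
      ∀ p ∈ Rec (-(1 / 2)) (5 / 2) β₁ β₂ ×ˢ D, ‖W p - W₀ p‖ ≤ 2 * (A * R) := by
  have hA0 : 0 ≤ A := by
    refine le_trans ?_ hA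
    have : 0 ≤ β₂ - β₁ + 2 * σ + 1 := by linarith
    positivity
  have hAR : 0 ≤ A * R := mul_nonneg hA0 hR
  -- the predicate
  obtain ⟨P, hP⟩ : ∃ P : ℕ → (ℂ × ℂ → ℂ × ℂ) → Prop, ∀ k W, P k W ↔
      St g D β₁ β₂ ε W₀ (σ / 2 ^ k) (2 * (A * R) * (1 - 1 / 2 ^ k)) (R / 2 ^ k) W :=
    ⟨fun k W => _, fun k W => Iff.rfl⟩
  have hP0 : P 0 W₀ := by
    rw [hP]
    refine ⟨?_, ?_, ?_⟩
    · simpa using hW₀an
    · intro p _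
      simp
    · simpa using hres
  have hstep : ∀ (k : ℕ) (W : {W // P k W}), ∃ W' : {W // P (k + 1) W},
      ∀ p ∈ Rec (-(1 / 2)) (5 / 2) β₁ β₂ ×ˢ D, ‖W'.1 p - W.1 p‖ ≤ A * R / 2 ^ k := by
    rintro k ⟨W, hW⟩
    have h2 : (0 : ℝ) < 2 ^ k := by positivity
    have h21 : (1 : ℝ) ≤ 2 ^ k := one_le_pow₀ (by norm_num)
    have hk : σ / 2 ^ (k + 1) < σ / 2 ^ k := by
      rw [pow_succ]
      have : σ / (2 ^ k * 2) = σ / 2 ^ k / 2 := by rw [div_div]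
      rw [this]
      have : 0 < σ / 2 ^ k := by positivity
      linarith
    have hk0 : 0 ≤ σ / 2 ^ (k + 1) := by positivity
    have hσk : σ / 2 ^ k ≤ σ := div_le_self hσ.le h21
    have hRk : 0 ≤ R / 2 ^ k := by positivity
    have hAk : C₀ * (β₂ - β₁ + 2 * (σ / 2 ^ k) + 1) ≤ A := by
      refine le_trans ?_ hA
      refine mul_le_mul_of_nonneg_left ?_ (by linarith)
      linarith
    have hek : 2 * (A * R) * (1 - 1 / 2 ^ k) + A * (R / 2 ^ k) =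
        2 * (A * R) * (1 - 1 / 2 ^ (k + 1)) := by
      rw [pow_succ]
      field_simp
      ring
    have hek' : 2 * (A * R) * (1 - 1 / 2 ^ (k + 1)) ≤ 2 * (A * R) := by
      have : (0 : ℝ) ≤ 1 / 2 ^ (k + 1) := by positivity
      nlinarith
    have hek0 : 0 ≤ 2 * (A * R) * (1 - 1 / 2 ^ k) := by
      have : (1 : ℝ) / 2 ^ k ≤ 1 := by rw [div_le_one h2]; exact h21
      have : 0 ≤ 1 - (1 : ℝ) / 2 ^ k := by linarith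
      positivity
    have hsub : Rec (-(1 / 2)) (5 / 2) (β₁ - σ / 2 ^ k) (β₂ + σ / 2 ^ k) ⊆
        Rec (-(1 / 2)) (5 / 2) (β₁ - σ) (β₂ + σ) :=
      Rec_mono le_rfl le_rfl (by linarith) (by linarith)
    rw [hP] at hW
    obtain ⟨W', hW1, hW2⟩ := step hg hρM hL hΛ hC₀ H hD hβ hε hk0 hk hRk hAk hsm
      (by rw [hek]; linarith) hek0 (fun p hp => hW₀ p ⟨hsub hp.1, hp.2⟩) hW
    refine ⟨⟨W', ?_⟩, ?_⟩
    · rw [hP]
      rw [hek] at hW1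
      have e1 : R / 2 ^ (k + 1) = R / 2 ^ k / 2 := by rw [pow_succ, div_div]
      rw [e1]
      exact hW1
    · intro p hp
      have := hW2 p ⟨Rec_mono le_rfl le_rfl (by linarith) (by linarith) hp.1, hp.2⟩
      rwa [← mul_div_assoc] at this
  choose F hF using hstep
  obtain ⟨S, hS0, hS⟩ : ∃ S : (k : ℕ) → {W // P k W}, S 0 = ⟨W₀, hP0⟩ ∧
      ∀ k, S (k + 1) = F k (S k) :=
    ⟨fun k => Nat.rec ⟨W₀, hP0⟩ (fun k W => F k W) k, rfl, fun _ => rfl⟩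
  obtain ⟨V, hV⟩ : ∃ V : ℕ → ℂ × ℂ → ℂ × ℂ, V = fun k => (S k).1 := ⟨_, rfl⟩
  have hVP : ∀ k, St g D β₁ β₂ ε W₀ (σ / 2 ^ k) (2 * (A * R) * (1 - 1 / 2 ^ k)) (R / 2 ^ k) (V k) := by
    intro k
    have := (S k).2
    rw [hP] at this
    rw [hV]
    exact this
  have hsubk : ∀ (k : ℕ) (a b : ℝ), Rec a b β₁ β₂ ⊆ Rec a b (β₁ - σ / 2 ^ k) (β₂ + σ / 2 ^ k) := by
    intro k a b
    have : 0 ≤ σ / 2 ^ k := by positivity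
    exact Rec_mono le_rfl le_rfl (by linarith) (by linarith)
  have hV1 : ∀ k, ∀ p ∈ Rec (-(1 / 2)) (5 / 2) β₁ β₂ ×ˢ D,
      dist (V k p) (V (k + 1) p) ≤ 2 * (A * R) / 2 / 2 ^ k := by
    intro k p hp
    rw [dist_comm, dist_eq_norm, hV]
    simp only
    rw [hS k]
    refine (hF k (S k) p hp).trans (le_of_eq ?_)
    ring
  have hV0 : V 0 = W₀ := by
    rw [hV]
    simp only
    rw [hS0]
  -- the limit
  have hcau : ∀ p ∈ Rec (-(1 / 2)) (5 / 2) β₁ β₂ ×ˢ D, ∃ w, Tendsto (fun k => V k p) atTop (𝓝 w) :=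
    fun p hp => cauchySeq_tendsto_of_complete (cauchySeq_of_le_geometric_two fun k => hV1 k p hp)
  have hlim : ∃ W : ℂ × ℂ → ℂ × ℂ, ∀ p ∈ Rec (-(1 / 2)) (5 / 2) β₁ β₂ ×ˢ D,
      Tendsto (fun k => V k p) atTop (𝓝 (W p)) := by
    classical
    refine ⟨fun p => if h : p ∈ Rec (-(1 / 2)) (5 / 2) β₁ β₂ ×ˢ D then (hcau p h).choose else 0, ?_⟩
    intro p hp
    simp only [dif_pos hp]
    exact (hcau p hp).choose_spec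
  obtain ⟨W, hW⟩ := hlim
  have hdist : ∀ k, ∀ p ∈ Rec (-(1 / 2)) (5 / 2) β₁ β₂ ×ˢ D,
      dist (V k p) (W p) ≤ 2 * (A * R) / 2 ^ k := fun k p hp =>
    dist_le_of_le_geometric_two_of_tendsto (fun k => hV1 k p hp) (hW p hp) k
  have hpow : Tendsto (fun k : ℕ => 2 * (A * R) / 2 ^ k) atTop (𝓝 0) := by
    have h1 : Tendsto (fun k : ℕ => ((1 : ℝ) / 2) ^ k) atTop (𝓝 0) :=
      tendsto_pow_atTop_nhds_zero_of_lt_one (by norm_num) (by norm_num)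
    have h2 := h1.const_mul (2 * (A * R))
    rw [mul_zero] at h2
    refine h2.congr fun k => ?_
    rw [div_pow, one_pow]
    ring
  have hnear : ∀ p ∈ Rec (-(1 / 2)) (5 / 2) β₁ β₂ ×ˢ D, ‖W p - W₀ p‖ ≤ 2 * (A * R) := by
    intro p hp
    have := hdist 0 p hp
    rw [hV0, pow_zero, div_one, dist_comm, dist_eq_norm] at this
    exact this
  refine ⟨W, ?_, ?_, hnear⟩
  · refine an_lim ((isOpen_Rec _ _ _ _).prod hD) (w := V) (fun k p hp => ?_) ?_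
    · exact (hVP k).an p ⟨hsubk k _ _ hp.1, hp.2⟩
    · rw [Metric.tendstoUniformlyOn_iff]
      intro c hc
      filter_upwards [(tendsto_order.1 hpow).2 c hc] with k hk p hp
      rw [dist_comm]
      exact (hdist k p hp).trans_lt hk
  · intro p hp
    have hp5 : p ∈ Rec (-(1 / 2)) (5 / 2) β₁ β₂ ×ˢ D :=
      ⟨Rec_mono le_rfl (by norm_num) le_rfl le_rfl hp.1, hp.2⟩
    have hp5' : ((p.1 + 1, p.2) : ℂ × ℂ) ∈ Rec (-(1 / 2)) (5 / 2) β₁ β₂ ×ˢ D := by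
      have := mem_shift hp
      exact ⟨Rec_mono (by norm_num) (by norm_num) le_rfl le_rfl this.1, this.2⟩
    have hKp : W₀ p ∈ K := by
      refine hW₀ p ⟨Rec_mono le_rfl le_rfl ?_ ?_ hp5.1, hp5.2⟩ <;> linarith
    have hWM : W p ∈ M := by
      refine hρM _ hKp ?_
      rw [mem_ball, dist_eq_norm]
      exact (hnear p hp5).trans_lt he
    have t1 := hW p hp5
    have t2 := hW _ hp5'
    have t3 : Tendsto (fun k => g (V k p)) atTop (𝓝 (g (W p))) :=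
      ((hg _ hWM).continuousAt.tendsto).comp t1
    have t4 : Tendsto (fun k => V k p + (ε : ℂ) • g (V k p) - V k (p.1 + 1, p.2)) atTop
        (𝓝 (W p + (ε : ℂ) • g (W p) - W (p.1 + 1, p.2))) := (t1.add (t3.const_smul _)).sub t2
    have hpow' : Tendsto (fun k : ℕ => R / 2 ^ k) atTop (𝓝 0) := by
      have h1 : Tendsto (fun k : ℕ => ((1 : ℝ) / 2) ^ k) atTop (𝓝 0) :=
        tendsto_pow_atTop_nhds_zero_of_lt_one (by norm_num) (by norm_num)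
      have h2 := h1.const_mul R
      rw [mul_zero] at h2
      refine h2.congr fun k => ?_
      rw [div_pow, one_pow]
      ring
    have t5 : Tendsto (fun k => V k p + (ε : ℂ) • g (V k p) - V k (p.1 + 1, p.2)) atTop (𝓝 0) := by
      refine squeeze_zero_norm (fun k => ?_) hpow'
      exact (hVP k).res p ⟨hsubk k _ _ hp.1, hp.2⟩
    have := tendsto_nhds_unique t4 t5
    rw [sub_eq_zero] at this
    exact this.symm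

end Pool.Agent.MP_ae5b4e_an_BX
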