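import Pool.Agent.Lib.MP_ae5b4e_an_BX.Ker

/-!
# MP_ae5b4e_an, project BX: integrals of the majorant of the kernel
-/

noncomputable section

namespace Pool.Agent.MP_ae5b4e_an_BX

open Complex Set Filter Topology Metric MeasureTheory

theorem isq_eq {t : ℝ} (ht : 0 ≤ t) : (Real.sqrt |t|)⁻¹ = t ^ (-(1 / 2) : ℝ) := by
  rw [abs_of_nonneg ht, Real.sqrt_eq_rpow, Real.rpow_neg ht]

theorem isq_int_pos {b : ℝ} (hb : 0 ≤ b) :
    IntervalIntegrable (fun t : ℝ => (Real.sqrt |t|)⁻¹) volume 0 b ∧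
      ∫ t in (0:ℝ)..b, (Real.sqrt |t|)⁻¹ = 2 * Real.sqrt b := by
  have h1 : IntervalIntegrable (fun t : ℝ => t ^ (-(1 / 2) : ℝ)) volume 0 b :=
    intervalIntegral.intervalIntegrable_rpow' (by norm_num)
  have h2 : EqOn (fun t : ℝ => t ^ (-(1 / 2) : ℝ)) (fun t : ℝ => (Real.sqrt |t|)⁻¹) (uIcc 0 b) := by
    intro t ht
    rw [uIcc_of_le hb] at ht
    exact (isq_eq ht.1).symm
  refine ⟨(intervalIntegrable_congr fun t ht => h2 (uIoc_subset_uIcc ht)).1 h1, ?_⟩
  rw [← intervalIntegral.integral_congr h2, integral_rpow (Or.inl (by norm_num))]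
  have e : (-(1 / 2) : ℝ) + 1 = 1 / 2 := by norm_num
  rw [e, Real.zero_rpow (by norm_num), sub_zero, ← Real.sqrt_eq_rpow]
  ring

theorem isq_int_neg {a : ℝ} (ha : a ≤ 0) :
    IntervalIntegrable (fun t : ℝ => (Real.sqrt |t|)⁻¹) volume a 0 ∧
      ∫ t in a..(0:ℝ), (Real.sqrt |t|)⁻¹ = 2 * Real.sqrt (-a) := by
  obtain ⟨h1, h2⟩ := isq_int_pos (show 0 ≤ -a by linarith)
  constructor
  · have h3 := (IntervalIntegrable.iff_comp_neg (f := fun t : ℝ => (Real.sqrt |t|)⁻¹) (a := a)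
      (b := 0)).2
    simp only [abs_neg, neg_zero] at h3
    exact h3 h1.symm
  · have h3 := intervalIntegral.integral_comp_neg (fun t : ℝ => (Real.sqrt |t|)⁻¹) (a := a) (b := 0)
    simp only [abs_neg, neg_zero] at h3
    rw [h3, h2]

theorem isq_int (a b : ℝ) : IntervalIntegrable (fun t : ℝ => (Real.sqrt |t|)⁻¹) volume a b := by
  have h : ∀ c : ℝ, IntervalIntegrable (fun t : ℝ => (Real.sqrt |t|)⁻¹) volume 0 c := by
    intro c
    rcases le_total 0 c with h | h
    · exact (isq_int_pos h).1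
    · exact (isq_int_neg h).1.symm
  exact (h a).symm.trans (h b)

theorem isq_le {a b H : ℝ} (ha : a ≤ 0) (hb : 0 ≤ b) (haH : -a ≤ H) (hbH : b ≤ H) :
    ∫ t in a..b, (Real.sqrt |t|)⁻¹ ≤ 4 * Real.sqrt H := by
  rw [← intervalIntegral.integral_add_adjacent_intervals (isq_int a 0) (isq_int 0 b),
    (isq_int_neg ha).2, (isq_int_pos hb).2]
  have h1 := Real.sqrt_le_sqrt haH
  have h2 := Real.sqrt_le_sqrt hbH
  linarith

theorem sin_per : Function.Periodic (fun s : ℝ => (Real.sqrt |Real.sin (Real.pi * s)|)⁻¹) 1 := by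
  intro s
  simp only
  rw [mul_add, mul_one, Real.sin_add_pi, abs_neg]

theorem sin_low {s : ℝ} (h0 : 0 < s) (h1 : s < 1) : s * (1 - s) ≤ Real.sin (Real.pi * s) := by
  have hpi := Real.pi_pos
  rcases le_total s (1 / 2) with h | h
  · have h2 := Real.mul_le_sin (x := Real.pi * s) (by positivity) (by nlinarith)
    have h3 : 2 / Real.pi * (Real.pi * s) = 2 * s := by field_simp
    rw [h3] at h2
    nlinarith
  · have h2 := Real.mul_le_sin (x := Real.pi * (1 - s)) (by nlinarith) (by nlinarith)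
    have h3 : 2 / Real.pi * (Real.pi * (1 - s)) = 2 * (1 - s) := by field_simp
    have h4 : Real.sin (Real.pi * (1 - s)) = Real.sin (Real.pi * s) := by
      rw [mul_sub, mul_one, Real.sin_pi_sub]
    rw [h3, h4] at h2
    nlinarith

theorem sin_int01 : IntervalIntegrable (fun s : ℝ => (Real.sqrt |Real.sin (Real.pi * s)|)⁻¹)
    volume 0 1 := by
  have h1 : IntervalIntegrable (fun s : ℝ => (Real.sqrt |s|)⁻¹ + (Real.sqrt |1 - s|)⁻¹) volume 0 1 := by
    refine (isq_int 0 1).add ?_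
    have h2 := (isq_int 0 1).comp_sub_left 1
    simp only [sub_zero, sub_self] at h2
    exact h2.symm
  refine h1.mono_fun ?_ ?_
  · have h2 : Measurable (fun s : ℝ => (Real.sqrt |Real.sin (Real.pi * s)|)⁻¹) := by fun_prop
    exact h2.aestronglyMeasurable
  · have h2 : ∀ᵐ s ∂(volume.restrict (uIoc (0:ℝ) 1)), s ∈ Ioo (0:ℝ) 1 := by
      rw [uIoc_of_le zero_le_one]
      rw [← restrict_Ioo_eq_restrict_Ioc]
      exact ae_restrict_mem measurableSet_Ioo
    filter_upwards [h2] with s hs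
    have hs0 := hs.1
    have hs1 : 0 < 1 - s := by linarith [hs.2]
    have e1 := sin_low hs.1 hs.2
    have e2 : 0 < s * (1 - s) := mul_pos hs0 hs1
    have e3 : Real.sqrt s * Real.sqrt (1 - s) ≤ Real.sqrt |Real.sin (Real.pi * s)| := by
      rw [← Real.sqrt_mul hs0.le]
      exact Real.sqrt_le_sqrt (e1.trans (le_abs_self _))
    have a1 : 0 < Real.sqrt s := Real.sqrt_pos.2 hs0
    have a2 : 0 < Real.sqrt (1 - s) := Real.sqrt_pos.2 hs1
    have a3 : Real.sqrt s ^ 2 = s := Real.sq_sqrt hs0.le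
    have a4 : Real.sqrt (1 - s) ^ 2 = 1 - s := Real.sq_sqrt hs1.le
    rw [Real.norm_of_nonneg (by positivity), Real.norm_of_nonneg (by positivity),
      abs_of_pos hs0, abs_of_pos hs1]
    have e4 : (Real.sqrt |Real.sin (Real.pi * s)|)⁻¹ ≤ (Real.sqrt s * Real.sqrt (1 - s))⁻¹ :=
      inv_anti₀ (by positivity) e3
    refine e4.trans ?_
    have e5 : (Real.sqrt s)⁻¹ + (Real.sqrt (1 - s))⁻¹ =
        (Real.sqrt s + Real.sqrt (1 - s)) * (Real.sqrt s * Real.sqrt (1 - s))⁻¹ := by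
      field_simp
      ring
    rw [e5]
    have e6 : 1 ≤ Real.sqrt s + Real.sqrt (1 - s) := by nlinarith
    have e7 : 0 ≤ (Real.sqrt s * Real.sqrt (1 - s))⁻¹ := by positivity
    nlinarith

theorem sin_int (a b : ℝ) : IntervalIntegrable
    (fun s : ℝ => (Real.sqrt |Real.sin (Real.pi * s)|)⁻¹) volume a b :=
  sin_per.intervalIntegrable₀ one_ne_zero sin_int01 a b

/-- the constant -/
def Jc : ℝ := ∫ s in (0:ℝ)..1, (Real.sqrt |Real.sin (Real.pi * s)|)⁻¹

theorem Jc_nonneg : 0 ≤ Jc :=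
  intervalIntegral.integral_nonneg zero_le_one fun s _ => by positivity

theorem sin_int_shift (x : ℝ) :
    IntervalIntegrable (fun c : ℝ => (Real.sqrt |Real.sin (Real.pi * (c - x))|)⁻¹) volume 0 1 ∧
      ∫ c in (0:ℝ)..1, (Real.sqrt |Real.sin (Real.pi * (c - x))|)⁻¹ = Jc := by
  constructor
  · have := (sin_int (0 - x) (1 - x)).comp_sub_right x
    simpa using this
  · rw [intervalIntegral.integral_comp_sub_right
      (fun s : ℝ => (Real.sqrt |Real.sin (Real.pi * s)|)⁻¹) x]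
    have h := sin_per.intervalIntegral_add_eq (0 - x) 0
    rw [zero_add] at h
    unfold Jc
    rw [← h]
    congr 1
    ring

end Pool.Agent.MP_ae5b4e_an_BX
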