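import Pool.Agent.Lib.MP_ae5b4e_an_BX.Defs
import Pool.Agent.Lib.MP_ae5b4e_an_WB.ParamInt
import Pool.Agent.Lib.SCV.Osgood

/-!
# MP_ae5b4e_an, project BX: integrals of jointly analytic functions
-/

noncomputable section

namespace Pool.Agent.MP_ae5b4e_an_BX

open Complex Set Filter Topology Metric MeasureTheory

theorem an_int {U : Set (ℂ × ℂ)} (hU : IsOpen U) {a b : ℝ} (hab : a ≤ b)
    {Φ : ℝ → ℂ × ℂ → ℂ} (hc : ContinuousOn (fun q : ℝ × (ℂ × ℂ) => Φ q.1 q.2) (Icc a b ×ˢ U))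
    (ha : ∀ c ∈ Icc a b, AnalyticOnNhd ℂ (Φ c) U) :
    AnalyticOnNhd ℂ (fun p => ∫ c in a..b, Φ c p) U := by
  -- local bounds
  have hbd : ∀ p₀ ∈ U, ∃ r > 0, closedBall p₀ r ⊆ U ∧ ∃ C : ℝ, ∀ c ∈ Icc a b,
      ∀ p ∈ closedBall p₀ r, ‖Φ c p‖ ≤ C := by
    intro p₀ hp₀
    obtain ⟨r, hr, hrU⟩ := nhds_basis_closedBall.mem_iff.1 (hU.mem_nhds hp₀)
    have hK : IsCompact (Icc a b ×ˢ closedBall p₀ r) := isCompact_Icc.prod (isCompact_closedBall _ _)
    obtain ⟨C, hC⟩ := hK.exists_bound_of_continuousOn (hc.mono (prod_mono_right hrU))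
    exact ⟨r, hr, hrU, C, fun c h1 p h2 => hC (c, p) ⟨h1, h2⟩⟩
  have hcp : ∀ p ∈ U, ContinuousOn (fun c => Φ c p) (Icc a b) := by
    intro p hp
    exact hc.comp (f := fun c : ℝ => (c, p)) (by fun_prop) fun c h => ⟨h, hp⟩
  apply Pool.Agent.SCV.osgood U hU
  · intro p₀ hp₀
    obtain ⟨r, hr, hrU, C, hC⟩ := hbd p₀ hp₀
    refine ContinuousAt.continuousWithinAt ?_
    refine intervalIntegral.continuousAt_of_dominated_interval (bound := fun _ => C)
      (F := fun p c => Φ c p) ?_ ?_ intervalIntegrable_const ?_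
    · filter_upwards [closedBall_mem_nhds p₀ hr] with p hp
      have h2 := (hcp p (hrU hp)).aestronglyMeasurable (μ := volume) measurableSet_Icc
      refine h2.mono_measure (Measure.restrict_mono ?_ le_rfl)
      rw [uIoc_of_le hab]
      exact Ioc_subset_Icc_self
    · filter_upwards [closedBall_mem_nhds p₀ hr] with p hp
      refine Eventually.of_forall fun t ht => ?_
      rw [uIoc_of_le hab] at ht
      exact hC t (Ioc_subset_Icc_self ht) p hp
    · refine Eventually.of_forall fun t ht => ?_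
      rw [uIoc_of_le hab] at ht
      exact (ha t (Ioc_subset_Icc_self ht) p₀ hp₀).continuousAt
  · intro p hp
    have hop : IsOpen ((fun x : ℂ => ((x, p.2) : ℂ × ℂ)) ⁻¹' U) := hU.preimage (by fun_prop)
    have hm : p.1 ∈ (fun x : ℂ => ((x, p.2) : ℂ × ℂ)) ⁻¹' U := by simpa using hp
    have h1 := Pool.Agent.MP_ae5b4e_an_WB.differentiableOn_paramInt hop hab
      (f := fun x c => Φ c (x, p.2)) ?_ ?_ ?_
    · exact (h1 p.1 hm).differentiableAt (hop.mem_nhds hm)
    · intro c hcc x hx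
      have h2 := ha c (Ioo_subset_Icc_self hcc) (x, p.2) hx
      have h3 : AnalyticAt ℂ (fun x : ℂ => ((x, p.2) : ℂ × ℂ)) x := by fun_prop
      have h4 : AnalyticAt ℂ (fun x : ℂ => Φ c (x, p.2)) x :=
        AnalyticAt.comp (g := Φ c) (f := fun x : ℂ => ((x, p.2) : ℂ × ℂ)) h2 h3
      exact h4.differentiableAt.differentiableWithinAt
    · intro x hx
      exact (hcp (x, p.2) hx).mono Ioo_subset_Icc_self
    · intro x hx
      obtain ⟨r, hr, hrU, C, hC⟩ := hbd (x, p.2) hx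
      refine ⟨C, ?_⟩
      have h2 : Tendsto (fun x : ℂ => ((x, p.2) : ℂ × ℂ)) (𝓝 x) (𝓝 (x, p.2)) := by
        have : Continuous (fun x : ℂ => ((x, p.2) : ℂ × ℂ)) := by fun_prop
        exact this.tendsto x
      filter_upwards [h2 (closedBall_mem_nhds (x, p.2) hr)] with x' hx' c hcc
      exact hC c (Ioo_subset_Icc_self hcc) _ hx'
  · intro p hp
    have hop : IsOpen ((fun w : ℂ => ((p.1, w) : ℂ × ℂ)) ⁻¹' U) := hU.preimage (by fun_prop)
    have hm : p.2 ∈ (fun w : ℂ => ((p.1, w) : ℂ × ℂ)) ⁻¹' U := by simpa using hp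
    have h1 := Pool.Agent.MP_ae5b4e_an_WB.differentiableOn_paramInt hop hab
      (f := fun x c => Φ c (p.1, x)) ?_ ?_ ?_
    · exact (h1 p.2 hm).differentiableAt (hop.mem_nhds hm)
    · intro c hcc x hx
      have h2 := ha c (Ioo_subset_Icc_self hcc) (p.1, x) hx
      have h3 : AnalyticAt ℂ (fun x : ℂ => ((p.1, x) : ℂ × ℂ)) x := by fun_prop
      have h4 : AnalyticAt ℂ (fun x : ℂ => Φ c (p.1, x)) x :=
        AnalyticAt.comp (g := Φ c) (f := fun x : ℂ => ((p.1, x) : ℂ × ℂ)) h2 h3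
      exact h4.differentiableAt.differentiableWithinAt
    · intro x hx
      exact (hcp (p.1, x) hx).mono Ioo_subset_Icc_self
    · intro x hx
      obtain ⟨r, hr, hrU, C, hC⟩ := hbd (p.1, x) hx
      refine ⟨C, ?_⟩
      have h2 : Tendsto (fun x : ℂ => ((p.1, x) : ℂ × ℂ)) (𝓝 x) (𝓝 (p.1, x)) := by
        have : Continuous (fun x : ℂ => ((p.1, x) : ℂ × ℂ)) := by fun_prop
        exact this.tendsto x
      filter_upwards [h2 (closedBall_mem_nhds (p.1, x) hr)] with x' hx' c hcc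
      exact hC c (Ioo_subset_Icc_self hcc) _ hx'

end Pool.Agent.MP_ae5b4e_an_BX
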