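import Pool.Agent.Lib.MP_ae5b4e_an_BX.Res
import Pool.Agent.Lib.MP_ae5b4e_an_BX.Maj
import Pool.Agent.Lib.MP_ae5b4e_an_BX.Par

/-!
# MP_ae5b4e_an, project BX: the difference equation `u (x + 1) - u x = f x` on a cell
-/

noncomputable section

namespace Pool.Agent.MP_ae5b4e_an_BX

open Complex Set Filter Topology Metric MeasureTheory

/-- the closed cell -/
def Rc (β₁ β₂ : ℝ) : Set ℂ := {σ | 0 ≤ σ.re ∧ σ.re ≤ 1 ∧ β₁ ≤ σ.im ∧ σ.im ≤ β₂}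

/-- the contour integral over the vertical line `Re = c` -/
def vI (f : ℂ × ℂ → ℂ) (β₁ β₂ c : ℝ) (p : ℂ × ℂ) : ℂ :=
  I * ∫ y in β₁..β₂, f (c + y * I, p.2) * Ek (c + y * I - p.1)

/-- the difference of the integrands at the two ends -/
def hT (f : ℂ × ℂ → ℂ) (β₁ β₂ : ℝ) (p : ℂ × ℂ) (c : ℝ) : ℂ :=
  f (c + β₂ * I, p.2) * Ek (c + β₂ * I - p.1) - f (c + β₁ * I, p.2) * Ek (c + β₁ * I - p.1)

variable {f : ℂ × ℂ → ℂ} {β₁ β₂ M : ℝ} {D : Set ℂ}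

theorem vI_per (f : ℂ × ℂ → ℂ) (β₁ β₂ c : ℝ) (x γ : ℂ) :
    vI f β₁ β₂ c (x + 1, γ) = vI f β₁ β₂ c (x, γ) := by
  unfold vI
  have e : ∀ y : ℝ, Ek (c + y * I - (x + 1)) = Ek (c + y * I - x) := by
    intro y
    rw [← Ek_sub_one (c + y * I - x)]
    congr 1
    ring
  simp only [e]

theorem hT_per (f : ℂ × ℂ → ℂ) (β₁ β₂ c : ℝ) (x γ : ℂ) :
    hT f β₁ β₂ (x + 1, γ) c = hT f β₁ β₂ (x, γ) c := by
  unfold hT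
  have e : ∀ y : ℝ, Ek (c + y * I - (x + 1)) = Ek (c + y * I - x) := by
    intro y
    rw [← Ek_sub_one (c + y * I - x)]
    congr 1
    ring
  simp only [e]

section
variable (hf : AnalyticOnNhd ℂ f (Rc β₁ β₂ ×ˢ D))
include hf

theorem f_an {c y : ℝ} (hc : c ∈ Icc (0:ℝ) 1) (hy : y ∈ Icc β₁ β₂) {p : ℂ × ℂ} (hp : p.2 ∈ D) :
    AnalyticAt ℂ f ((c:ℂ) + y * I, p.2) := by
  apply hf
  refine ⟨⟨?_, ?_, ?_, ?_⟩, hp⟩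
  · simpa using hc.1
  · simpa using hc.2
  · simpa using hy.1
  · simpa using hy.2

/-- the integrand is analytic in `p` and jointly continuous -/
theorem g_an {c y : ℝ} (hc : c ∈ Icc (0:ℝ) 1) (hy : y ∈ Icc β₁ β₂) {p : ℂ × ℂ} (hp : p.2 ∈ D)
    (hne : exp (2 * Real.pi * I * ((c:ℂ) + y * I - p.1)) - 1 ≠ 0) :
    AnalyticAt ℂ (fun p : ℂ × ℂ => f ((c:ℂ) + y * I, p.2) * Ek ((c:ℂ) + y * I - p.1)) p := by
  have h1 := f_an hf hc hy hp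
  have h2 : AnalyticAt ℂ (fun p : ℂ × ℂ => (((c:ℂ) + y * I, p.2) : ℂ × ℂ)) p :=
    analyticAt_const.prod analyticAt_snd
  have h3 : AnalyticAt ℂ (fun p : ℂ × ℂ => f ((c:ℂ) + y * I, p.2)) p :=
    AnalyticAt.comp (g := f) (f := fun p : ℂ × ℂ => (((c:ℂ) + y * I, p.2) : ℂ × ℂ)) h1 h2
  have h4 : AnalyticAt ℂ (fun p : ℂ × ℂ => (c:ℂ) + y * I - p.1) p :=
    analyticAt_const.sub analyticAt_fst
  have h5 : AnalyticAt ℂ (fun p : ℂ × ℂ => Ek ((c:ℂ) + y * I - p.1)) p :=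
    AnalyticAt.comp (g := Ek) (f := fun p : ℂ × ℂ => (c:ℂ) + y * I - p.1) (Ek_an hne) h4
  exact h3.mul h5

theorem g_cont {c y : ℝ} (hc : c ∈ Icc (0:ℝ) 1) (hy : y ∈ Icc β₁ β₂) {p : ℂ × ℂ} (hp : p.2 ∈ D)
    (hne : exp (2 * Real.pi * I * ((c:ℂ) + y * I - p.1)) - 1 ≠ 0) :
    ContinuousAt (fun q : (ℝ × ℝ) × (ℂ × ℂ) =>
      f ((q.1.1:ℂ) + q.1.2 * I, q.2.2) * Ek ((q.1.1:ℂ) + q.1.2 * I - q.2.1)) ((c, y), p) := by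
  have h1 : ContinuousAt f ((c:ℂ) + y * I, p.2) := (f_an hf hc hy hp).continuousAt
  have h2 : ContinuousAt Ek ((c:ℂ) + y * I - p.1) := (Ek_an hne).continuousAt
  have h3 : ContinuousAt (fun q : (ℝ × ℝ) × (ℂ × ℂ) =>
      (((q.1.1:ℂ) + q.1.2 * I, q.2.2) : ℂ × ℂ)) ((c, y), p) := by fun_prop
  have h4 : ContinuousAt (fun q : (ℝ × ℝ) × (ℂ × ℂ) => (q.1.1:ℂ) + q.1.2 * I - q.2.1)
      ((c, y), p) := by fun_prop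
  have h5 : ContinuousAt (fun q : (ℝ × ℝ) × (ℂ × ℂ) => f ((q.1.1:ℂ) + q.1.2 * I, q.2.2))
      ((c, y), p) :=
    ContinuousAt.comp (g := f) (f := fun q : (ℝ × ℝ) × (ℂ × ℂ) =>
      (((q.1.1:ℂ) + q.1.2 * I, q.2.2) : ℂ × ℂ)) (x := ((c, y), p)) h1 h3
  have h6 : ContinuousAt (fun q : (ℝ × ℝ) × (ℂ × ℂ) => Ek ((q.1.1:ℂ) + q.1.2 * I - q.2.1))
      ((c, y), p) :=
    ContinuousAt.comp (g := Ek) (f := fun q : (ℝ × ℝ) × (ℂ × ℂ) =>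
      (q.1.1:ℂ) + q.1.2 * I - q.2.1) (x := ((c, y), p)) h2 h4
  exact h5.mul h6

/-- `vI` is analytic off the poles -/
theorem vI_an {c : ℝ} (hc : c ∈ Icc (0:ℝ) 1) (hβ : β₁ ≤ β₂) {U : Set (ℂ × ℂ)} (hU : IsOpen U)
    (hUD : ∀ p ∈ U, p.2 ∈ D) (hs : ∀ p ∈ U, Real.sin (Real.pi * (c - p.1.re)) ≠ 0) :
    AnalyticOnNhd ℂ (vI f β₁ β₂ c) U := by
  have hne : ∀ p ∈ U, ∀ y : ℝ, exp (2 * Real.pi * I * ((c:ℂ) + y * I - p.1)) - 1 ≠ 0 := by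
    intro p hp y
    apply den_ne_sin
    have : ((c:ℂ) + y * I - p.1).re = c - p.1.re := by simp
    rw [this]
    exact hs p hp
  have h1 := an_int hU hβ
    (Φ := fun (y : ℝ) (p : ℂ × ℂ) => f ((c:ℂ) + y * I, p.2) * Ek ((c:ℂ) + y * I - p.1)) ?_ ?_
  · intro p hp
    exact analyticAt_const.mul (h1 p hp)
  · rintro ⟨y, p⟩ ⟨hy, hp⟩
    have h2 := g_cont hf hc hy (hUD p hp) (hne p hp y)
    have h3 : ContinuousAt (fun q : ℝ × (ℂ × ℂ) => (((c, q.1), q.2) : (ℝ × ℝ) × (ℂ × ℂ))) (y, p) := by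
      fun_prop
    have h4 : ContinuousAt (fun q : ℝ × (ℂ × ℂ) => f ((c:ℂ) + q.1 * I, q.2.2) *
        Ek ((c:ℂ) + q.1 * I - q.2.1)) (y, p) :=
      ContinuousAt.comp (g := fun q : (ℝ × ℝ) × (ℂ × ℂ) =>
        f ((q.1.1:ℂ) + q.1.2 * I, q.2.2) * Ek ((q.1.1:ℂ) + q.1.2 * I - q.2.1))
        (f := fun q : ℝ × (ℂ × ℂ) => (((c, q.1), q.2) : (ℝ × ℝ) × (ℂ × ℂ))) (x := (y, p)) h2 h3
    exact h4.continuousWithinAt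
  · intro y hy p hp
    exact g_an hf hc hy (hUD p hp) (hne p hp y)

theorem hT_cont {U : Set (ℂ × ℂ)} (hβ : β₁ ≤ β₂)
    (hUD : ∀ p ∈ U, p.2 ∈ D) (hb : ∀ p ∈ U, β₁ < p.1.im ∧ p.1.im < β₂) :
    ContinuousOn (fun q : ℝ × (ℂ × ℂ) => hT f β₁ β₂ q.2 q.1) (Icc 0 1 ×ˢ U) := by
  have hne : ∀ p ∈ U, ∀ c y : ℝ, (y = β₁ ∨ y = β₂) →
      exp (2 * Real.pi * I * ((c:ℂ) + y * I - p.1)) - 1 ≠ 0 := by
    intro p hp c y hy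
    apply den_ne_im
    have h1 : ((c:ℂ) + y * I - p.1).im = y - p.1.im := by simp
    rw [h1]
    have h2 := hb p hp
    rcases hy with rfl | rfl
    · exact (sub_neg.2 h2.1).ne
    · exact (sub_pos.2 h2.2).ne'
  rintro ⟨c, p⟩ ⟨hc, hp⟩
  have h1 := g_cont hf hc (right_mem_Icc.2 hβ) (hUD p hp) (hne p hp c β₂ (Or.inr rfl))
  have h2 := g_cont hf hc (left_mem_Icc.2 hβ) (hUD p hp) (hne p hp c β₁ (Or.inl rfl))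
  have h3 : ContinuousAt (fun q : ℝ × (ℂ × ℂ) => (((q.1, β₂), q.2) : (ℝ × ℝ) × (ℂ × ℂ))) (c, p) := by
    fun_prop
  have h4 : ContinuousAt (fun q : ℝ × (ℂ × ℂ) => (((q.1, β₁), q.2) : (ℝ × ℝ) × (ℂ × ℂ))) (c, p) := by
    fun_prop
  have h5 : ContinuousAt (fun q : ℝ × (ℂ × ℂ) => f ((q.1:ℂ) + β₂ * I, q.2.2) *
      Ek ((q.1:ℂ) + β₂ * I - q.2.1)) (c, p) :=
    ContinuousAt.comp (g := fun q : (ℝ × ℝ) × (ℂ × ℂ) =>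
      f ((q.1.1:ℂ) + q.1.2 * I, q.2.2) * Ek ((q.1.1:ℂ) + q.1.2 * I - q.2.1))
      (f := fun q : ℝ × (ℂ × ℂ) => (((q.1, β₂), q.2) : (ℝ × ℝ) × (ℂ × ℂ))) (x := (c, p)) h1 h3
  have h6 : ContinuousAt (fun q : ℝ × (ℂ × ℂ) => f ((q.1:ℂ) + β₁ * I, q.2.2) *
      Ek ((q.1:ℂ) + β₁ * I - q.2.1)) (c, p) :=
    ContinuousAt.comp (g := fun q : (ℝ × ℝ) × (ℂ × ℂ) =>
      f ((q.1.1:ℂ) + q.1.2 * I, q.2.2) * Ek ((q.1.1:ℂ) + q.1.2 * I - q.2.1))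
      (f := fun q : ℝ × (ℂ × ℂ) => (((q.1, β₁), q.2) : (ℝ × ℝ) × (ℂ × ℂ))) (x := (c, p)) h2 h4
  exact (h5.sub h6).continuousWithinAt

theorem hT_an {c : ℝ} (hc : c ∈ Icc (0:ℝ) 1) {U : Set (ℂ × ℂ)} (hβ : β₁ ≤ β₂)
    (hUD : ∀ p ∈ U, p.2 ∈ D) (hb : ∀ p ∈ U, β₁ < p.1.im ∧ p.1.im < β₂) :
    AnalyticOnNhd ℂ (fun p => hT f β₁ β₂ p c) U := by
  intro p hp
  have hb' := hb p hp
  refine (g_an hf hc (right_mem_Icc.2 hβ) (hUD p hp) ?_).sub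
    (g_an hf hc (left_mem_Icc.2 hβ) (hUD p hp) ?_)
  · apply den_ne_im
    have h1 : ((c:ℂ) + β₂ * I - p.1).im = β₂ - p.1.im := by simp
    rw [h1]
    exact (sub_pos.2 hb'.2).ne'
  · apply den_ne_im
    have h1 : ((c:ℂ) + β₁ * I - p.1).im = β₁ - p.1.im := by simp
    rw [h1]
    exact (sub_neg.2 hb'.1).ne

/-- weighted integrals of `hT` -/
theorem hT_int_an {a b : ℝ} (ha : 0 ≤ a) (hab : a ≤ b) (hb1 : b ≤ 1) (w : ℝ → ℂ)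
    (hw : Continuous w) {U : Set (ℂ × ℂ)} (hU : IsOpen U) (hβ : β₁ ≤ β₂)
    (hUD : ∀ p ∈ U, p.2 ∈ D) (hb : ∀ p ∈ U, β₁ < p.1.im ∧ p.1.im < β₂) :
    AnalyticOnNhd ℂ (fun p => ∫ c in a..b, w c * hT f β₁ β₂ p c) U := by
  refine an_int hU hab (Φ := fun c p => w c * hT f β₁ β₂ p c) ?_ ?_
  · have h1 := (hT_cont hf hβ hUD hb).mono
      (prod_mono_left (show Icc a b ⊆ Icc 0 1 from Icc_subset_Icc ha hb1) : Icc a b ×ˢ U ⊆ _)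
    have h2 : Continuous (fun q : ℝ × (ℂ × ℂ) => w q.1) := by fun_prop
    exact h2.continuousOn.mul h1
  · intro c hc p hp
    exact analyticAt_const.mul (hT_an hf ⟨ha.trans hc.1, hc.2.trans hb1⟩ hβ hUD hb p hp)

theorem hT_ii {p : ℂ × ℂ} (hp : p.2 ∈ D) (hβ : β₁ ≤ β₂) (h1 : β₁ < p.1.im) (h2 : p.1.im < β₂) :
    ContinuousOn (hT f β₁ β₂ p) (Icc 0 1) := by
  have h3 := hT_cont hf (U := {p}) hβ (fun q hq => by rw [hq]; exact hp)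
    (fun q hq => by rw [hq]; exact ⟨h1, h2⟩)
  exact h3.comp (f := fun c : ℝ => ((c, p) : ℝ × (ℂ × ℂ))) (by fun_prop) fun c hc => ⟨hc, rfl⟩

end

end Pool.Agent.MP_ae5b4e_an_BX
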