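import Pool.Agent.Lib.MP_ae5b4e_an_BX.Op

/-!
# MP_ae5b4e_an, project BX: relations between the contour integrals and their bounds
-/

noncomputable section

namespace Pool.Agent.MP_ae5b4e_an_BX

open Complex Set Filter Topology Metric MeasureTheory

variable {f : ℂ × ℂ → ℂ} {β₁ β₂ M : ℝ} {D : Set ℂ}

section
variable (hf : AnalyticOnNhd ℂ f (Rc β₁ β₂ ×ˢ D))
include hf

theorem slice_diff {γ : ℂ} (hγ : γ ∈ D) {a b : ℝ} (ha : 0 ≤ a) (hab : a ≤ b) (hb : b ≤ 1)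
    (hβ : β₁ ≤ β₂) : DifferentiableOn ℂ (fun σ => f (σ, γ)) (uIcc a b ×ℂ uIcc β₁ β₂) := by
  rw [uIcc_of_le hab, uIcc_of_le hβ]
  intro σ hσ
  have h1 : AnalyticAt ℂ f (σ, γ) :=
    hf _ ⟨⟨ha.trans hσ.1.1, hσ.1.2.trans hb, hσ.2.1, hσ.2.2⟩, hγ⟩
  have h2 : AnalyticAt ℂ (fun σ : ℂ => ((σ, γ) : ℂ × ℂ)) σ := analyticAt_id.prod analyticAt_const
  have h3 : AnalyticAt ℂ (fun σ : ℂ => f (σ, γ)) σ :=
    AnalyticAt.comp (g := f) (f := fun σ : ℂ => ((σ, γ) : ℂ × ℂ)) h1 h2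
  exact h3.differentiableAt.differentiableWithinAt

/-- the boundary integral of the kernel over a part of the cell -/
theorem RI_eq {p : ℂ × ℂ} (hp : p.2 ∈ D) {a b : ℝ} (ha : 0 ≤ a) (hab : a ≤ b) (hb : b ≤ 1)
    (hβ : β₁ ≤ β₂) (h1 : β₁ < p.1.im) (h2 : p.1.im < β₂) :
    RI (fun σ => f (σ, p.2) * Ek (σ - p.1)) a b β₁ β₂ =
      vI f β₁ β₂ b p - vI f β₁ β₂ a p - ∫ c in a..b, hT f β₁ β₂ p c := by
  have hne : ∀ y : ℝ, y ≠ p.1.im → ∀ c : ℝ, exp (2 * Real.pi * I * ((c:ℂ) + y * I - p.1)) - 1 ≠ 0 := by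
    intro y hy c
    apply den_ne_im
    have h3 : ((c:ℂ) + y * I - p.1).im = y - p.1.im := by simp
    rw [h3]
    exact sub_ne_zero.2 hy
  have hint : ∀ y ∈ Icc β₁ β₂, y ≠ p.1.im → IntervalIntegrable
      (fun c : ℝ => f ((c:ℂ) + y * I, p.2) * Ek ((c:ℂ) + y * I - p.1)) volume a b := by
    intro y hy hy'
    refine ContinuousOn.intervalIntegrable ?_
    rw [uIcc_of_le hab]
    intro c hc
    have h3 := g_cont hf (c := c) (y := y) ⟨ha.trans hc.1, hc.2.trans hb⟩ hy hp (hne y hy' c)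
    have h4 : ContinuousAt (fun c : ℝ => (((c, y), p) : (ℝ × ℝ) × (ℂ × ℂ))) c := by fun_prop
    exact (ContinuousAt.comp (g := fun q : (ℝ × ℝ) × (ℂ × ℂ) =>
        f ((q.1.1:ℂ) + q.1.2 * I, q.2.2) * Ek ((q.1.1:ℂ) + q.1.2 * I - q.2.1))
        (f := fun c : ℝ => (((c, y), p) : (ℝ × ℝ) × (ℂ × ℂ))) (x := c) h3 h4).continuousWithinAt
  have hsub : (∫ c in a..b, hT f β₁ β₂ p c) =
      (∫ c in a..b, f ((c:ℂ) + β₂ * I, p.2) * Ek ((c:ℂ) + β₂ * I - p.1)) -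
      ∫ c in a..b, f ((c:ℂ) + β₁ * I, p.2) * Ek ((c:ℂ) + β₁ * I - p.1) := by
    rw [← intervalIntegral.integral_sub (hint β₂ (right_mem_Icc.2 hβ) h2.ne')
      (hint β₁ (left_mem_Icc.2 hβ) h1.ne)]
    rfl
  rw [hsub]
  unfold RI vI
  simp only
  ring

/-- no pole between the lines -/
theorem vI_none {p : ℂ × ℂ} (hp : p.2 ∈ D) {a b : ℝ} (ha : 0 ≤ a) (hab : a ≤ b) (hb : b ≤ 1)
    (h1 : β₁ < p.1.im) (h2 : p.1.im < β₂) (h3 : b < p.1.re) (h4 : p.1.re < a + 1) :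
    vI f β₁ β₂ b p = vI f β₁ β₂ a p + ∫ c in a..b, hT f β₁ β₂ p c := by
  have hβ : β₁ ≤ β₂ := by linarith
  have h5 := RI_eq hf hp ha hab hb hβ h1 h2
  have h6 : RI (fun σ => f (σ, p.2) * Ek (σ - p.1)) a b β₁ β₂ = 0 := by
    apply RI_zero
    refine (slice_diff hf hp ha hab hb hβ).mul ?_
    rw [uIcc_of_le hab]
    intro σ hσ
    have h7 : exp (2 * Real.pi * I * (σ - p.1)) - 1 ≠ 0 := by
      apply den_ne_sin
      apply sin_ne
      right
      rw [sub_re]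
      constructor <;> linarith [hσ.1.1, hσ.1.2]
    have h8 : AnalyticAt ℂ (fun σ : ℂ => σ - p.1) σ := analyticAt_id.sub analyticAt_const
    have h9 : AnalyticAt ℂ (fun σ : ℂ => Ek (σ - p.1)) σ :=
      AnalyticAt.comp (g := Ek) (f := fun σ : ℂ => σ - p.1) (Ek_an h7) h8
    exact h9.differentiableAt.differentiableWithinAt
  rw [h6] at h5
  linear_combination -h5

/-- a pole between the lines -/
theorem vI_one {p : ℂ × ℂ} (hp : p.2 ∈ D) {a b : ℝ} (ha : 0 ≤ a) (hab : a ≤ b) (hb : b ≤ 1)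
    (h1 : β₁ < p.1.im) (h2 : p.1.im < β₂) (h3 : a < p.1.re) (h4 : p.1.re < b)
    (h5 : p.1.re < a + 1) (h6 : b < p.1.re + 1) :
    vI f β₁ β₂ b p = vI f β₁ β₂ a p + (∫ c in a..b, hT f β₁ β₂ p c) + f p := by
  have hβ : β₁ ≤ β₂ := by linarith
  have h7 := RI_eq hf hp ha hab hb hβ h1 h2
  have h8 := RI_Ek (slice_diff hf hp ha hab hb hβ) h3 h4 h1 h2 h5 h6
  rw [h8] at h7
  have h9 : f (p.1, p.2) = f p := rfl
  linear_combination h9 - h7

/-- integration by parts -/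
theorem ibp {p : ℂ × ℂ} (hp : p.2 ∈ D) (h1 : β₁ < p.1.im) (h2 : p.1.im < β₂) :
    (∫ c in (0:ℝ)..1, (∫ t in (0:ℝ)..c, hT f β₁ β₂ p t)) =
      ∫ c in (0:ℝ)..1, ((1 - c : ℝ) : ℂ) * hT f β₁ β₂ p c := by
  have hβ : β₁ ≤ β₂ := by linarith
  have hc := hT_ii hf hp hβ h1 h2
  have hi : IntervalIntegrable (hT f β₁ β₂ p) volume 0 1 := by
    refine ContinuousOn.intervalIntegrable ?_
    rwa [uIcc_of_le zero_le_one]
  have hG : ContinuousOn (fun c => ∫ t in (0:ℝ)..c, hT f β₁ β₂ p t) (Icc 0 1) := by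
    have h3 := intervalIntegral.continuousOn_primitive_interval (μ := volume) (a := 0) (b := 1)
      (f := hT f β₁ β₂ p) (by
        rw [uIcc_of_le zero_le_one]
        exact hc.integrableOn_Icc)
    rwa [uIcc_of_le zero_le_one] at h3
  have hd : ∀ c ∈ Ioo (0:ℝ) 1, HasDerivAt (fun c => ∫ t in (0:ℝ)..c, hT f β₁ β₂ p t)
      (hT f β₁ β₂ p c) c := by
    intro c hcc
    have h3 : IntervalIntegrable (hT f β₁ β₂ p) volume 0 c := by
      refine ContinuousOn.intervalIntegrable ?_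
      rw [uIcc_of_le hcc.1.le]
      exact hc.mono (Icc_subset_Icc_right hcc.2.le)
    refine intervalIntegral.integral_hasDerivAt_right h3 ?_ ?_
    · exact (hc.mono Ioo_subset_Icc_self).stronglyMeasurableAtFilter isOpen_Ioo c hcc
    · exact hc.continuousAt (Icc_mem_nhds hcc.1 hcc.2)
  have hd2 : ∀ c ∈ Ioo (0:ℝ) 1, HasDerivAt (fun c : ℝ => (c:ℂ) * ∫ t in (0:ℝ)..c, hT f β₁ β₂ p t)
      (1 * (∫ t in (0:ℝ)..c, hT f β₁ β₂ p t) + (c:ℂ) * hT f β₁ β₂ p c) c := by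
    intro c hcc
    exact ((hasDerivAt_id c).ofReal_comp).fun_mul (hd c hcc)
  have hcc2 : ContinuousOn (fun c : ℝ => (c:ℂ) * hT f β₁ β₂ p c) (Icc 0 1) :=
    (by fun_prop : Continuous fun c : ℝ => (c:ℂ)).continuousOn.mul hc
  have i1 : IntervalIntegrable (fun c => ∫ t in (0:ℝ)..c, hT f β₁ β₂ p t) volume 0 1 := by
    refine ContinuousOn.intervalIntegrable ?_
    rwa [uIcc_of_le zero_le_one]
  have i2 : IntervalIntegrable (fun c : ℝ => (c:ℂ) * hT f β₁ β₂ p c) volume 0 1 := by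
    refine ContinuousOn.intervalIntegrable ?_
    rwa [uIcc_of_le zero_le_one]
  have hmul : ContinuousOn (fun c : ℝ => (c:ℂ) * ∫ t in (0:ℝ)..c, hT f β₁ β₂ p t) (Icc 0 1) :=
    (by fun_prop : Continuous fun c : ℝ => (c:ℂ)).continuousOn.mul hG
  have h5 := intervalIntegral.integral_eq_sub_of_hasDerivAt_of_le zero_le_one hmul hd2 (by
      simp only [one_mul]
      exact i1.add i2)
  simp only [one_mul] at h5
  rw [intervalIntegral.integral_add i1 i2] at h5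
  simp only [ofReal_one, one_mul, ofReal_zero, zero_mul, sub_zero] at h5
  have h6 : (∫ c in (0:ℝ)..1, ((1 - c : ℝ) : ℂ) * hT f β₁ β₂ p c) =
      (∫ c in (0:ℝ)..1, hT f β₁ β₂ p c) - ∫ c in (0:ℝ)..1, (c:ℂ) * hT f β₁ β₂ p c := by
    rw [← intervalIntegral.integral_sub hi i2]
    refine intervalIntegral.integral_congr fun c _ => ?_
    push_cast
    ring
  rw [h6, ← h5]
  ring

end

/-- the bound of the contour integral -/
theorem vI_le {C : ℝ} (hC0 : 0 ≤ C) (hC : ∀ w : ℂ, w.im ≠ 0 → Real.sin (Real.pi * w.re) ≠ 0 →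
      ‖Ek w‖ ≤ 2 + C * ((Real.sqrt |w.im|)⁻¹ * (Real.sqrt |Real.sin (Real.pi * w.re)|)⁻¹))
    (hM0 : 0 ≤ M) (hM : ∀ p ∈ Rc β₁ β₂ ×ˢ D, ‖f p‖ ≤ M) {p : ℂ × ℂ} (hp : p.2 ∈ D)
    (h1 : β₁ < p.1.im) (h2 : p.1.im < β₂) {c : ℝ} (hc : c ∈ Icc (0:ℝ) 1)
    (hs : Real.sin (Real.pi * (c - p.1.re)) ≠ 0) :
    ‖vI f β₁ β₂ c p‖ ≤ M * (2 * (β₂ - β₁) + C * (4 * Real.sqrt (β₂ - β₁)) *
      (Real.sqrt |Real.sin (Real.pi * (c - p.1.re))|)⁻¹) := by
  have hβ : β₁ ≤ β₂ := by linarith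
  set s : ℝ := (Real.sqrt |Real.sin (Real.pi * (c - p.1.re))|)⁻¹ with hsd
  have hs0 : 0 ≤ s := by positivity
  obtain ⟨bd, hbd⟩ : ∃ bd : ℝ → ℝ, bd = fun y => M * (2 + C * ((Real.sqrt |y - p.1.im|)⁻¹ * s)) :=
    ⟨_, rfl⟩
  have i0 : IntervalIntegrable (fun y : ℝ => (Real.sqrt |y - p.1.im|)⁻¹) volume β₁ β₂ := by
    have := (isq_int (β₁ - p.1.im) (β₂ - p.1.im)).comp_sub_right p.1.im
    simpa using this
  have i1 : IntervalIntegrable bd volume β₁ β₂ := by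
    rw [hbd]
    exact (intervalIntegrable_const.add ((i0.mul_const s).const_mul C)).const_mul M
  have h3 : ‖∫ y in β₁..β₂, f (c + y * I, p.2) * Ek (c + y * I - p.1)‖ ≤ ∫ y in β₁..β₂, bd y := by
    refine intervalIntegral.norm_integral_le_of_norm_le hβ ?_ i1
    have h4 : ∀ᵐ y : ℝ, y ≠ p.1.im := by
      have : ({p.1.im} : Set ℝ)ᶜ ∈ ae (volume : Measure ℝ) :=
        compl_mem_ae_iff.2 (measure_singleton _)
      filter_upwards [this] with y hy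
      exact hy
    filter_upwards [h4] with y hy hyI
    have e1 : ((c:ℂ) + y * I - p.1).im = y - p.1.im := by simp
    have e2 : ((c:ℂ) + y * I - p.1).re = c - p.1.re := by simp
    have h5 := hC ((c:ℂ) + y * I - p.1) (by rw [e1]; exact sub_ne_zero.2 hy) (by rw [e2]; exact hs)
    rw [e1, e2] at h5
    have h6 : ‖f ((c:ℂ) + y * I, p.2)‖ ≤ M := by
      apply hM
      refine ⟨⟨?_, ?_, ?_, ?_⟩, hp⟩
      · simpa using hc.1
      · simpa using hc.2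
      · simpa using hyI.1.le
      · simpa using hyI.2
    rw [norm_mul, hbd]
    exact mul_le_mul h6 h5 (norm_nonneg _) hM0
  have h7 : ∫ y in β₁..β₂, bd y ≤ M * (2 * (β₂ - β₁) + C * (4 * Real.sqrt (β₂ - β₁)) * s) := by
    rw [hbd, intervalIntegral.integral_const_mul]
    refine mul_le_mul_of_nonneg_left ?_ hM0
    rw [intervalIntegral.integral_add intervalIntegrable_const ((i0.mul_const s).const_mul C),
      intervalIntegral.integral_const, intervalIntegral.integral_const_mul,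
      intervalIntegral.integral_mul_const]
    have h8 : ∫ y in β₁..β₂, (Real.sqrt |y - p.1.im|)⁻¹ ≤ 4 * Real.sqrt (β₂ - β₁) := by
      rw [intervalIntegral.integral_comp_sub_right (fun t : ℝ => (Real.sqrt |t|)⁻¹) p.1.im]
      exact isq_le (by linarith) (by linarith) (by linarith) (by linarith)
    have h9 : C * ((∫ y in β₁..β₂, (Real.sqrt |y - p.1.im|)⁻¹) * s) ≤
        C * (4 * Real.sqrt (β₂ - β₁) * s) :=
      mul_le_mul_of_nonneg_left (mul_le_mul_of_nonneg_right h8 hs0) hC0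
    have h10 : (β₂ - β₁) • (2:ℝ) = 2 * (β₂ - β₁) := by
      rw [smul_eq_mul]
      ring
    rw [h10]
    linarith
  unfold vI
  rw [norm_mul, norm_I, one_mul]
  exact h3.trans h7

end Pool.Agent.MP_ae5b4e_an_BX
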