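import Pool.Agent.Lib.MP_ae5b4e_an_BX.Ker

/-!
# MP_ae5b4e_an, project BX: Cauchy's formula for a rectangle
-/

noncomputable section

namespace Pool.Agent.MP_ae5b4e_an_BX

open Complex Set Filter Topology Metric MeasureTheory

/-- the integral over the boundary of a rectangle -/
def RI (g : ℂ → ℂ) (a b c d : ℝ) : ℂ :=
  (∫ t in a..b, g (t + c * I)) - (∫ t in a..b, g (t + d * I)) + I * (∫ t in c..d, g (b + t * I)) -
    I * (∫ t in c..d, g (a + t * I))

theorem RI_congr {g g' : ℂ → ℂ} {a b c d : ℝ} (hab : a ≤ b) (hcd : c ≤ d)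
    (h : ∀ σ : ℂ, σ.re ∈ Icc a b → σ.im ∈ Icc c d →
      (σ.re = a ∨ σ.re = b ∨ σ.im = c ∨ σ.im = d) → g σ = g' σ) :
    RI g a b c d = RI g' a b c d := by
  unfold RI
  have h1 : ∀ y : ℝ, y ∈ Icc c d → (y = c ∨ y = d) →
      (∫ t in a..b, g (t + y * I)) = ∫ t in a..b, g' (t + y * I) := by
    intro y hy hy'
    refine intervalIntegral.integral_congr fun t ht => ?_
    rw [uIcc_of_le hab] at ht
    apply h
    · simpa using ht
    · simpa using hy
    · right; right
      simpa using hy'
  have h2 : ∀ x : ℝ, x ∈ Icc a b → (x = a ∨ x = b) →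
      (∫ t in c..d, g (x + t * I)) = ∫ t in c..d, g' (x + t * I) := by
    intro x hx hx'
    refine intervalIntegral.integral_congr fun t ht => ?_
    rw [uIcc_of_le hcd] at ht
    apply h
    · simpa using hx
    · simpa using ht
    · rcases hx' with h3 | h3
      · left
        simpa using h3
      · right; left
        simpa using h3
  rw [h1 c (left_mem_Icc.2 hcd) (Or.inl rfl), h1 d (right_mem_Icc.2 hcd) (Or.inr rfl),
    h2 a (left_mem_Icc.2 hab) (Or.inl rfl), h2 b (right_mem_Icc.2 hab) (Or.inr rfl)]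

theorem RI_zero {g : ℂ → ℂ} {a b c d : ℝ}
    (hg : DifferentiableOn ℂ g (uIcc a b ×ℂ uIcc c d)) : RI g a b c d = 0 := by
  have h := Complex.integral_boundary_rect_eq_zero_of_differentiableOn g (a + c * I) (b + d * I)
    (by simpa using hg)
  simp only [add_re, ofReal_re, mul_re, I_re, mul_zero, ofReal_im, I_im, mul_one, sub_self,
    add_zero, add_im, mul_im, zero_add, smul_eq_mul] at h
  unfold RI
  exact h

/-- the winding number of the boundary of a rectangle -/
theorem RI_inv {a b c d : ℝ} {x : ℂ} (h1 : a < x.re) (h2 : x.re < b) (h3 : c < x.im)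
    (h4 : x.im < d) : RI (fun σ => (σ - x)⁻¹) a b c d = 2 * Real.pi * I := by
  have hab : a ≤ b := by linarith
  have hcd : c ≤ d := by linarith
  -- horizontal sides
  have hh : ∀ y : ℝ, y ≠ x.im → (∫ t in a..b, ((t:ℂ) + y * I - x)⁻¹) =
      log (b + y * I - x) - log (a + y * I - x) := by
    intro y hy
    have hd : ∀ t : ℝ, HasDerivAt (fun t : ℝ => log ((t:ℂ) + y * I - x)) ((t:ℂ) + y * I - x)⁻¹ t := by
      intro t
      have e1 : HasDerivAt (fun t : ℝ => (t:ℂ) + y * I - x) 1 t :=
        ((hasDerivAt_id t).ofReal_comp.add_const _).sub_const _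
      have e2 : ((t:ℂ) + y * I - x) ∈ slitPlane := by
        right
        simp
        intro h
        exact hy (by linarith)
      have e3 := e1.clog_real e2
      simpa using e3
    refine intervalIntegral.integral_eq_sub_of_hasDerivAt (fun t _ => hd t) ?_
    refine ContinuousOn.intervalIntegrable ?_
    refine ContinuousOn.inv₀ (by fun_prop) fun t _ h0 => ?_
    have h5 := congrArg Complex.im h0
    simp at h5
    exact hy (by linarith)
  -- the right side
  have hr : I * (∫ t in c..d, ((b:ℂ) + t * I - x)⁻¹) = log (b + d * I - x) - log (b + c * I - x) := by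
    have hd : ∀ t : ℝ, HasDerivAt (fun t : ℝ => log ((b:ℂ) + t * I - x)) (I * ((b:ℂ) + t * I - x)⁻¹)
        t := by
      intro t
      have e1 : HasDerivAt (fun t : ℝ => (b:ℂ) + t * I - x) I t := by
        have := (((hasDerivAt_id t).ofReal_comp.mul_const I).const_add (b:ℂ)).sub_const x
        simpa using this
      have e2 : ((b:ℂ) + t * I - x) ∈ slitPlane := by
        left
        simp
        linarith
      have e3 := e1.clog_real e2
      simpa [div_eq_mul_inv] using e3
    rw [← intervalIntegral.integral_const_mul]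
    refine intervalIntegral.integral_eq_sub_of_hasDerivAt (fun t _ => hd t) ?_
    refine ContinuousOn.intervalIntegrable ?_
    refine continuousOn_const.mul (ContinuousOn.inv₀ (by fun_prop) fun t _ h0 => ?_)
    have h5 := congrArg Complex.re h0
    simp at h5
    linarith
  -- the left side
  have hl : I * (∫ t in c..d, ((a:ℂ) + t * I - x)⁻¹) =
      log (-(a + d * I - x)) - log (-(a + c * I - x)) := by
    have hd : ∀ t : ℝ, HasDerivAt (fun t : ℝ => log (-((a:ℂ) + t * I - x)))
        (I * ((a:ℂ) + t * I - x)⁻¹) t := by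
      intro t
      have e1 : HasDerivAt (fun t : ℝ => -((a:ℂ) + t * I - x)) (-I) t := by
        have := ((((hasDerivAt_id t).ofReal_comp.mul_const I).const_add (a:ℂ)).sub_const x).fun_neg
        simpa using this
      have e2 : -((a:ℂ) + t * I - x) ∈ slitPlane := by
        left
        simp
        linarith
      have e3 := e1.clog_real e2
      have e4 : -I / -((a:ℂ) + t * I - x) = I * ((a:ℂ) + t * I - x)⁻¹ := by
        rw [neg_div_neg_eq, div_eq_mul_inv]
      rwa [e4] at e3
    rw [← intervalIntegral.integral_const_mul]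
    refine intervalIntegral.integral_eq_sub_of_hasDerivAt (fun t _ => hd t) ?_
    refine ContinuousOn.intervalIntegrable ?_
    refine continuousOn_const.mul (ContinuousOn.inv₀ (by fun_prop) fun t _ h0 => ?_)
    have h5 := congrArg Complex.re h0
    simp at h5
    linarith
  -- the branches
  have hb1 : log (-(a + d * I - x)) = log (a + d * I - x) - Real.pi * I := by
    have him : 0 < ((a:ℂ) + d * I - x).im := by
      simp
      linarith
    rw [log, log, norm_neg, arg_neg_eq_arg_sub_pi_of_im_pos him]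
    push_cast
    ring
  have hb2 : log (-(a + c * I - x)) = log (a + c * I - x) + Real.pi * I := by
    have him : ((a:ℂ) + c * I - x).im < 0 := by
      simp
      linarith
    rw [log, log, norm_neg, arg_neg_eq_arg_add_pi_of_im_neg him]
    push_cast
    ring
  unfold RI
  simp only
  rw [hh c h3.ne, hh d h4.ne', hr, hl, hb1, hb2]
  ring

/-- Cauchy's formula for a rectangle -/
theorem RI_cauchy {f : ℂ → ℂ} {a b c d : ℝ} {x : ℂ}
    (hf : DifferentiableOn ℂ f (uIcc a b ×ℂ uIcc c d)) (h1 : a < x.re) (h2 : x.re < b)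
    (h3 : c < x.im) (h4 : x.im < d) :
    RI (fun σ => f σ * (σ - x)⁻¹) a b c d = 2 * Real.pi * I * f x := by
  have hab : a ≤ b := by linarith
  have hcd : c ≤ d := by linarith
  have hmem : uIcc a b ×ℂ uIcc c d ∈ 𝓝 x := by
    rw [uIcc_of_le hab, uIcc_of_le hcd]
    refine mem_of_superset (x := Ioo a b ×ℂ Ioo c d) ?_ ?_
    · exact (isOpen_Ioo.reProdIm isOpen_Ioo).mem_nhds ⟨⟨h1, h2⟩, ⟨h3, h4⟩⟩
    · rintro z ⟨e1, e2⟩
      exact ⟨Ioo_subset_Icc_self e1, Ioo_subset_Icc_self e2⟩
  have hds : DifferentiableOn ℂ (dslope f x) (uIcc a b ×ℂ uIcc c d) :=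
    (Complex.differentiableOn_dslope hmem).2 hf
  have h0 := RI_zero hds
  have hne : ∀ σ : ℂ, (σ.re = a ∨ σ.re = b ∨ σ.im = c ∨ σ.im = d) → σ ≠ x := by
    rintro σ h rfl
    rcases h with h | h | h | h <;> linarith
  have h5 : RI (dslope f x) a b c d = RI (fun σ => f σ * (σ - x)⁻¹ - f x * (σ - x)⁻¹) a b c d := by
    refine RI_congr hab hcd fun σ _ _ hσ => ?_
    rw [dslope_of_ne _ (hne σ hσ), slope_def_field, sub_div]
    ring
  -- linearity
  have hcont : ∀ (g : ℂ → ℂ), ContinuousOn g (uIcc a b ×ℂ uIcc c d) →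
      (∀ y ∈ Icc c d, y ≠ x.im → IntervalIntegrable (fun t : ℝ => g (t + y * I) *
        ((t:ℂ) + y * I - x)⁻¹) volume a b) ∧
      (∀ s ∈ Icc a b, s ≠ x.re → IntervalIntegrable (fun t : ℝ => g (s + t * I) *
        ((s:ℂ) + t * I - x)⁻¹) volume c d) := by
    intro g hg
    constructor
    · intro y hy hy'
      refine ContinuousOn.intervalIntegrable ?_
      refine ContinuousOn.mul ?_ (ContinuousOn.inv₀ (by fun_prop) fun t _ h0 => ?_)
      · refine hg.comp (f := fun t : ℝ => (t:ℂ) + y * I) (by fun_prop) fun t ht => ?_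
        refine ⟨?_, ?_⟩
        · simpa using ht
        · simpa [uIcc_of_le hcd] using hy
      · have h5 := congrArg Complex.im h0
        simp at h5
        exact hy' (by linarith)
    · intro s hs hs'
      refine ContinuousOn.intervalIntegrable ?_
      refine ContinuousOn.mul ?_ (ContinuousOn.inv₀ (by fun_prop) fun t _ h0 => ?_)
      · refine hg.comp (f := fun t : ℝ => (s:ℂ) + t * I) (by fun_prop) fun t ht => ?_
        refine ⟨?_, ?_⟩
        · simpa [uIcc_of_le hab] using hs
        · simpa using ht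
      · have h5 := congrArg Complex.re h0
        simp at h5
        exact hs' (by linarith)
  obtain ⟨i1, i2⟩ := hcont f hf.continuousOn
  obtain ⟨j1, j2⟩ := hcont (fun _ => f x) continuousOn_const
  have hlin : RI (fun σ => f σ * (σ - x)⁻¹ - f x * (σ - x)⁻¹) a b c d =
      RI (fun σ => f σ * (σ - x)⁻¹) a b c d - f x * RI (fun σ => (σ - x)⁻¹) a b c d := by
    unfold RI
    simp only
    rw [intervalIntegral.integral_sub (i1 c (left_mem_Icc.2 hcd) h3.ne)
        (j1 c (left_mem_Icc.2 hcd) h3.ne),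
      intervalIntegral.integral_sub (i1 d (right_mem_Icc.2 hcd) h4.ne')
        (j1 d (right_mem_Icc.2 hcd) h4.ne'),
      intervalIntegral.integral_sub (i2 a (left_mem_Icc.2 hab) h1.ne)
        (j2 a (left_mem_Icc.2 hab) h1.ne),
      intervalIntegral.integral_sub (i2 b (right_mem_Icc.2 hab) h2.ne')
        (j2 b (right_mem_Icc.2 hab) h2.ne')]
    simp only [intervalIntegral.integral_const_mul]
    ring
  rw [h5, hlin, RI_inv h1 h2 h3 h4] at h0
  linear_combination h0

/-- the residue of the kernel -/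
theorem RI_Ek {f : ℂ → ℂ} {a b c d : ℝ} {x : ℂ}
    (hf : DifferentiableOn ℂ f (uIcc a b ×ℂ uIcc c d)) (h1 : a < x.re) (h2 : x.re < b)
    (h3 : c < x.im) (h4 : x.im < d) (h5 : x.re < a + 1) (h6 : b < x.re + 1) :
    RI (fun σ => f σ * Ek (σ - x)) a b c d = f x := by
  have hab : a ≤ b := by linarith
  have hcd : c ≤ d := by linarith
  have hpi : (2 * Real.pi * I : ℂ) ≠ 0 := two_pi_I_ne_zero
  have hmem : uIcc a b ×ℂ uIcc c d ∈ 𝓝 x := by
    rw [uIcc_of_le hab, uIcc_of_le hcd]
    refine mem_of_superset (x := Ioo a b ×ℂ Ioo c d) ?_ ?_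
    · exact (isOpen_Ioo.reProdIm isOpen_Ioo).mem_nhds ⟨⟨h1, h2⟩, ⟨h3, h4⟩⟩
    · rintro z ⟨e1, e2⟩
      exact ⟨Ioo_subset_Icc_self e1, Ioo_subset_Icc_self e2⟩
  set e : ℂ → ℂ := fun σ => exp (2 * Real.pi * I * (σ - x)) - 1 with he
  have hed : Differentiable ℂ e := by
    rw [he]
    fun_prop
  have hex : e x = 0 := by simp [he]
  have hde : HasDerivAt e (2 * Real.pi * I) x := by
    have e1 : HasDerivAt (fun σ : ℂ => 2 * Real.pi * I * (σ - x)) (2 * Real.pi * I) x := by
      simpa using ((hasDerivAt_id x).sub_const x).const_mul (2 * Real.pi * I : ℂ)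
    have e2 := e1.cexp.sub_const 1
    have e3 : exp (2 * Real.pi * I * (x - x)) * (2 * Real.pi * I) = 2 * Real.pi * I := by simp
    rw [e3] at e2
    exact e2
  have hq : DifferentiableOn ℂ (dslope e x) (uIcc a b ×ℂ uIcc c d) :=
    (Complex.differentiableOn_dslope hmem).2 hed.differentiableOn
  have hne : ∀ σ ∈ uIcc a b ×ℂ uIcc c d, σ ≠ x → e σ ≠ 0 := by
    intro σ hσ hσx
    have e1 : σ.re ∈ Icc a b := by
      have := hσ.1
      rwa [uIcc_of_le hab] at this
    by_cases him : σ.im = x.im
    · have e2 : σ.re ≠ x.re := fun h => hσx (Complex.ext h him)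
      apply den_ne_sin
      apply sin_ne
      rw [sub_re]
      rcases lt_or_gt_of_ne e2 with h | h
      · right
        constructor <;> linarith [e1.1]
      · left
        constructor <;> linarith [e1.2]
    · apply den_ne_im
      rw [sub_im]
      exact sub_ne_zero.2 him
  have hq0 : ∀ σ ∈ uIcc a b ×ℂ uIcc c d, dslope e x σ ≠ 0 := by
    intro σ hσ
    by_cases h : σ = x
    · rw [h, dslope_same, hde.deriv]
      exact hpi
    · rw [dslope_of_ne _ h, slope_def_field, hex, sub_zero]
      exact div_ne_zero (hne σ hσ h) (sub_ne_zero.2 h)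
  have hψ : DifferentiableOn ℂ (fun σ => f σ / dslope e x σ) (uIcc a b ×ℂ uIcc c d) :=
    hf.div hq hq0
  have hC := RI_cauchy hψ h1 h2 h3 h4
  rw [dslope_same, hde.deriv] at hC
  have hcongr : RI (fun σ => f σ * Ek (σ - x)) a b c d =
      RI (fun σ => f σ / dslope e x σ * (σ - x)⁻¹) a b c d := by
    refine RI_congr hab hcd fun σ e1 e2 e3 => ?_
    have hσx : σ ≠ x := by
      rintro rfl
      rcases e3 with h | h | h | h <;> linarith
    have hσ : σ ∈ uIcc a b ×ℂ uIcc c d := by
      rw [uIcc_of_le hab, uIcc_of_le hcd]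
      exact ⟨e1, e2⟩
    have e4 := hne σ hσ hσx
    have e5 : σ - x ≠ 0 := sub_ne_zero.2 hσx
    rw [dslope_of_ne _ hσx, slope_def_field, hex, sub_zero]
    have e6 : Ek (σ - x) = (e σ)⁻¹ := rfl
    rw [e6]
    field_simp
  rw [hcongr, hC]
  field_simp

end Pool.Agent.MP_ae5b4e_an_BX
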